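import Pool.Agent.Stick.Conv

/-!
The Tate conjecture for Fermat varieties of degree `l ^ k` or `2 l ^ k` over finite fields: the
arithmetic part, in both directions.
-/

open Finset

namespace Pool.Stick

theorem exists_frob {p : ℕ} (hp : p.Prime) {F : Type*} [Field F] [Fintype F] [CharP F p]
    [Algebra (ZMod p) F] {K : Type*} [Field K] {m : ℕ} [NeZero m]
    (χ : MulChar F K) (hχ : orderOf χ = m) :
    ∃ P : (ZMod m)ˣ, (p : ZMod m) = P ∧ P ^ Module.finrank (ZMod p) F = 1 := by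
  have : Fact p.Prime := ⟨hp⟩
  set f := Module.finrank (ZMod p) F with hf
  have hf0 : f ≠ 0 := Module.finrank_pos.ne'
  have hcard : Fintype.card F = p ^ f := card_eq_pow p F
  have hdvd : m ∣ p ^ f - 1 := by
    rw [← hcard, ← hχ]
    apply orderOf_dvd_of_pow_eq_one
    ext x
    rw [MulChar.pow_apply_coe, MulChar.one_apply_coe, ← map_pow,
      FiniteField.pow_card_sub_one_eq_one _ (Units.ne_zero _), map_one]
  have hpf : (p : ZMod m) ^ f = 1 := by
    have h1 : ((p ^ f - 1 : ℕ) : ZMod m) = 0 := (ZMod.natCast_eq_zero_iff _ _).2 hdvd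
    have h2 : 1 ≤ p ^ f := Nat.one_le_pow _ _ hp.pos
    rw [Nat.cast_sub h2, Nat.cast_pow, Nat.cast_one, sub_eq_zero] at h1
    exact h1
  obtain ⟨P, hP⟩ : IsUnit (p : ZMod m) := IsUnit.of_pow_eq_one hpf hf0
  refine ⟨P, hP.symm, ?_⟩
  ext
  rw [Units.val_pow_eq_pow_val, hP, hpf, Units.val_one]

theorem alg_iff_tate {p : ℕ} (hp : p.Prime) {F : Type*} [Field F] [Fintype F] [CharP F p]
    {K : Type*} [Field K] [CharZero K] {m : ℕ} [NeZero m] (hm3 : 3 ≤ m) {l k : ℕ} (hl : l.Prime)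
    (hk : k ≠ 0) (hm : m = l ^ k ∨ m = 2 * l ^ k) (χ : MulChar F K) (hχ : orderOf χ = m)
    {ψ : AddChar F K} (hψ : ψ ≠ 1) (s : Multiset (ZMod m)) :
    Alg p s ↔ (0 : ZMod m) ∉ s ∧ s.sum = 0 ∧ ∃ n N : ℕ, s.card = 2 * n ∧ 0 < N ∧
      (s.map fun c => gaussSum (χ ^ c.val) ψ).prod ^ N = (Fintype.card F : K) ^ (n * N) := by
  have : Fact p.Prime := ⟨hp⟩
  let _ : Algebra (ZMod p) F := ZMod.algebra F p
  constructor
  · intro hs
    obtain ⟨P, hP, hPf⟩ := exists_frob hp χ hχ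
    have h0 := alg_zero_notMem (hP ▸ P.isUnit) hs
    obtain ⟨n, hn⟩ := alg_even hs
    have hn2 : s.card = 2 * n := by omega
    obtain ⟨N, hN, h⟩ := exists_relation χ hχ hψ h0 hn2 hP
      (fun t => alg_balanced hP hPf t hs)
    exact ⟨h0, alg_sum hs, n, N, hn2, hN, h⟩
  · rintro ⟨h0, hsum, n, N, hn, hN, h⟩
    exact alg_of_tate hp hm3 hl hk hm χ hχ hψ h0 hsum hn hN h

end Pool.Stick
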