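import Pool.Agent.Stick.Gen5
import Pool.Agent.Stick.Final2

/-!
The Tate conjecture for products of the curves `y ^ q - y = x ^ m` and for Fermat varieties: the
arithmetic part.
-/

open Finset

namespace Pool.Stick

/-- If `n` has two prime factors, then `gcd(p - 1, m)` divides two. -/
theorem gcd_dvd_two {p n m : ℕ} (hp2 : 2 ≤ p) (hpm : p.Coprime m) (hmn : m = n ∨ Odd n ∧ m = 2 * n)
    (hn : ∀ l : ℕ, l.Prime → l ∣ n → ∃ j k : ℕ, n ∣ l ^ k * (p ^ j + 1))
    {l1 l2 : ℕ} (hl1 : l1.Prime) (hl2 : l2.Prime) (hne : l1 ≠ l2) (h1 : l1 ∣ n) (h2 : l2 ∣ n)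
    (hn0 : n ≠ 0) : Nat.gcd (p - 1) m ∣ 2 := by
  have hm0 : m ≠ 0 := by rcases hmn with rfl | ⟨_, rfl⟩ <;> omega
  have hother : ∀ l : ℕ, l.Prime → ∃ l', l'.Prime ∧ l' ∣ n ∧ l' ≠ l := by
    intro l _
    by_cases h : l1 = l
    · exact ⟨l2, hl2, h2, fun h3 => hne (h.trans h3.symm)⟩
    · exact ⟨l1, hl1, h1, h⟩
  -- if `d = l ^ t` divides `n` and `p - 1`, then it divides two
  have key : ∀ l t : ℕ, l.Prime → l ^ t ∣ n → l ^ t ∣ p - 1 → l ^ t ∣ 2 := by
    intro l t hl hln hlp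
    obtain ⟨l', hl', hln', hll'⟩ := hother l hl
    obtain ⟨j, k, hjk⟩ := hn l' hl' hln'
    have h3 : l ^ t ∣ p ^ j + 1 := by
      have h5 : l ^ t ∣ l' ^ k * (p ^ j + 1) := hln.trans hjk
      have h6 : Nat.Coprime (l ^ t) (l' ^ k) :=
        Nat.Coprime.pow _ _ ((Nat.coprime_primes hl hl').2 hll'.symm)
      exact h6.dvd_of_dvd_mul_left h5
    have h4 : l ^ t ∣ p ^ j - 1 := by
      have h7 := Nat.sub_dvd_pow_sub_pow p 1 j
      rw [one_pow] at h7
      exact hlp.trans h7
    have h8 : 1 ≤ p ^ j := Nat.one_le_pow _ _ (by omega)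
    have h9 := Nat.dvd_sub h3 h4
    have h10 : p ^ j + 1 - (p ^ j - 1) = 2 := by omega
    rwa [h10] at h9
  set g := Nat.gcd (p - 1) m with hg
  have hg0 : g ≠ 0 := by
    intro h
    rw [hg, Nat.gcd_eq_zero_iff] at h
    exact hm0 h.2
  have hgp : g ∣ p - 1 := Nat.gcd_dvd_left _ _
  have hgm : g ∣ m := Nat.gcd_dvd_right _ _
  have hprime : ∀ {d : ℕ}, d.Prime → d ∣ g → d = 2 := by
    intro d hd hdg
    by_contra hd2
    have h3 : d ∣ n := by
      rcases hmn with rfl | ⟨_, rfl⟩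
      · exact hdg.trans hgm
      · exact (Nat.Coprime.dvd_mul_left ((Nat.coprime_primes hd Nat.prime_two).2 hd2)).1
          (hdg.trans hgm)
    have h4 := key d 1 hd (by rwa [pow_one]) (by rw [pow_one]; exact hdg.trans hgp)
    rw [pow_one] at h4
    exact hd2 ((Nat.prime_dvd_prime_iff_eq hd Nat.prime_two).1 h4)
  have hpow := Nat.eq_prime_pow_of_unique_prime_dvd hg0 hprime
  set t := g.primeFactorsList.length
  rw [hpow]
  by_cases ht : t ≤ 1
  · exact (pow_dvd_pow 2 ht).trans (by norm_num)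
  · exfalso
    have h4 : 2 ^ 2 ∣ g := by
      rw [hpow]
      exact pow_dvd_pow 2 (by omega)
    have h5 : 2 ^ 2 ∣ n := by
      rcases hmn with rfl | ⟨hodd, rfl⟩
      · exact h4.trans hgm
      · exfalso
        obtain ⟨r, hr⟩ := hodd
        have h6 := h4.trans hgm
        omega
    have h6 := key 2 2 Nat.prime_two h5 (h4.trans hgp)
    norm_num at h6

theorem exists_two {p m : ℕ} [NeZero m] (hp1 : 1 ≤ p) (hg : Nat.gcd (p - 1) m ∣ 2) (y : ZMod m) :
    ∃ a, (1 - (p : ZMod m)) * a = 2 * y := by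
  obtain ⟨d, hd⟩ := hg
  have h1 := Nat.gcd_eq_gcd_ab (p - 1) m
  have h2 := congrArg (fun z : ℤ => (z : ZMod m)) h1
  push_cast [Nat.cast_sub hp1] at h2
  rw [ZMod.natCast_self, zero_mul, add_zero] at h2
  have h3 := congrArg (fun z : ℕ => (z : ZMod m)) hd
  push_cast at h3
  refine ⟨-((Nat.gcdA (p - 1) m : ZMod m) * d * y), ?_⟩
  rw [h3, h2]
  ring

theorem algG_iff {p n m : ℕ} (hp : p.Prime) [NeZero m]
    (hmn : m = n ∨ Odd n ∧ m = 2 * n)
    (hn : ∀ l : ℕ, l.Prime → l ∣ n → ∃ j k : ℕ, n ∣ l ^ k * (p ^ j + 1))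
    {F : Type*} [Field F] [Fintype F] [CharP F p] {K : Type*} [Field K] [CharZero K]
    (χ : MulChar F K) (hχ : orderOf χ = m) {ψ : AddChar F K} (hψ : ψ ≠ 1)
    (s : Multiset (ZMod m)) :
    AlgG p s ↔ (0 : ZMod m) ∉ s ∧ ∃ r N : ℕ, s.card = 2 * r ∧ 0 < N ∧
      (s.map fun c => gaussSum (χ ^ c.val) ψ).prod ^ N = (Fintype.card F : K) ^ (r * N) := by
  have : Fact p.Prime := ⟨hp⟩
  let _ : Algebra (ZMod p) F := ZMod.algebra F p
  obtain ⟨P, hP, hPf⟩ := exists_frob hp χ hχ
  have hf0 : Module.finrank (ZMod p) F ≠ 0 := Module.finrank_pos.ne'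
  have hPu : IsUnit (p : ZMod m) := hP ▸ P.isUnit
  constructor
  · intro hs
    have h0 := algG_zero_notMem hPu hs
    obtain ⟨r, hr⟩ := algG_sum_of_balanced_even hs
    have hr2 : s.card = 2 * r := by omega
    obtain ⟨N, hN, h⟩ := exists_relation χ hχ hψ h0 hr2 hP
      (fun t => algG_balanced hP hPf t hs)
    exact ⟨h0, r, N, hr2, hN, h⟩
  · rintro ⟨h0, r, N, hr, hN, h⟩
    have hbal := beta_eq_zero χ hχ hψ hr hN h hP
    have hv0 : toA s 0 = 0 := by
      rw [toA_apply, Multiset.count_eq_zero_of_notMem h0]; rfl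
    have hcnt : Even (cnt (toA s)) := by
      rw [cnt_toA, hr]
      push_cast
      exact even_two_mul _
    apply algG_of_relG hPu
    refine mem_relG_of_relL ?_ hcnt
    rcases hmn with hm | ⟨hodd, hm⟩
    · subst hm
      exact mem_relL hn hP hPf hf0 hv0 hbal
    · subst hm
      have : NeZero n := ⟨by rintro rfl; simp at hodd⟩
      exact mem_relL_twice hodd hn hP hPf hf0 hv0 hbal

theorem algF_iff {p n m : ℕ} (hp : p.Prime) [NeZero m] (hm3 : 3 ≤ m)
    (hmn : m = n ∨ Odd n ∧ m = 2 * n)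
    (hn : ∀ l : ℕ, l.Prime → l ∣ n → ∃ j k : ℕ, n ∣ l ^ k * (p ^ j + 1))
    {F : Type*} [Field F] [Fintype F] [CharP F p] {K : Type*} [Field K] [CharZero K]
    (χ : MulChar F K) (hχ : orderOf χ = m) {ψ : AddChar F K} (hψ : ψ ≠ 1)
    (s : Multiset (ZMod m)) : AlgF p s ↔ AlgG p s ∧ s.sum = 0 := by
  have : Fact p.Prime := ⟨hp⟩
  let _ : Algebra (ZMod p) F := ZMod.algebra F p
  obtain ⟨P, hP, hPf⟩ := exists_frob hp χ hχ
  have hf0 : Module.finrank (ZMod p) F ≠ 0 := Module.finrank_pos.ne'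
  have hPu : IsUnit (p : ZMod m) := hP ▸ P.isUnit
  refine ⟨fun h => ⟨algF_algG h, algF_sum h⟩, ?_⟩
  rintro ⟨hs, hsum⟩
  have h0 := algG_zero_notMem hPu hs
  have hbal := fun t => algG_balanced hP hPf t hs
  have hv0 : toA s 0 = 0 := by
    rw [toA_apply, Multiset.count_eq_zero_of_notMem h0]; rfl
  have heven := algG_sum_of_balanced_even hs
  have hcnt : Even (cnt (toA s)) := by
    rw [cnt_toA]
    exact_mod_cast heven
  have hsg : sg (toA s) = 0 := by rw [sg_toA, hsum]
  apply algF_of_relC hPu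
  change toA s ∈ RelC m p
  by_cases hneg : (-1 : (ZMod m)ˣ) ∈ Subgroup.zpowers P
  · rw [← mem_powers_iff_mem_zpowers] at hneg
    obtain ⟨j, hj⟩ := hneg
    have hj' : (p : ZMod m) ^ j = -1 := by
      rw [hP, ← Units.val_pow_eq_pow_val]
      have : P ^ j = -1 := hj
      rw [this, Units.val_neg, Units.val_one]
    have h1 := mem_relS hm3 hv0 hsg hcnt
    have h2 : AddSubgroup.closure (relP m ∪ relS m) ≤ RelC m p := by
      rw [AddSubgroup.closure_le]
      rintro v (hv | ⟨x, y, z, x', y', z', hx, hy, hz, hx', hy', hz', h1, h2, rfl⟩)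
      · exact AddSubgroup.subset_closure (Or.inl (Or.inl hv))
      · refine AddSubgroup.subset_closure (Or.inr ⟨x, y, z, x', y', z', hx, hy, hz, hx', hy', hz',
          h1, h2, ?_, rfl⟩)
        have hss : ∀ x y : ZMod m, x ≠ 0 → y ≠ 0 → AlgG p {x, y} := fun x y hx hy =>
          AlgG.super x y j j hx hy (by rw [hj', neg_one_mul]) (by rw [hj', neg_one_mul])
        have h := AlgG.add (AlgG.add (hss x y hx hy) (hss z x' hz hx')) (hss y' z' hy' hz')
        convert h using 1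
        simp only [Multiset.insert_eq_cons, ← Multiset.singleton_add]
        abel
    exact h2 h1
  · -- not supersingular
    have hm0 : m ≠ 0 := NeZero.ne m
    have hn0 : n ≠ 0 := by
      rcases hmn with rfl | ⟨_, rfl⟩
      · exact hm0
      · intro h; simp [h] at hm0
    have hn1 : n ≠ 1 := by
      rcases hmn with rfl | ⟨_, rfl⟩ <;> omega
    obtain ⟨l, hl, hln⟩ := Nat.exists_prime_and_dvd hn1
    by_cases hpp : ∀ {d : ℕ}, d.Prime → d ∣ n → d = l
    · -- prime power
      have hpow := Nat.eq_prime_pow_of_unique_prime_dvd hn0 hpp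
      set k := n.primeFactorsList.length with hk
      have hk0 : k ≠ 0 := by
        intro h
        rw [h, pow_zero] at hpow
        exact hn1 hpow
      have hA : toA s ∈ RelA m p := by
        rcases hmn with hm | ⟨hodd, hm⟩
        · rw [← hm] at hpow
          exact Rel_le_RelA hl (hpow ▸ dvd_pow_self l hk0)
            (mem_rel_prime_pow hl hk0 hpow hP hPf hf0 hneg hv0 hcnt hbal)
        · subst hm
          have hl2 : l ≠ 2 := by
            rintro rfl
            rw [hpow] at hodd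
            rw [Nat.odd_pow_iff hk0] at hodd
            exact absurd hodd (by decide)
          have : NeZero n := ⟨hn0⟩
          exact mem_relA_twice hl hl2 hk0 hpow hP hPf hf0 hneg hv0 hcnt hbal
      exact mem_relC hP (AddSubgroup.mem_sup_left hA) hv0 hsg
    · -- two primes
      simp only [not_forall] at hpp
      obtain ⟨l', hl', hln', hll'⟩ := hpp
      have hpm : p.Coprime m := (ZMod.isUnit_iff_coprime p m).1 hPu
      have hg := gcd_dvd_two hp.two_le hpm hmn hn hl' hl hll' hln' hln hn0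
      have hL : toA s ∈ RelL m p := by
        rcases hmn with hm | ⟨hodd, hm⟩
        · subst hm
          exact mem_relL hn hP hPf hf0 hv0 hbal
        · subst hm
          have : NeZero n := ⟨hn0⟩
          exact mem_relL_twice hodd hn hP hPf hf0 hv0 hbal
      exact mem_relC_of_relL hP (exists_two hp.one_le hg) hL hv0 hsg hcnt

end Pool.Stick
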