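import Mathlib

/-!
The classes of multisets of elements of `ZMod m` which are given by known algebraic cycles on
Fermat varieties.
-/

namespace Pool.Stick

/-- The multiset of all `z` with `l z = l x`, together with `- l x`, and with `m / 2` if `l = 2`. -/
def distSet (m l : ℕ) [NeZero m] (x : ZMod m) : Multiset (ZMod m) :=
  (Finset.univ.filter fun z : ZMod m => (l : ZMod m) * z = l * x).val + {-((l : ZMod m) * x)} +
    if l = 2 then {((m / 2 : ℕ) : ZMod m)} else 0

/-- `Alg p s`: the character `s` occurs in the cohomology of the Fermat variety of degree `m` and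
dimension `s.card - 2` in characteristic `p` and is spanned by the class of an algebraic cycle which
is obtained from linear subspaces, Aoki's cycles, graphs of the Frobenius morphism, and, if the
Fermat curve is supersingular, graphs of homomorphisms of its Jacobian, by the inductive structure
of Shioda and Katsura. -/
inductive Alg (p : ℕ) {m : ℕ} [NeZero m] : Multiset (ZMod m) → Prop
  /-- the empty multiset -/
  | zero : Alg p 0
  /-- joins -/
  | add {s t : Multiset (ZMod m)} : Alg p s → Alg p t → Alg p (s + t)
  /-- removal of a pair `c, -c` -/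
  | cancel {s : Multiset (ZMod m)} (c : ZMod m) : c ≠ 0 → Alg p (s + {c, -c}) → Alg p s
  /-- linear subspaces -/
  | pair (c : ZMod m) : c ≠ 0 → Alg p {c, -c}
  /-- Aoki's cycles -/
  | dist (l : ℕ) (x : ZMod m) : l.Prime → l ∣ m → (l : ZMod m) * x ≠ 0 → Alg p (distSet m l x)
  /-- the graph of the Frobenius morphism of the Fermat curve -/
  | frob (x y z : ZMod m) : x ≠ 0 → y ≠ 0 → z ≠ 0 → x + y + z = 0 →
      Alg p {x, y, z, -((p : ZMod m) * x), -((p : ZMod m) * y), -((p : ZMod m) * z)}
  /-- the product of the Fermat curve with itself in the supersingular case -/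
  | super (x y z x' y' z' : ZMod m) (j : ℕ) : (p : ZMod m) ^ j = -1 → x ≠ 0 → y ≠ 0 → z ≠ 0 →
      x' ≠ 0 → y' ≠ 0 → z' ≠ 0 → x + y + z = 0 → x' + y' + z' = 0 → Alg p {x, y, z, x', y', z'}

end Pool.Stick
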