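import Pool.Agent.Stick.Lattice6
import Pool.Agent.Stick.AlgDef

/-!
Balanced multisets are algebraic.
-/

open Finset

namespace Pool.Stick

variable {m : ℕ} [NeZero m] {p : ℕ}

/-- the element of the free abelian group -/
noncomputable def toA (s : Multiset (ZMod m)) : A m := (s.map e).sum

omit [NeZero m] in
theorem toA_add (s t : Multiset (ZMod m)) : toA (s + t) = toA s + toA t := by
  rw [toA, Multiset.map_add, Multiset.sum_add]; rfl

omit [NeZero m] in
theorem toA_zero : toA (0 : Multiset (ZMod m)) = 0 := by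
  rw [toA, Multiset.map_zero, Multiset.sum_zero]

omit [NeZero m] in
theorem toA_cons (c : ZMod m) (s : Multiset (ZMod m)) : toA (c ::ₘ s) = e c + toA s := by
  rw [toA, Multiset.map_cons, Multiset.sum_cons]; rfl

omit [NeZero m] in
theorem toA_singleton (c : ZMod m) : toA ({c} : Multiset (ZMod m)) = e c := by
  rw [toA, Multiset.map_singleton, Multiset.sum_singleton]

omit [NeZero m] in
theorem toA_apply (s : Multiset (ZMod m)) (x : ZMod m) : toA s x = s.count x := by
  induction s using Multiset.induction_on with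
  | empty => simp [toA]
  | cons c s ih =>
    rw [toA_cons, Finsupp.add_apply, ih, e, Finsupp.single_apply, Multiset.count_cons]
    by_cases h : c = x
    · subst h; simp; ring
    · rw [if_neg h, if_neg (Ne.symm h)]; simp

omit [NeZero m] in
theorem toA_inj {s t : Multiset (ZMod m)} (h : toA s = toA t) : s = t := by
  classical
  ext x
  have h1 := DFunLike.congr_fun h x
  rw [toA_apply, toA_apply] at h1
  have h2 : s.count x = t.count x := by exact_mod_cast h1
  convert h2

theorem distSet_neg (l : ℕ) (x : ZMod m) (hlm : l ∣ m) :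
    (distSet m l x).map Neg.neg = distSet m l (-x) := by
  unfold distSet
  rw [Multiset.map_add, Multiset.map_add, Multiset.map_singleton, mul_neg]
  congr 1
  · congr 1
    have h1 : (univ.filter fun z : ZMod m => (l : ZMod m) * z = -(l * x))
        = (univ.filter fun z : ZMod m => (l : ZMod m) * z = l * x).map (Equiv.neg _).toEmbedding := by
      ext z
      simp only [mem_filter, mem_univ, true_and, mem_map, Equiv.coe_toEmbedding, Equiv.neg_apply]
      constructor
      · intro h
        exact ⟨-z, by rw [mul_neg, h, neg_neg], neg_neg z⟩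
      · rintro ⟨y, hy, rfl⟩
        rw [mul_neg, hy]
    rw [h1, Finset.map_val]
    rfl
  · split_ifs with h
    · subst h
      rw [Multiset.map_singleton]
      congr 1
      obtain ⟨r, hr⟩ := hlm
      have hr2 : m / 2 = r := by omega
      rw [neg_eq_iff_add_eq_zero, ← Nat.cast_add, ZMod.natCast_eq_zero_iff, hr2]
      exact ⟨1, by omega⟩
    · rfl

/-- `Alg` is closed under multiplication by `-1` -/
theorem alg_neg {s : Multiset (ZMod m)} (hs : Alg p s) : Alg p (s.map Neg.neg) := by
  induction hs with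
  | zero => exact Alg.zero
  | add _ _ h1 h2 => rw [Multiset.map_add]; exact Alg.add h1 h2
  | cancel c hc _ h =>
    refine Alg.cancel (-c) (neg_ne_zero.2 hc) ?_
    rw [Multiset.map_add] at h
    simpa using h
  | pair c hc =>
    have := Alg.pair (p := p) (-c) (neg_ne_zero.2 hc)
    simpa using this
  | dist l x hl hlm hx =>
    rw [distSet_neg l x hlm]
    exact Alg.dist l (-x) hl hlm (by rw [mul_neg]; exact neg_ne_zero.2 hx)
  | frob x y z hx hy hz hs =>
    have := Alg.frob (p := p) (-x) (-y) (-z) (neg_ne_zero.2 hx) (neg_ne_zero.2 hy)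
      (neg_ne_zero.2 hz) (by linear_combination -hs)
    simpa using this
  | super x y z x' y' z' j hj hx hy hz hx' hy' hz' hs hs' =>
    have := Alg.super (p := p) (-x) (-y) (-z) (-x') (-y') (-z') j hj (neg_ne_zero.2 hx)
      (neg_ne_zero.2 hy) (neg_ne_zero.2 hz) (neg_ne_zero.2 hx') (neg_ne_zero.2 hy')
      (neg_ne_zero.2 hz') (by linear_combination -hs) (by linear_combination -hs')
    simpa using this

theorem zero_notMem_distSet {l : ℕ} {x : ZMod m} (hlm : l ∣ m) (hx : (l : ZMod m) * x ≠ 0) :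
    (0 : ZMod m) ∉ distSet m l x := by
  unfold distSet
  rw [Multiset.mem_add, Multiset.mem_add, not_or, not_or]
  refine ⟨⟨?_, ?_⟩, ?_⟩
  · rw [mem_val, mem_filter]
    rintro ⟨_, h⟩
    rw [mul_zero] at h
    exact hx h.symm
  · rw [Multiset.mem_singleton]
    exact fun h => hx (neg_eq_zero.1 h.symm)
  · split_ifs with h
    · subst h
      rw [Multiset.mem_singleton]
      exact fun h => half_ne_zero hlm h.symm
    · exact Multiset.notMem_zero _

theorem alg_zero_notMem (hp : IsUnit (p : ZMod m)) {s : Multiset (ZMod m)} (hs : Alg p s) :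
    (0 : ZMod m) ∉ s := by
  obtain ⟨P, hP⟩ := hp
  have hpx : ∀ x : ZMod m, x ≠ 0 → (0 : ZMod m) ≠ -((p : ZMod m) * x) := by
    intro x hx h
    rw [← hP] at h
    exact unit_mul_ne_zero P hx (neg_eq_zero.1 h.symm)
  induction hs with
  | zero => exact Multiset.notMem_zero _
  | add _ _ h1 h2 => rw [Multiset.mem_add, not_or]; exact ⟨h1, h2⟩
  | cancel c hc _ h =>
    rw [Multiset.mem_add, not_or] at h
    exact h.1
  | pair c hc => simp [hc, hc.symm]
  | dist l x hl hlm hx => exact zero_notMem_distSet hlm hx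
  | frob x y z hx hy hz hs =>
    simp only [Multiset.insert_eq_cons, Multiset.mem_cons, Multiset.mem_singleton, not_or]
    exact ⟨hx.symm, hy.symm, hz.symm, hpx x hx, hpx y hy, hpx z hz⟩
  | super x y z x' y' z' j hj hx hy hz hx' hy' hz' hs hs' =>
    simp only [Multiset.insert_eq_cons, Multiset.mem_cons, Multiset.mem_singleton, not_or]
    exact ⟨hx.symm, hy.symm, hz.symm, hx'.symm, hy'.symm, hz'.symm⟩

theorem alg_cancel_pairs (t : Multiset (ZMod m)) : ∀ s : Multiset (ZMod m), (0 : ZMod m) ∉ t →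
    Alg p (s + (t + t.map Neg.neg)) → Alg p s := by
  induction t using Multiset.induction_on with
  | empty => intro s _ h; simpa using h
  | cons c t ih =>
    intro s h0 h
    rw [Multiset.mem_cons, not_or] at h0
    apply ih s h0.2
    apply Alg.cancel c (Ne.symm h0.1)
    have h1 : s + (t + t.map Neg.neg) + {c, -c} = s + (c ::ₘ t + (c ::ₘ t).map Neg.neg) := by
      rw [Multiset.map_cons, Multiset.insert_eq_cons, ← Multiset.singleton_add c t,
        ← Multiset.singleton_add (-c), ← Multiset.singleton_add c {-c}]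
      abel
    rw [h1]
    exact h

omit [NeZero m] in
theorem exists_alg [NeZero m] {S : Set (A m)} (hS : ∀ v ∈ S, ∃ s, Alg p s ∧ v = toA s) {v : A m}
    (hv : v ∈ AddSubgroup.closure S) : ∃ s t, Alg p s ∧ Alg p t ∧ v = toA s - toA t := by
  induction hv using AddSubgroup.closure_induction with
  | mem x hx =>
    obtain ⟨s, hs, rfl⟩ := hS x hx
    exact ⟨s, 0, hs, Alg.zero, by rw [toA_zero, sub_zero]⟩
  | zero => exact ⟨0, 0, Alg.zero, Alg.zero, by rw [sub_self]⟩
  | add x y _ _ hx hy =>
    obtain ⟨s, t, hs, ht, rfl⟩ := hx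
    obtain ⟨s', t', hs', ht', rfl⟩ := hy
    exact ⟨s + s', t + t', Alg.add hs hs', Alg.add ht ht', by rw [toA_add, toA_add]; abel⟩
  | neg x _ hx =>
    obtain ⟨s, t, hs, ht, rfl⟩ := hx
    exact ⟨t, s, ht, hs, by abel⟩

theorem alg_of_mem_closure (hp : IsUnit (p : ZMod m)) {S : Set (A m)}
    (hS : ∀ v ∈ S, ∃ s, Alg p s ∧ v = toA s) {s : Multiset (ZMod m)}
    (hs : toA s ∈ AddSubgroup.closure S) : Alg p s := by
  obtain ⟨s1, s2, h1, h2, h⟩ := exists_alg hS hs
  have h3 : s + s2 = s1 := by
    apply toA_inj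
    rw [toA_add, h]; abel
  apply alg_cancel_pairs s2 s (alg_zero_notMem hp h2)
  rw [← add_assoc, h3]
  exact Alg.add h1 (alg_neg h2)

theorem exists_relP {v : A m} (hv : v ∈ relP m) : ∃ s, Alg p s ∧ v = toA s := by
  obtain ⟨c, hc, rfl⟩ := hv
  refine ⟨{c, -c}, Alg.pair c hc, ?_⟩
  rw [Multiset.insert_eq_cons, toA_cons, toA_singleton]

theorem exists_relDD {v : A m} (hv : v ∈ relDD m) : ∃ s, Alg p s ∧ v = toA s := by
  obtain ⟨l, hl, hlm, x, hx, rfl⟩ := hv
  refine ⟨distSet m l x, Alg.dist l x hl hlm hx, ?_⟩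
  unfold distSet
  rw [toA_add, toA_add, toA_singleton]
  congr 1
  split_ifs
  · rw [toA_singleton]
  · rw [toA_zero]

/-- Balanced multisets are algebraic. -/
theorem alg_of_balanced {l k f : ℕ} (hm3 : 3 ≤ m) (hl : l.Prime) (hk : k ≠ 0)
    (hm : m = l ^ k ∨ m = 2 * l ^ k) {P : (ZMod m)ˣ} (hp : (p : ZMod m) = P) (hf : P ^ f = 1)
    (hf0 : f ≠ 0) {s : Multiset (ZMod m)} (h0 : (0 : ZMod m) ∉ s) (hsum : s.sum = 0)
    (heven : Even s.card) (hbal : ∀ t, beta P f t (toA s) = 0) : Alg p s := by
  have hpu : IsUnit (p : ZMod m) := ⟨P, hp.symm⟩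
  have hv0 : toA s 0 = 0 := by
    rw [toA_apply, Multiset.count_eq_zero_of_notMem h0]; rfl
  have hsg : sg (toA s) = 0 := by
    rw [toA, map_multiset_sum, Multiset.map_map]
    simp only [Function.comp_def, sg_e, Multiset.map_id']
    exact hsum
  have hcnt : Even (cnt (toA s)) := by
    have : cnt (toA s) = s.card := by
      rw [toA, map_multiset_sum, Multiset.map_map]
      simp [Function.comp_def, cnt_e]
    rw [this]
    exact_mod_cast heven
  by_cases hneg : (-1 : (ZMod m)ˣ) ∈ Subgroup.zpowers P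
  · rw [← mem_powers_iff_mem_zpowers] at hneg
    obtain ⟨j, hj⟩ := hneg
    have hj' : (p : ZMod m) ^ j = -1 := by
      rw [hp, ← Units.val_pow_eq_pow_val]
      have : P ^ j = -1 := hj
      rw [this, Units.val_neg, Units.val_one]
    refine alg_of_mem_closure hpu ?_ (mem_relS hm3 hv0 hsg hcnt)
    rintro v (hv | ⟨x, y, z, x', y', z', hx, hy, hz, hx', hy', hz', h1, h2, rfl⟩)
    · exact exists_relP hv
    · refine ⟨{x, y, z, x', y', z'}, Alg.super x y z x' y' z' j hj' hx hy hz hx' hy' hz' h1 h2, ?_⟩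
      simp only [Multiset.insert_eq_cons, toA_cons, toA_singleton]
      abel
  · have hA : toA s ∈ RelA m p := by
      rcases hm with hm | hm
      · exact Rel_le_RelA hl (hm ▸ dvd_pow_self l hk)
          (mem_rel_prime_pow hl hk hm hp hf hf0 hneg hv0 hcnt hbal)
      · by_cases hl2 : l = 2
        · subst hl2
          have hm' : m = 2 ^ (k + 1) := by rw [hm, pow_succ, mul_comm]
          exact Rel_le_RelA Nat.prime_two (hm ▸ dvd_mul_right _ _)
            (mem_rel_prime_pow Nat.prime_two (Nat.succ_ne_zero k) hm' hp hf hf0 hneg hv0 hcnt hbal)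
        · subst hm
          have : NeZero (l ^ k) := ⟨(pow_pos hl.pos k).ne'⟩
          exact mem_relA_twice hl hl2 hk rfl hp hf hf0 hneg hv0 hcnt hbal
    refine alg_of_mem_closure hpu ?_ (mem_relT hp hA hv0 hsg)
    rintro v ((hv | hv) | ⟨x, y, z, hx, hy, hz, h1, rfl⟩)
    · exact exists_relP hv
    · exact exists_relDD hv
    · refine ⟨_, Alg.frob x y z hx hy hz h1, ?_⟩
      simp only [Multiset.insert_eq_cons, toA_cons, toA_singleton]
      abel

end Pool.Stick
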