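import Mathlib

/-!
The sum of fractional parts `T(a) = ∑_{i<f} (p^i a mod (p^f-1))` and a recursion which determines
the norms of Gauss sums.
-/

namespace Pool.Stick

open Finset

/-- `T(a) = ∑_{i<f} (p^i a mod (p^f-1))` -/
def T (p f a : ℕ) : ℕ := ∑ i ∈ range f, (p ^ i * a) % (p ^ f - 1)

variable {p f : ℕ}

lemma pow_eq (hp : p.Prime) : p ^ f = (p ^ f - 1) + 1 := by
  have : 0 < p ^ f := pow_pos hp.pos f
  omega

lemma T_zero : T p f 0 = 0 := by simp [T]

lemma T_congr {a b : ℕ} (h : a ≡ b [MOD (p ^ f - 1)]) : T p f a = T p f b := by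
  unfold T
  refine sum_congr rfl fun i _ => ?_
  exact (Nat.ModEq.mul_left (p ^ i) h)

lemma T_mul (hp : p.Prime) (a : ℕ) : T p f (p * a) = T p f a := by
  unfold T
  have h1 : ∑ i ∈ range (f + 1), (p ^ i * a) % (p ^ f - 1)
      = ∑ i ∈ range f, (p ^ i * (p * a)) % (p ^ f - 1) + a % (p ^ f - 1) := by
    rw [sum_range_succ']
    simp only [pow_zero, one_mul]
    congr 1
    refine sum_congr rfl fun i _ => ?_
    rw [pow_succ, mul_assoc]
  have h2 : ∑ i ∈ range (f + 1), (p ^ i * a) % (p ^ f - 1)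
      = ∑ i ∈ range f, (p ^ i * a) % (p ^ f - 1) + a % (p ^ f - 1) := by
    rw [sum_range_succ]
    congr 1
    conv_lhs => rw [pow_eq hp (f := f)]
    rw [add_mul, one_mul]
    simp [Nat.add_mod]
  omega

lemma coprime_pow (hp : p.Prime) (hf : f ≠ 0) (i : ℕ) : Nat.Coprime (p ^ i) (p ^ f - 1) := by
  apply Nat.Coprime.pow_left
  rw [Nat.Prime.coprime_iff_not_dvd hp]
  intro h
  have h1 : p ∣ p ^ f := dvd_pow_self p hf
  rw [pow_eq hp] at h1
  have h2 : p ∣ 1 := (Nat.dvd_add_right h).1 h1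
  exact hp.one_lt.ne' (Nat.dvd_one.1 h2)

lemma T_compl (hp : p.Prime) (hf : f ≠ 0) {a : ℕ} (h0 : 0 < a) (ha : a < p ^ f - 1) :
    T p f a + T p f (p ^ f - 1 - a) = f * (p ^ f - 1) := by
  set N := p ^ f - 1 with hN
  unfold T
  rw [← hN, ← sum_add_distrib]
  have : ∀ i ∈ range f, (p ^ i * a) % N + (p ^ i * (N - a)) % N = N := by
    intro i _
    have hc := coprime_pow hp hf i
    rw [← hN] at hc
    have hnd : ¬ N ∣ p ^ i * a := by
      intro h
      exact absurd (Nat.le_of_dvd h0 (hc.symm.dvd_of_dvd_mul_left h)) (by omega)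
    have hnd' : 0 < (p ^ i * a) % N := Nat.pos_of_ne_zero fun h => hnd (Nat.dvd_of_mod_eq_zero h)
    have hlt : (p ^ i * a) % N < N := Nat.mod_lt _ (by omega)
    have hlt' : (p ^ i * (N - a)) % N < N := Nat.mod_lt _ (by omega)
    have hs : N ∣ (p ^ i * a) % N + (p ^ i * (N - a)) % N := by
      rw [← Nat.modEq_zero_iff_dvd]
      have h1 : (p ^ i * a) % N + (p ^ i * (N - a)) % N ≡ p ^ i * a + p ^ i * (N - a) [MOD N] :=
        Nat.ModEq.add (Nat.mod_modEq _ _) (Nat.mod_modEq _ _)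
      refine h1.trans ?_
      rw [← mul_add, Nat.add_sub_cancel' ha.le, Nat.modEq_zero_iff_dvd]
      exact dvd_mul_left _ _
    obtain ⟨k, hk⟩ := hs
    have hk1 : 0 < k := by
      rcases Nat.eq_zero_or_pos k with h | h
      · subst h; omega
      · exact h
    have hk2 : k < 2 := by
      by_contra hcon
      have : N * 2 ≤ N * k := Nat.mul_le_mul_left _ (by omega)
      omega
    have : k = 1 := by omega
    subst this
    omega
  rw [sum_congr rfl this, sum_const, card_range, smul_eq_mul]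

lemma pow_lt_of_lt (hp : p.Prime) (hN : 1 < p ^ f - 1) {i : ℕ} (hi : i < f) :
    p ^ i < p ^ f - 1 := by
  rcases Nat.eq_zero_or_pos i with h | h
  · subst h; simpa using hN
  have h1 : p ^ (i + 1) ≤ p ^ f := Nat.pow_le_pow_right hp.pos hi
  have h2 : 2 ≤ p ^ i := le_trans hp.two_le (Nat.le_self_pow h.ne' p)
  have h3 : p ^ (i + 1) = p ^ i * p := pow_succ p i
  have h4 : p ^ i * 2 ≤ p ^ i * p := Nat.mul_le_mul_left _ hp.two_le
  omega

lemma T_one (hp : p.Prime) (hN : 1 < p ^ f - 1) : (p - 1) * T p f 1 = p ^ f - 1 := by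
  have h : T p f 1 = ∑ i ∈ range f, p ^ i := by
    unfold T
    refine sum_congr rfl fun i hi => ?_
    rw [mul_one, Nat.mod_eq_of_lt (pow_lt_of_lt hp hN (mem_range.1 hi))]
  rw [h]
  have h2 : ∀ n : ℕ, (p - 1) * ∑ i ∈ range n, p ^ i = p ^ n - 1 := by
    intro n
    induction n with
    | zero => simp
    | succ n ih =>
      rw [sum_range_succ, mul_add, ih, pow_succ]
      have : 0 < p ^ n := pow_pos hp.pos n
      obtain ⟨r, rfl⟩ : ∃ r, p = r + 1 := ⟨p - 1, by have := hp.pos; omega⟩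
      simp only [Nat.add_sub_cancel]
      have e : (r + 1) ^ n * (r + 1) = r * (r + 1) ^ n + (r + 1) ^ n := by ring
      omega
  exact h2 f

/-- no carry -/
lemma T_succ (hp : p.Prime) (hN : 1 < p ^ f - 1) {a : ℕ} (ha : a + 1 < p ^ f - 1)
    (hpa : ¬ p ∣ a + 1) : T p f (a + 1) = T p f a + T p f 1 := by
  unfold T
  rw [← sum_add_distrib]
  refine sum_congr rfl fun i hi => ?_
  rw [mem_range] at hi
  set N := p ^ f - 1 with hNd
  have hPQ : p ^ i * p ^ (f - i) = N + 1 := by
    rw [← pow_add, Nat.add_sub_cancel' hi.le, hNd]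
    exact pow_eq hp
  set P := p ^ i with hP
  set Q := p ^ (f - i) with hQ
  have hPpos : 0 < P := pow_pos hp.pos _
  have hQpos : 0 < Q := pow_pos hp.pos _
  have hpQ : p ∣ Q := dvd_pow_self p (by omega)
  set u := a / Q with hu
  set v := a % Q with hv
  have ha' : a = Q * u + v := (Nat.div_add_mod a Q).symm
  have hvQ : v < Q := Nat.mod_lt _ hQpos
  have huP : u < P := by
    rw [hu, Nat.div_lt_iff_lt_mul hQpos, hPQ]
    omega
  have hv2 : v + 2 ≤ Q := by
    by_contra hcon
    have hv1 : v + 1 = Q := by omega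
    apply hpa
    have : a + 1 = Q * u + Q := by omega
    rw [this]
    exact dvd_add (dvd_mul_of_dvd_left hpQ _) hpQ
  have hlt : u + P * v + P < N := by
    -- u ≤ P - 1, v ≤ Q - 2
    obtain ⟨w, hw⟩ : ∃ w, Q = v + 2 + w := ⟨Q - (v + 2), by omega⟩
    obtain ⟨z, hz⟩ : ∃ z, P = u + 1 + z := ⟨P - (u + 1), by omega⟩
    have e1 : P * Q = P * v + 2 * P + P * w := by rw [hw]; ring
    have e2 : P * w ≥ 0 := Nat.zero_le _
    by_contra hcon
    have h5 : P * w + z = 0 := by omega
    have h6 : z = 0 := by omega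
    have h7 : P * w = 0 := by omega
    have h8 : w = 0 := by
      rcases Nat.mul_eq_zero.1 h7 with h | h
      · omega
      · exact h
    subst h6; subst h8
    -- a + 1 = Q*u + v + 1 = N
    have h9 : a + 1 + 1 = Q * u + Q := by omega
    have h10 : Q * u + Q = P * Q := by rw [hz]; ring
    omega
  have e1 : P * a = u * N + (u + P * v) := by
    have : P * a = P * Q * u + P * v := by rw [ha']; ring
    rw [this, hPQ]; ring
  have e2 : P * (a + 1) = u * N + (u + P * v + P) := by rw [mul_add, e1]; ring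
  have hm1 : (P * a) % N = u + P * v := by
    rw [e1, Nat.mul_add_mod', Nat.mod_eq_of_lt (by omega)]
  have hm2 : (P * (a + 1)) % N = u + P * v + P := by
    rw [e2, Nat.mul_add_mod', Nat.mod_eq_of_lt hlt]
  have hm3 : (P * 1) % N = P := by rw [mul_one, Nat.mod_eq_of_lt (by omega)]
  rw [hm1, hm2, hm3]

/-- the recursion determining the norms of Gauss sums -/
theorem recursion (hp : p.Prime) (hf : f ≠ 0) (hN : 1 < p ^ f - 1) (G : ℕ → ℝ) {R : ℝ}
    (hG0 : G 0 = 1) (hpos : ∀ a, 0 < G a)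
    (hmul : ∀ a b, 0 < a + b → a + b < p ^ f - 1 → G a * G b ≤ G (a + b))
    (hrefl : ∀ a, 0 < a → a < p ^ f - 1 → G a * G (p ^ f - 1 - a) = R ^ f)
    (hfrob : ∀ a, G (p * a) = G a) (h1 : G 1 ^ (p - 1) = R) {a : ℕ} (ha : a < p ^ f - 1) :
    G a ^ (p ^ f - 1) = R ^ T p f a := by
  have hR : 0 < R := by rw [← h1]; exact pow_pos (hpos 1) _
  set N := p ^ f - 1 with hNd
  have h1N : G 1 ^ N = R ^ T p f 1 := by
    rw [← h1, ← pow_mul, T_one hp hN]
  have lower : ∀ n, n < N → R ^ T p f n ≤ G n ^ N := by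
    intro n
    induction n using Nat.strong_induction_on with
    | _ n ih =>
      intro hn
      rcases Nat.eq_zero_or_pos n with h0 | h0
      · subst h0; rw [T_zero, hG0]; simp
      by_cases hd : p ∣ n
      · obtain ⟨k, rfl⟩ := hd
        have hk0 : 0 < k := Nat.pos_of_ne_zero fun h => by subst h; simp at h0
        have hk : k < p * k := by
          have := Nat.mul_lt_mul_of_pos_right hp.one_lt hk0
          omega
        rw [T_mul hp, hfrob]
        exact ih k hk (by omega)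
      · obtain ⟨m, rfl⟩ : ∃ m, n = m + 1 := ⟨n - 1, by omega⟩
        rw [T_succ hp hN hn hd, pow_add]
        have h2 := ih m (by omega) (by omega)
        have h3 := hmul m 1 (by omega) hn
        calc R ^ T p f m * R ^ T p f 1 ≤ G m ^ N * G 1 ^ N := by
              rw [h1N]
              exact mul_le_mul_of_nonneg_right h2 (pow_nonneg hR.le _)
          _ = (G m * G 1) ^ N := (mul_pow _ _ _).symm
          _ ≤ G (m + 1) ^ N := pow_le_pow_left₀ (mul_nonneg (hpos _).le (hpos _).le) h3 _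
  rcases Nat.eq_zero_or_pos a with h0 | h0
  · subst h0; rw [T_zero, hG0]; simp
  refine le_antisymm ?_ (lower a ha)
  have h4 := lower (N - a) (by omega)
  have h5 : G a ^ N * G (N - a) ^ N = R ^ T p f a * R ^ T p f (N - a) := by
    rw [← mul_pow, hrefl a h0 ha, ← pow_mul, ← pow_add, T_compl hp hf h0 ha]
  have h6 : 0 < R ^ T p f (N - a) := pow_pos hR _
  have h7 : G a ^ N * R ^ T p f (N - a) ≤ R ^ T p f a * R ^ T p f (N - a) := by
    rw [← h5]
    exact mul_le_mul_of_nonneg_left h4 (pow_nonneg (hpos a).le _)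
  exact le_of_mul_le_mul_right h7 h6

end Pool.Stick
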