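import Mathlib

/-!
Gauss sums over finite fields with values in an ultrametric field: basic norm estimates.
-/

namespace Pool.Stick

open Finset

section field

variable {K : Type*} [NormedField K]

lemma norm_eq_one_of_pow {x : K} {n : ℕ} (hn : n ≠ 0) (hx : x ^ n = 1) : ‖x‖ = 1 := by
  have h := congrArg norm hx
  rw [norm_pow, norm_one] at h
  exact (pow_eq_one_iff_of_nonneg (norm_nonneg _) hn).1 h

variable {F : Type*} [Field F] [Fintype F]

lemma norm_mulChar {χ : MulChar F K} {x : F} (hx : x ≠ 0) : ‖χ x‖ = 1 := by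
  classical
  have h := MulChar.apply_mem_rootsOfUnity_orderOf χ hx
  obtain ⟨u, hu, hu'⟩ := h
  rw [mem_rootsOfUnity] at hu
  rw [← hu']
  refine norm_eq_one_of_pow (n := orderOf χ) χ.orderOf_pos.ne' ?_
  rw [← Units.val_pow_eq_pow_val, hu, Units.val_one]

lemma norm_mulChar_le (χ : MulChar F K) (x : F) : ‖χ x‖ ≤ 1 := by
  by_cases hx : x = 0
  · subst hx
    rw [MulChar.map_zero, norm_zero]
    exact zero_le_one
  · exact (norm_mulChar hx).le

lemma norm_addChar (ψ : AddChar F K) (x : F) : ‖ψ x‖ = 1 := by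
  have hpos : Fintype.card F ≠ 0 := Fintype.card_ne_zero
  refine norm_eq_one_of_pow (n := Fintype.card F) hpos ?_
  rw [← AddChar.map_nsmul_eq_pow, card_nsmul_eq_zero, AddChar.map_zero_eq_one]

variable [IsUltrametricDist K]

lemma norm_gaussSum_le (χ : MulChar F K) (ψ : AddChar F K) : ‖gaussSum χ ψ‖ ≤ 1 := by
  refine IsUltrametricDist.norm_sum_le_of_forall_le_of_nonneg zero_le_one fun x _ => ?_
  rw [norm_mul, norm_addChar, mul_one]
  exact norm_mulChar_le χ x

lemma norm_jacobiSum_le (χ φ : MulChar F K) : ‖jacobiSum χ φ‖ ≤ 1 := by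
  refine IsUltrametricDist.norm_sum_le_of_forall_le_of_nonneg zero_le_one fun x _ => ?_
  rw [norm_mul]
  exact mul_le_one₀ (norm_mulChar_le χ x) (norm_nonneg _) (norm_mulChar_le φ _)

/-- subadditivity of the valuations of Gauss sums -/
lemma norm_gaussSum_mul_le {χ φ : MulChar F K} (h : χ * φ ≠ 1) (ψ : AddChar F K) :
    ‖gaussSum χ ψ‖ * ‖gaussSum φ ψ‖ ≤ ‖gaussSum (χ * φ) ψ‖ := by
  rw [← norm_mul, ← jacobiSum_mul_nontrivial h ψ, norm_mul]
  exact mul_le_of_le_one_right (norm_nonneg _) (norm_jacobiSum_le χ φ)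

omit [IsUltrametricDist K] in
/-- the norm of a Gauss sum does not depend on the twist of the additive character -/
lemma norm_gaussSum_mulShift (χ : MulChar F K) (ψ : AddChar F K) (a : Fˣ) :
    ‖gaussSum χ (ψ.mulShift a)‖ = ‖gaussSum χ ψ‖ := by
  rw [gaussSum_mulShift_eq, norm_mul, norm_mulChar a.ne_zero, one_mul]

omit [IsUltrametricDist K] in
lemma norm_gaussSum_inv (χ : MulChar F K) (ψ : AddChar F K) :
    ‖gaussSum χ ψ⁻¹‖ = ‖gaussSum χ ψ‖ := by
  have h := mul_gaussSum_inv_eq_gaussSum χ ψ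
  rw [← h, norm_mul, norm_mulChar (neg_ne_zero.2 one_ne_zero), one_mul]

omit [IsUltrametricDist K] in
/-- reflection -/
lemma norm_gaussSum_mul_inv {χ : MulChar F K} (hχ : χ ≠ 1) {ψ : AddChar F K}
    (hψ : ψ.IsPrimitive) :
    ‖gaussSum χ ψ‖ * ‖gaussSum χ⁻¹ ψ‖ = ‖(Fintype.card F : K)‖ := by
  rw [← gaussSum_mul_gaussSum_eq_card hχ hψ, norm_mul, norm_gaussSum_inv]

end field

end Pool.Stick
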