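import Pool.Agent.StarkRQ.AnHurwitz

/-!
Non-vanishing of `∑ χ(a) (1/2 - a/m)` for odd Dirichlet characters of prime power modulus, and the
kernel of the corresponding convolution operator.
-/

open Complex DirichletCharacter

namespace Pool.Stick

open Pool.Agent.StarkRQ

/-- `L(χ, 0) ≠ 0` for odd primitive characters -/
theorem LFunction_zero_ne_zero_of_primitive {N : ℕ} [NeZero N] {χ : DirichletCharacter ℂ N}
    (hχ : χ.IsPrimitive) (hodd : χ.Odd) : LFunction χ 0 ≠ 0 := by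
  have h1 : χ ≠ 1 := by
    rintro rfl
    have h := hodd
    rw [DirichletCharacter.Odd, MulChar.one_apply (isUnit_one.neg)] at h
    norm_num at h
  have hN : N ≠ 1 := fun h => h1 (level_one' χ h)
  have hodd' : (χ⁻¹).Odd := by
    have h := hodd
    unfold DirichletCharacter.Odd at h ⊢
    rw [MulChar.inv_apply_eq_inv', h]
    norm_num
  have h1' : χ⁻¹ ≠ 1 := inv_ne_one.2 h1
  have hG1 : Gammaℝ (1 : ℂ) ≠ 0 := Gammaℝ_ne_zero_of_re_pos (by simp)
  have hG2 : Gammaℝ ((1 : ℂ) + 1) ≠ 0 := Gammaℝ_ne_zero_of_re_pos (by simp)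
  have hN0 : (N : ℂ) ≠ 0 := by exact_mod_cast NeZero.ne N
  -- the completed L-function at 1
  have hc1 : completedLFunction χ 1 ≠ 0 := by
    intro h
    have := LFunction_eq_completed_div_gammaFactor χ 1 (Or.inl one_ne_zero)
    rw [h, zero_div] at this
    exact LFunction_apply_one_ne_zero h1 this
  have hc1' : completedLFunction χ⁻¹ 1 ≠ 0 := by
    intro h
    have := LFunction_eq_completed_div_gammaFactor χ⁻¹ 1 (Or.inl one_ne_zero)
    rw [h, zero_div] at this
    exact LFunction_apply_one_ne_zero h1' this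
  have hroot : rootNumber χ ≠ 0 := by
    intro h
    have := hχ.completedLFunction_one_sub 0
    rw [h, mul_zero, zero_mul, sub_zero] at this
    exact hc1 this
  have hfe := hχ.completedLFunction_one_sub 1
  rw [sub_self] at hfe
  have hc0 : completedLFunction χ 0 ≠ 0 := by
    rw [hfe]
    refine mul_ne_zero (mul_ne_zero ?_ hroot) hc1'
    exact (cpow_ne_zero_iff_of_exponent_ne_zero (by norm_num)).2 hN0
  rw [LFunction_eq_completed_div_gammaFactor χ 0 (Or.inr hN), hodd.gammaFactor_def, zero_add]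
  exact div_ne_zero hc0 hG1

/-- `L(χ, 0) ≠ 0` for odd characters of prime power level -/
theorem LFunction_zero_ne_zero {l k : ℕ} (hl : l.Prime) [NeZero (l ^ k)]
    {χ : DirichletCharacter ℂ (l ^ k)} (hodd : χ.Odd) : LFunction χ 0 ≠ 0 := by
  have h1 : χ ≠ 1 := by
    rintro rfl
    have h := hodd
    rw [DirichletCharacter.Odd, MulChar.one_apply (isUnit_one.neg)] at h
    norm_num at h
  have hc1 : χ.conductor ≠ 1 := fun h => h1 (eq_one_iff_conductor_eq_one.2 h)
  have hc0 : χ.conductor ≠ 0 := conductor_ne_zero χ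
  have : NeZero χ.conductor := ⟨hc0⟩
  have hdvd : χ.conductor ∣ l ^ k := conductor_dvd_level χ
  have hlc : l ∣ χ.conductor := by
    obtain ⟨j, _, hj⟩ := (Nat.dvd_prime_pow hl).1 hdvd
    rw [hj]
    refine dvd_pow_self l ?_
    rintro rfl
    rw [pow_zero] at hj
    exact hc1 hj
  have hch : χ = changeLevel hdvd χ.primitiveCharacter := (changeLevel_primitiveCharacter χ).symm
  have hodd' : χ.primitiveCharacter.Odd := by
    have h := hodd
    unfold DirichletCharacter.Odd at h ⊢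
    have h2 := changeLevel_eq_cast_of_dvd' χ.primitiveCharacter hdvd (a := -1)
      (IsCoprime.neg_left isCoprime_one_left)
    rw [← hch] at h2
    push_cast at h2
    rw [← h2, h]
  have hne := LFunction_zero_ne_zero_of_primitive (primitiveCharacter_isPrimitive χ) hodd'
  rw [hch, LFunction_changeLevel hdvd χ.primitiveCharacter (Or.inr zero_ne_one)]
  refine mul_ne_zero hne (Finset.prod_ne_zero_iff.2 fun p hp => ?_)
  have hp' : p = l := by
    have h2 := Nat.prime_of_mem_primeFactors hp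
    have h3 := Nat.dvd_of_mem_primeFactors hp
    exact (Nat.prime_dvd_prime_iff_eq h2 hl).1 (h2.dvd_of_dvd_pow h3)
  subst hp'
  have h4 : χ.primitiveCharacter (p : ZMod χ.conductor) = 0 := by
    rw [MulChar.map_nonunit]
    rw [ZMod.isUnit_iff_coprime]
    intro h5
    exact hl.one_lt.ne' (Nat.dvd_one.1 (h5 ▸ Nat.dvd_gcd dvd_rfl hlc))
  rw [h4, zero_mul, sub_zero]
  exact one_ne_zero

theorem LFunction_zero_eq {N : ℕ} [NeZero N] (χ : DirichletCharacter ℂ N) (h0 : χ 0 = 0) :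
    LFunction χ 0 = ∑ a : ZMod N, χ a * (hh N a : ℂ) := by
  have h1 : LFunction χ 0 = ∑ a : ZMod N, χ a * ZMod.LFunction (Pi.single a 1 : ZMod N → ℂ) 0 := by
    rw [DirichletCharacter.LFunction, ZMod.LFunction, Finset.mul_sum]
    refine Finset.sum_congr rfl fun a _ => ?_
    rw [ZMod.LFunction, Finset.sum_eq_single a]
    · simp only [Pi.single_eq_same, one_mul]
      ring
    · intro b _ hb
      rw [Pi.single_eq_of_ne hb, zero_mul]
    · intro h
      exact absurd (Finset.mem_univ a) h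
  rw [h1]
  refine Finset.sum_congr rfl fun a _ => ?_
  by_cases ha : a = 0
  · subst ha
    rw [h0, zero_mul, zero_mul]
  · rw [LFunction_single_zero ha]

theorem sum_units {m : ℕ} [NeZero m] (χ : DirichletCharacter ℂ m) (g : ZMod m → ℂ) :
    ∑ y : (ZMod m)ˣ, χ y * g y = ∑ a : ZMod m, χ a * g a := by
  classical
  have h1 : ∑ y : (ZMod m)ˣ, χ y * g y
      = ∑ a ∈ Finset.univ.map ⟨fun y : (ZMod m)ˣ => (y : ZMod m), Units.val_injective⟩,
        χ a * g a := by
    rw [Finset.sum_map]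
    rfl
  rw [h1]
  refine Finset.sum_subset (Finset.subset_univ _) fun a _ ha => ?_
  rw [MulChar.map_nonunit, zero_mul]
  rintro ⟨y, hy⟩
  exact ha (Finset.mem_map.2 ⟨y, Finset.mem_univ _, hy⟩)

/-- The kernel of the convolution with `1/2 - a/m` on the units consists of the even functions, if
`L(χ, 0) ≠ 0` for all odd `χ`. -/
theorem even_of_sum_eq_zero' {m : ℕ} [NeZero m] (hm1 : m ≠ 1)
    (hL : ∀ χ : DirichletCharacter ℂ m, χ.Odd → LFunction χ 0 ≠ 0) (W : (ZMod m)ˣ → ℤ)
    (hW : ∀ t : (ZMod m)ˣ, ∑ u, (W u : ℝ) * hh m (t * u : (ZMod m)ˣ) = 0)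
    (u : (ZMod m)ˣ) : W (-u) = W u := by
  classical
  -- character sums of `W`
  have hodd : ∀ χ : DirichletCharacter ℂ m, χ.Odd → ∑ u, (W u : ℂ) * χ (u⁻¹ : (ZMod m)ˣ) = 0 := by
    intro χ hχ
    have h1 : ∑ t : (ZMod m)ˣ, χ t * ((∑ u, (W u : ℝ) * hh m (t * u : (ZMod m)ˣ) : ℝ) : ℂ) = 0 := by
      refine Finset.sum_eq_zero fun t _ => ?_
      rw [hW t]
      simp
    have h2 : ∑ t : (ZMod m)ˣ, χ t * ((∑ u, (W u : ℝ) * hh m (t * u : (ZMod m)ˣ) : ℝ) : ℂ)
        = (∑ u, (W u : ℂ) * χ (u⁻¹ : (ZMod m)ˣ)) * ∑ y : (ZMod m)ˣ, χ y * (hh m y : ℂ) := by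
      push_cast
      rw [Finset.sum_mul, Finset.sum_congr rfl fun t _ => Finset.mul_sum _ _ _, Finset.sum_comm]
      refine Finset.sum_congr rfl fun u _ => ?_
      rw [Finset.mul_sum]
      refine Fintype.sum_equiv (Equiv.mulRight u) _ _ fun t => ?_
      rw [Equiv.coe_mulRight, Units.val_mul, map_mul]
      have h3 : χ (u⁻¹ : (ZMod m)ˣ) * χ (u : ZMod m) = 1 := by
        rw [← map_mul, ← Units.val_mul, inv_mul_cancel, Units.val_one, map_one]
      linear_combination (-(χ t * (W u : ℂ) * (hh m ((t : ZMod m) * u) : ℂ))) * h3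
    rw [h2, sum_units χ (fun a => (hh m a : ℂ)), ← LFunction_zero_eq χ (χ.map_zero' hm1)] at h1
    exact (mul_eq_zero.1 h1).resolve_right (hL χ hχ)
  -- the odd part of `W`
  have hall : ∀ χ : DirichletCharacter ℂ m,
      ∑ u, ((W u - W (-u) : ℤ) : ℂ) * χ (u : ZMod m) = 0 := by
    intro χ
    have h1 : ∑ u : (ZMod m)ˣ, (W (-u) : ℂ) * χ (u : ZMod m)
        = χ (-1) * ∑ u : (ZMod m)ˣ, (W u : ℂ) * χ (u : ZMod m) := by
      rw [Finset.mul_sum]
      refine Fintype.sum_equiv (Equiv.neg _) _ _ fun u => ?_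
      rw [Equiv.neg_apply, Units.val_neg, ← neg_one_mul (u : ZMod m), map_mul]
      have h2 : χ (-1) * χ (-1) = 1 := by rw [← map_mul, neg_one_mul, neg_neg, map_one]
      linear_combination (-((W (-u) : ℂ) * χ (u : ZMod m))) * h2
    push_cast
    simp_rw [sub_mul]
    rw [Finset.sum_sub_distrib, h1]
    rcases χ.even_or_odd with h | h
    · rw [h, one_mul, sub_self]
    · have h3 : (χ⁻¹).Odd := by
        have h4 := h
        unfold DirichletCharacter.Odd at h4 ⊢
        rw [MulChar.inv_apply_eq_inv', h4]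
        norm_num
      have h5 := hodd χ⁻¹ h3
      have h6 : ∑ u : (ZMod m)ˣ, (W u : ℂ) * χ (u : ZMod m) = 0 := by
        rw [← h5]
        refine Finset.sum_congr rfl fun u _ => ?_
        congr 1
        have h7 : χ (u⁻¹ : (ZMod m)ˣ) * χ (u : ZMod m) = 1 := by
          rw [← map_mul, ← Units.val_mul, inv_mul_cancel, Units.val_one, map_one]
        rw [MulChar.inv_apply_eq_inv']
        exact (eq_inv_of_mul_eq_one_right h7)
      rw [h6, mul_zero, sub_zero]
  -- orthogonality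
  have h8 : ∑ χ : DirichletCharacter ℂ m, χ ((u⁻¹ : (ZMod m)ˣ) : ZMod m) *
      ∑ v, ((W v - W (-v) : ℤ) : ℂ) * χ (v : ZMod m) = 0 :=
    Finset.sum_eq_zero fun χ _ => by rw [hall χ, mul_zero]
  simp_rw [Finset.mul_sum] at h8
  rw [Finset.sum_comm] at h8
  have h9 : ∀ v : (ZMod m)ˣ, ∑ χ : DirichletCharacter ℂ m, χ ((u⁻¹ : (ZMod m)ˣ) : ZMod m) *
      (((W v - W (-v) : ℤ) : ℂ) * χ (v : ZMod m))
      = ((W v - W (-v) : ℤ) : ℂ) * if u = v then (m.totient : ℂ) else 0 := by
    intro v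
    have h10 := sum_char_inv_mul_char_eq ℂ (n := m) u.isUnit (v : ZMod m)
    have h11 : ((u : ZMod m) = v) ↔ u = v := ⟨fun h => Units.ext h, fun h => by rw [h]⟩
    simp only [h11] at h10
    rw [← h10, Finset.mul_sum]
    refine Finset.sum_congr rfl fun χ _ => ?_
    rw [ZMod.inv_coe_unit]
    ring
  rw [Finset.sum_congr rfl fun v _ => h9 v] at h8
  simp only [mul_ite, mul_zero, Finset.sum_ite_eq, Finset.mem_univ, if_true] at h8
  have h12 : (m.totient : ℂ) ≠ 0 := by
    exact_mod_cast (Nat.totient_pos.2 (NeZero.pos m)).ne'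
  have h13 : ((W u - W (-u) : ℤ) : ℂ) = 0 := (mul_eq_zero.1 h8).resolve_right h12
  have h14 : W u - W (-u) = 0 := by exact_mod_cast h13
  omega

/-- The kernel of the convolution with `1/2 - a/m` on the units modulo a prime power consists of
the even functions. -/
theorem even_of_sum_eq_zero {l k : ℕ} (hl : l.Prime) [NeZero (l ^ k)] (hk : k ≠ 0)
    (W : (ZMod (l ^ k))ˣ → ℤ)
    (hW : ∀ t : (ZMod (l ^ k))ˣ, ∑ u, (W u : ℝ) * hh (l ^ k) (t * u : (ZMod (l ^ k))ˣ) = 0)
    (u : (ZMod (l ^ k))ˣ) : W (-u) = W u :=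
  even_of_sum_eq_zero' (Nat.one_lt_pow hk hl.one_lt).ne'
    (fun _ hχ => LFunction_zero_ne_zero hl hχ) W hW u

end Pool.Stick
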