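import Pool.Agent.Stick.Teich
import Mathlib

/-!
An algebraic number all of whose absolute values are one is a root of unity.
-/

open Finset Polynomial

namespace Pool.Stick

theorem exists_hom {K : Type*} [Field K] [CharZero K] [Algebra.IsAlgebraic ℚ K] {L : Type*}
    [Field L] [CharZero L] [IsAlgClosed L] {x : K} {y : L} (h : aeval y (minpoly ℚ x) = 0) :
    ∃ φ : K →+* L, φ x = y := by
  obtain ⟨φ, hφ⟩ := IntermediateField.exists_algHom_of_splits_of_aeval (F := ℚ) (E := K) (K := L)
    (fun x => ⟨Algebra.IsIntegral.isIntegral x, IsAlgClosed.splits _⟩) h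
  exact ⟨φ, hφ⟩

theorem isIntegral_of_norm_le {K : Type*} [Field K] [CharZero K] [Algebra.IsAlgebraic ℚ K] {x : K}
    (h : ∀ (q : ℕ) [Fact q.Prime] (φ : K →+* PadicAlgCl q), ‖φ x‖ ≤ 1) : IsIntegral ℤ x := by
  have hx : IsIntegral ℚ x := Algebra.IsIntegral.isIntegral x
  have hmon := minpoly.monic hx
  have hco : ∀ i, (minpoly ℚ x).coeff i ∈ Set.range (Int.castRingHom ℚ) := by
    intro i
    set a := (minpoly ℚ x).coeff i with ha
    have hden : a.den = 1 := by
      by_contra hne
      obtain ⟨q, hq, hdvd⟩ := Nat.exists_prime_and_dvd hne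
      have : Fact q.Prime := ⟨hq⟩
      have h1 : ‖(a : ℚ_[q])‖ ≤ 1 := by
        set Q := (minpoly ℚ x).map (algebraMap ℚ (PadicAlgCl q)) with hQ
        have hsp : Q.Splits := IsAlgClosed.splits Q
        have hQm : Q.Monic := hmon.map _
        have h2 : Q ∈ lifts (O (PadicAlgCl q)).subtype := by
          rw [hsp.eq_prod_roots_of_monic hQm]
          refine Subsemiring.multiset_prod_mem _ _ fun R hR => ?_
          obtain ⟨r, hr, rfl⟩ := Multiset.mem_map.1 hR
          have h3 : aeval r (minpoly ℚ x) = 0 := by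
            have := (mem_roots'.1 hr).2
            rw [IsRoot.def, hQ, eval_map_algebraMap] at this
            exact this
          obtain ⟨φ, hφ⟩ := exists_hom h3
          have h4 : ‖r‖ ≤ 1 := hφ ▸ h q φ
          rw [lifts_iff_set_range]
          exact ⟨X - C ⟨r, h4⟩, by simp⟩
        obtain ⟨b, hb⟩ := (lifts_iff_coeff_lifts _).1 h2 i
        have h5 : ‖Q.coeff i‖ ≤ 1 := by
          rw [← hb]; exact b.2
        rw [hQ, coeff_map, ← ha] at h5
        rw [← PadicAlgCl.norm_extends q (a : ℚ_[q])]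
        have h6 : algebraMap ℚ (PadicAlgCl q) a = algebraMap ℚ_[q] (PadicAlgCl q) (a : ℚ_[q]) := by
          rw [map_ratCast]; simp
        rwa [h6] at h5
      have h7 := (Padic.norm_rat_le_one_iff_padicValuation_le_one q).1 h1
      rw [Rat.padicValuation_le_one_iff] at h7
      exact h7 hdvd
    exact ⟨a.num, by rw [eq_intCast]; exact (Rat.den_eq_one_iff a).1 hden⟩
  obtain ⟨Q, hQ, -, hQm⟩ := lifts_and_natDegree_eq_and_monic ((lifts_iff_coeff_lifts _).2 hco) hmon
  refine ⟨Q, hQm, ?_⟩
  have h8 := minpoly.aeval ℚ x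
  rw [← hQ, aeval_def, eval₂_map] at h8
  have h9 : (algebraMap ℤ K) = (algebraMap ℚ K).comp (Int.castRingHom ℚ) := RingHom.ext_int _ _
  rw [h9]
  exact h8

theorem exists_pow_eq_one {K : Type*} [Field K] [CharZero K] [Algebra.IsAlgebraic ℚ K] {x : K}
    (h1 : ∀ (q : ℕ) [Fact q.Prime] (φ : K →+* PadicAlgCl q), ‖φ x‖ ≤ 1)
    (h2 : ∀ φ : K →+* ℂ, ‖φ x‖ = 1) : ∃ N : ℕ, 0 < N ∧ x ^ N = 1 := by
  have hi := isIntegral_of_norm_le h1
  have hx : IsIntegral ℚ x := Algebra.IsIntegral.isIntegral x
  have : FiniteDimensional ℚ (IntermediateField.adjoin ℚ {x}) :=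
    IntermediateField.adjoin.finiteDimensional hx
  have : NumberField (IntermediateField.adjoin ℚ {x}) := { }
  set y : IntermediateField.adjoin ℚ {x} := IntermediateField.AdjoinSimple.gen ℚ x with hy
  have hyx : (algebraMap (IntermediateField.adjoin ℚ {x}) K) y = x :=
    IntermediateField.AdjoinSimple.algebraMap_gen ℚ x
  have hi' : IsIntegral ℤ y := by
    have h4 : IsIntegral ℤ ((algebraMap (IntermediateField.adjoin ℚ {x}) K).toIntAlgHom y) := by
      rw [RingHom.toIntAlgHom_apply, hyx]; exact hi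
    exact (isIntegral_algHom_iff _ (algebraMap (IntermediateField.adjoin ℚ {x}) K).injective).1 h4
  obtain ⟨N, hN, h⟩ := NumberField.Embeddings.pow_eq_one_of_norm_eq_one
    (IntermediateField.adjoin ℚ {x}) ℂ hi' (fun φ => by
      have h3 : aeval (φ y) (minpoly ℚ x) = 0 := by
        have h5 : aeval y (minpoly ℚ x) = 0 := by
          apply (algebraMap (IntermediateField.adjoin ℚ {x}) K).injective
          rw [map_zero, ← aeval_algebraMap_apply, hyx, minpoly.aeval]
        have h6 := aeval_algHom_apply φ.toRatAlgHom y (minpoly ℚ x)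
        rw [h5, map_zero] at h6
        exact h6
      obtain ⟨φ', hφ'⟩ := exists_hom h3
      rw [← hφ']
      exact h2 φ')
  refine ⟨N, hN, ?_⟩
  rw [← hyx, ← map_pow, h, map_one]

end Pool.Stick
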