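import Pool.Agent.Stick.Final
import Pool.Agent.Stick.Kron

/-!
The converse: the members of `Alg p` are balanced, and balanced multisets give relations between
Gauss sums.
-/

open Finset

namespace Pool.Stick

open Pool.Agent.StarkRQ

section inv

variable {m : ℕ} [NeZero m] {p : ℕ}

theorem toA_distSet (l : ℕ) (x : ZMod m) (hx : (l : ZMod m) * x ≠ 0) :
    toA (distSet m l x) ∈ relD m l := by
  refine ⟨x, hx, ?_⟩
  unfold distSet
  rw [toA_add, toA_add, toA_singleton]
  congr 1
  split_ifs
  · rw [toA_singleton]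
  · rw [toA_zero]

theorem sg_toA (s : Multiset (ZMod m)) : sg (toA s) = s.sum := by
  rw [toA, map_multiset_sum, Multiset.map_map]
  simp only [Function.comp_def, sg_e, Multiset.map_id']

theorem cnt_toA (s : Multiset (ZMod m)) : cnt (toA s) = s.card := by
  rw [toA, map_multiset_sum, Multiset.map_map]
  simp [cnt_e]

theorem alg_sum {s : Multiset (ZMod m)} (hs : Alg p s) : s.sum = 0 := by
  induction hs with
  | zero => rfl
  | add _ _ h1 h2 => rw [Multiset.sum_add, h1, h2, add_zero]
  | cancel c hc _ h =>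
    rw [Multiset.sum_add] at h
    simpa using h
  | pair c hc => simp
  | dist l x hl hlm hx => rw [← sg_toA]; exact sg_relD hl hlm (toA_distSet l x hx)
  | frob x y z hx hy hz hs =>
    simp only [Multiset.insert_eq_cons, Multiset.sum_cons, Multiset.sum_singleton]
    linear_combination (1 - (p : ZMod m)) * hs
  | super x y z x' y' z' j hj hx hy hz hx' hy' hz' hs hs' =>
    simp only [Multiset.insert_eq_cons, Multiset.sum_cons, Multiset.sum_singleton]
    linear_combination hs + hs'

theorem alg_even {s : Multiset (ZMod m)} (hs : Alg p s) : Even s.card := by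
  induction hs with
  | zero => simp
  | add _ _ h1 h2 => rw [Multiset.card_add]; exact h1.add h2
  | cancel c hc _ h =>
    rw [Multiset.card_add] at h
    have h2 : Multiset.card ({c, -c} : Multiset (ZMod m)) = 2 := rfl
    rw [h2] at h
    exact (Nat.even_add.1 h).2 (by decide)
  | pair c hc => exact ⟨1, rfl⟩
  | dist l x hl hlm hx =>
    obtain ⟨M, hM⟩ := hlm
    have h1 := even_cnt (p := p) hM hl
      (AddSubgroup.subset_closure (Or.inl (Or.inr (toA_distSet l x hx))))
    rw [cnt_toA] at h1
    exact_mod_cast h1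
  | frob x y z hx hy hz hs => exact ⟨3, rfl⟩
  | super x y z x' y' z' j hj hx hy hz hx' hy' hz' hs hs' => exact ⟨3, rfl⟩

variable {P : (ZMod m)ˣ} {f : ℕ}

theorem beta_e_mul (hp : (p : ZMod m) = P) (hf : P ^ f = 1) (t : (ZMod m)ˣ) {x : ZMod m}
    (hx : x ≠ 0) : beta P f t (e ((p : ZMod m) * x)) = beta P f t (e x) := by
  have := beta_relF hp hf t (v := e x - e ((p : ZMod m) * x)) ⟨x, hx, rfl⟩
  rw [map_sub] at this
  linarith

theorem beta_e_neg (t : (ZMod m)ˣ) {x : ZMod m} (hx : x ≠ 0) :
    beta P f t (e (-x)) = - beta P f t (e x) := by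
  have := beta_relP (P := P) (f := f) t (v := e x + e (-x)) ⟨x, hx, rfl⟩
  rw [map_add] at this
  linarith

theorem beta_e_pow (hp : (p : ZMod m) = P) (hf : P ^ f = 1) (t : (ZMod m)ˣ) {x : ZMod m}
    (hx : x ≠ 0) (j : ℕ) : beta P f t (e ((p : ZMod m) ^ j * x)) = beta P f t (e x) := by
  induction j with
  | zero => rw [pow_zero, one_mul]
  | succ j ih =>
    rw [pow_succ', mul_assoc, beta_e_mul hp hf t, ih]
    rw [hp, ← Units.val_pow_eq_pow_val]
    exact unit_mul_ne_zero _ hx

theorem beta_e_super (hp : (p : ZMod m) = P) (hf : P ^ f = 1) (t : (ZMod m)ˣ) {x : ZMod m}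
    (hx : x ≠ 0) {j : ℕ} (hj : (p : ZMod m) ^ j = -1) : beta P f t (e x) = 0 := by
  have h1 := beta_e_pow hp hf t hx j
  rw [hj, neg_one_mul, beta_e_neg t hx] at h1
  linarith

theorem alg_balanced (hp : (p : ZMod m) = P) (hf : P ^ f = 1) (t : (ZMod m)ˣ)
    {s : Multiset (ZMod m)} (hs : Alg p s) : beta P f t (toA s) = 0 := by
  induction hs with
  | zero => rw [toA_zero, map_zero]
  | add _ _ h1 h2 => rw [toA_add, map_add, h1, h2, add_zero]
  | cancel c hc _ h =>
    rw [toA_add, map_add, Multiset.insert_eq_cons, toA_cons, toA_singleton, map_add,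
      beta_e_neg t hc] at h
    linarith
  | pair c hc =>
    rw [Multiset.insert_eq_cons, toA_cons, toA_singleton, map_add, beta_e_neg t hc]
    ring
  | dist l x hl hlm hx =>
    have h2 : l = 2 → 2 ∣ m := by rintro rfl; exact hlm
    obtain ⟨M, hM⟩ := hlm
    exact beta_relD hM hl.pos h2 t (toA_distSet l x hx)
  | frob x y z hx hy hz hs =>
    have hpx : ∀ {x : ZMod m}, x ≠ 0 → (p : ZMod m) * x ≠ 0 := by
      intro x hx
      rw [hp]
      exact unit_mul_ne_zero _ hx
    simp only [Multiset.insert_eq_cons, toA_cons, toA_singleton, map_add]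
    rw [beta_e_neg t (hpx hx), beta_e_neg t (hpx hy), beta_e_neg t (hpx hz),
      beta_e_mul hp hf t hx, beta_e_mul hp hf t hy, beta_e_mul hp hf t hz]
    ring
  | super x y z x' y' z' j hj hx hy hz hx' hy' hz' hs hs' =>
    simp only [Multiset.insert_eq_cons, toA_cons, toA_singleton, map_add]
    rw [beta_e_super hp hf t hx hj, beta_e_super hp hf t hy hj, beta_e_super hp hf t hz hj,
      beta_e_super hp hf t hx' hj, beta_e_super hp hf t hy' hj, beta_e_super hp hf t hz' hj]
    ring

/-- formula for `beta` -/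
theorem beta_toA (T' : (ZMod m)ˣ) (s : Multiset (ZMod m)) :
    beta P f T' (toA s) = f / 2 * s.card
      - ((s.map fun c => ∑ i ∈ range f,
          (((P ^ i * T' : (ZMod m)ˣ) : ZMod m) * c).val).sum : ℕ) / m := by
  induction s using Multiset.induction_on with
  | empty => simp [toA_zero]
  | cons c s' ih =>
    rw [toA_cons, map_add, ih, beta_e, Multiset.card_cons, Multiset.map_cons, Multiset.sum_cons]
    unfold Pool.Agent.StarkRQ.hh
    rw [sum_sub_distrib, sum_const, card_range, nsmul_eq_mul, ← sum_div]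
    push_cast
    ring

end inv

section abs

theorem norm_multiset_prod {L : Type*} [NormedField L] {α : Type*} (s : Multiset α) (g : α → L) :
    ‖(s.map g).prod‖ = (s.map fun c => ‖g c‖).prod := by
  have := map_multiset_prod (normHom : L →*₀ ℝ) (s.map g)
  rw [Multiset.map_map] at this
  exact this

theorem prod_pow_sum {α : Type*} (s : Multiset α) (g : α → ℕ) (a : ℝ) :
    (s.map fun c => a ^ g c).prod = a ^ (s.map g).sum := by
  induction s using Multiset.induction_on with
  | empty => simp
  | cons c s ih => rw [Multiset.map_cons, Multiset.prod_cons, Multiset.map_cons,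
      Multiset.sum_cons, ih, pow_add]

theorem prod_le_one {α : Type*} (s : Multiset α) (g : α → ℝ) (h0 : ∀ c, 0 ≤ g c)
    (h1 : ∀ c, g c ≤ 1) : (s.map g).prod ≤ 1 := by
  induction s using Multiset.induction_on with
  | empty => simp
  | cons c s ih =>
    rw [Multiset.map_cons, Multiset.prod_cons]
    refine mul_le_one₀ (h1 c) (Multiset.prod_nonneg ?_) ih
    intro a ha
    obtain ⟨c, -, rfl⟩ := Multiset.mem_map.1 ha
    exact h0 c

theorem pow_ne_one_of_ne_zero {F : Type*} [Field F] [Fintype F] {L : Type*} [Field L] {m : ℕ}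
    [NeZero m] {χ : MulChar F L} (hχ : orderOf χ = m) {c : ZMod m} (hc : c ≠ 0) :
    χ ^ c.val ≠ 1 := by
  intro h
  have h1 := orderOf_dvd_of_pow_eq_one h
  rw [hχ] at h1
  have h2 : c.val ≠ 0 := by rwa [Ne, ZMod.val_eq_zero]
  exact absurd (Nat.le_of_dvd (Nat.pos_of_ne_zero h2) h1) (not_le.2 (ZMod.val_lt c))

/-- complex absolute value -/
theorem norm_gaussSum_complex {F : Type*} [Field F] [Fintype F] {χ : MulChar F ℂ} (hχ : χ ≠ 1)
    {ψ : AddChar F ℂ} (hψ : ψ ≠ 1) : ‖gaussSum χ ψ‖ ^ 2 = Fintype.card F := by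
  have hprim : ψ.IsPrimitive := AddChar.IsPrimitive.of_ne_one hψ
  have h1 := gaussSum_mul_gaussSum_eq_card hχ hprim
  rw [← star_gaussSum_eq] at h1
  have h2 := congrArg norm h1
  rw [norm_mul, norm_star, ← sq] at h2
  rw [h2, Complex.norm_natCast]

end abs

section main

variable {p : ℕ} [hp : Fact p.Prime] {F : Type*} [Field F] [Fintype F] [Algebra (ZMod p) F]

/-- A balanced multiset gives a relation between Gauss sums. -/
theorem exists_relation {K : Type*} [Field K] [CharZero K] {m : ℕ} [NeZero m] (χ : MulChar F K)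
    (hχ : orderOf χ = m) {ψ : AddChar F K} (hψ : ψ ≠ 1) {s : Multiset (ZMod m)} {n : ℕ}
    (h0 : (0 : ZMod m) ∉ s) (hn : s.card = 2 * n) {P : (ZMod m)ˣ} (hP : (p : ZMod m) = P)
    (hbal : ∀ t, beta P (Module.finrank (ZMod p) F) t (toA s) = 0) :
    ∃ N : ℕ, 0 < N ∧
      (s.map fun c => gaussSum (χ ^ c.val) ψ).prod ^ N = (Fintype.card F : K) ^ (n * N) := by
  classical
  set f := Module.finrank (ZMod p) F with hf
  have hcard : Fintype.card F = p ^ f := card_eq_pow p F
  have hq0 : Fintype.card F ≠ 0 := Fintype.card_ne_zero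
  have hχ₀ : orderOf (resM χ) = m := by
    rw [← hχ, ← orderOf_comp (algebraMap (K0 K) K), resM_comp]
  have hψ₀ : resA ψ ≠ 1 := by
    intro h1
    apply hψ
    ext x
    have h2 := congrArg (fun y : K0 K => (y : K)) (DFunLike.congr_fun h1 x)
    exact h2
  set x : K0 K := (s.map fun c => gaussSum (resM χ ^ c.val) (resA ψ)).prod
    / (Fintype.card F : K0 K) ^ n with hx
  have hmap : ∀ {L : Type} [Field L] (φ : K0 K →+* L), φ x
      = (s.map fun c => gaussSum (((resM χ).ringHomComp φ) ^ c.val)
          ((φ : K0 K →* L).compAddChar (resA ψ))).prod / (Fintype.card F : L) ^ n := by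
    intro L _ φ
    rw [hx, map_div₀, map_pow, map_natCast, map_multiset_prod, Multiset.map_map]
    congr 3
    ext c
    rw [Function.comp_apply, gaussSum_map, ← MulChar.ringHomComp_pow]
  -- ultrametric absolute values
  have h1 : ∀ (q : ℕ) [Fact q.Prime] (φ : K0 K →+* PadicAlgCl q), ‖φ x‖ ≤ 1 := by
    intro q hq φ
    rw [hmap φ, norm_div, norm_pow, norm_multiset_prod]
    by_cases hqp : q = p
    · subst hqp
      have hpL : ‖((q : ℕ) : PadicAlgCl q)‖ = (q : ℝ)⁻¹ := by
        rw [← Padic.norm_p (p := q), ← PadicAlgCl.norm_extends q (q : ℚ_[q]), map_natCast]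
      have hpp : (1 : ℝ) < q := by exact_mod_cast hp.out.one_lt
      have hp0 : 0 < ‖((q : ℕ) : PadicAlgCl q)‖ := by
        rw [hpL]; positivity
      have hp1 : ‖((q : ℕ) : PadicAlgCl q)‖ < 1 := by
        rw [hpL]; exact inv_lt_one_of_one_lt₀ hpp
      obtain ⟨u, hu, hS⟩ := stickelberger' hp1 ((resM χ).ringHomComp φ)
      rw [orderOf_comp, hχ₀] at hu hS
      have h5 := hbal (ZMod.unitOfCoprime u hu)
      rw [beta_toA, hn] at h5
      have hUv : ((ZMod.unitOfCoprime u hu : (ZMod m)ˣ) : ZMod m) = (u : ZMod m) := rfl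
      have h6 : ∀ c : ZMod m, ∀ i : ℕ,
          (((P ^ i * ZMod.unitOfCoprime u hu : (ZMod m)ˣ) : ZMod m) * c).val
          = (q ^ i * (u * c.val)) % m := by
        intro c i
        rw [← ZMod.val_natCast]
        congr 1
        push_cast
        rw [hP, ZMod.natCast_zmod_val, mul_assoc]
        rfl
      simp only [h6] at h5
      have hm0 : (m : ℝ) ≠ 0 := by exact_mod_cast NeZero.ne m
      have h7 : (s.map fun c => ∑ i ∈ range f, (q ^ i * (u * c.val)) % m).sum = f * n * m := by
        have h8 : (((s.map fun c => ∑ i ∈ range f, (q ^ i * (u * c.val)) % m).sum : ℕ) : ℝ)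
            = ((f * n * m : ℕ) : ℝ) := by
          push_cast at h5 ⊢
          field_simp at h5
          linarith
        exact_mod_cast h8
      have hm1 : m ≠ 0 := NeZero.ne m
      have h9 : (s.map fun c => ‖gaussSum (((resM χ).ringHomComp φ) ^ c.val)
          ((φ : K0 K →* PadicAlgCl q).compAddChar (resA ψ))‖).prod
          = ‖(Fintype.card F : PadicAlgCl q)‖ ^ n := by
        refine (pow_left_inj₀ ?_ (by positivity) hm1).1 ?_
        · exact Multiset.prod_nonneg (by
            intro a ha
            obtain ⟨c, -, rfl⟩ := Multiset.mem_map.1 ha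
            exact norm_nonneg _)
        · rw [← Multiset.prod_map_pow]
          simp only [hS _ (compAddChar_ne_one φ hψ₀)]
          rw [prod_pow_sum, h7, hcard, Nat.cast_pow, norm_pow, ← pow_mul, ← pow_mul]
          congr 1
          ring
      rw [h9]
      exact div_self_le_one _
    · have h2 : ‖(Fintype.card F : PadicAlgCl q)‖ = 1 := by
        have h3 : ‖((p : ℕ) : ℚ_[q])‖ = 1 := by
          rw [Padic.norm_natCast_eq_one_iff]
          exact (Nat.coprime_primes hq.out hp.out).2 hqp
        rw [hcard, Nat.cast_pow, norm_pow, ← map_natCast (algebraMap ℚ_[q] (PadicAlgCl q)),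
          PadicAlgCl.norm_extends, h3, one_pow]
      rw [h2, one_pow, div_one]
      exact prod_le_one s _ (fun c => norm_nonneg _) (fun c => norm_gaussSum_le _ _)
  have h2 : ∀ φ : K0 K →+* ℂ, ‖φ x‖ = 1 := by
    intro φ
    have hχ₁ : orderOf ((resM χ).ringHomComp φ) = m := by rw [orderOf_comp, hχ₀]
    rw [hmap φ, norm_div, norm_pow, norm_multiset_prod, Complex.norm_natCast]
    have h3 : (s.map fun c => ‖gaussSum (((resM χ).ringHomComp φ) ^ c.val)
          ((φ : K0 K →* ℂ).compAddChar (resA ψ))‖ ^ 2).prod = (Fintype.card F : ℝ) ^ s.card := by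
      rw [Multiset.map_congr rfl (g := fun _ => (Fintype.card F : ℝ)), Multiset.map_const',
        Multiset.prod_replicate]
      intro c hc
      have hc0 : c ≠ 0 := fun h => h0 (h ▸ hc)
      exact norm_gaussSum_complex (pow_ne_one_of_ne_zero hχ₁ hc0) (compAddChar_ne_one φ hψ₀)
    have hqr : (0 : ℝ) < (Fintype.card F : ℝ) := by
      exact_mod_cast Nat.pos_of_ne_zero hq0
    rw [Multiset.prod_map_pow, hn, mul_comm 2 n, pow_mul] at h3
    have h4 := (pow_left_inj₀ (Multiset.prod_nonneg (by
            intro a ha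
            obtain ⟨c, -, rfl⟩ := Multiset.mem_map.1 ha
            exact norm_nonneg _)) (by positivity) two_ne_zero).1 h3
    rw [h4]
    exact div_self (by positivity)
  obtain ⟨N, hN, h⟩ := exists_pow_eq_one h1 h2
  refine ⟨N, hN, ?_⟩
  have hq1 : (Fintype.card F : K0 K) ≠ 0 := Nat.cast_ne_zero.2 hq0
  rw [hx, div_pow, div_eq_one_iff_eq (pow_ne_zero _ (pow_ne_zero _ hq1)), ← pow_mul] at h
  have h3 := congrArg (algebraMap (K0 K) K) h
  rw [map_pow, map_pow, map_natCast, map_multiset_prod, Multiset.map_map] at h3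
  rw [← h3]
  congr 3
  ext c
  rw [Function.comp_apply, gaussSum_map, ← MulChar.ringHomComp_pow, resM_comp, resA_comp]

end main

end Pool.Stick
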