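import Pool.Agent.Stick.Main
import Pool.Agent.Stick.Alg
import Mathlib

/-!
The conjugates of a relation between Gauss sums.
-/

open Finset

namespace Pool.Stick

section general

variable {K : Type*} [Field K] {L : Type*} [Field L] {F : Type*} [Field F] [Fintype F]

theorem gaussSum_map (f : K →+* L) (χ : MulChar F K) (ψ : AddChar F K) :
    f (gaussSum χ ψ) = gaussSum (χ.ringHomComp f) ((f : K →* L).compAddChar ψ) := by
  unfold gaussSum
  rw [map_sum]
  refine sum_congr rfl fun x _ => ?_
  rw [map_mul]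
  rfl

theorem isIntegral_mulChar [CharZero K] (χ : MulChar F K) (x : F) : IsIntegral ℚ (χ x) := by
  by_cases hx : x = 0
  · rw [hx, MulCharClass.map_nonunit χ not_isUnit_zero]
    exact isIntegral_zero
  · have h1 : 0 < Fintype.card F - 1 := by
      have : 1 < Fintype.card F := Fintype.one_lt_card
      omega
    refine IsIntegral.of_pow h1 ?_
    rw [← map_pow, FiniteField.pow_card_sub_one_eq_one x hx, map_one]
    exact isIntegral_one

theorem isIntegral_addChar [CharZero K] (ψ : AddChar F K) (x : F) : IsIntegral ℚ (ψ x) := by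
  have h1 : 0 < Fintype.card F := Fintype.card_pos
  refine IsIntegral.of_pow h1 ?_
  rw [← AddChar.map_nsmul_eq_pow, card_nsmul_eq_zero, AddChar.map_zero_eq_one]
  exact isIntegral_one

/-- the field of algebraic numbers -/
abbrev K0 (K : Type*) [Field K] [CharZero K] : IntermediateField ℚ K := algebraicClosure ℚ K

theorem mem_K0 [CharZero K] {x : K} (h : IsIntegral ℚ x) : x ∈ K0 K :=
  mem_algebraicClosure_iff'.2 h

instance isAlg [CharZero K] : Algebra.IsAlgebraic ℚ (K0 K) := by
  refine ⟨fun x => ?_⟩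
  have h := mem_algebraicClosure_iff'.1 x.2
  exact ((isIntegral_algHom_iff (RingHom.toRatAlgHom (algebraMap (K0 K) K))
    (algebraMap (K0 K) K).injective).1 h).isAlgebraic

/-- restriction of the values -/
noncomputable def resM [CharZero K] (χ : MulChar F K) : MulChar F (K0 K) where
  toFun x := ⟨χ x, mem_K0 (isIntegral_mulChar χ x)⟩
  map_one' := Subtype.ext (map_one χ)
  map_mul' x y := Subtype.ext (map_mul χ x y)
  map_nonunit' _ hx := Subtype.ext (MulCharClass.map_nonunit χ hx)

/-- restriction of the values -/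
noncomputable def resA [CharZero K] (ψ : AddChar F K) : AddChar F (K0 K) where
  toFun x := ⟨ψ x, mem_K0 (isIntegral_addChar ψ x)⟩
  map_zero_eq_one' := Subtype.ext (AddChar.map_zero_eq_one ψ)
  map_add_eq_mul' x y := Subtype.ext (AddChar.map_add_eq_mul ψ x y)

theorem resM_comp [CharZero K] (χ : MulChar F K) :
    (resM χ).ringHomComp (algebraMap (K0 K) K) = χ := by
  ext x
  rfl

theorem resA_comp [CharZero K] (ψ : AddChar F K) :
    ((algebraMap (K0 K) K : K0 K →+* K) : K0 K →* K).compAddChar (resA ψ) = ψ := by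
  ext x
  rfl

omit [Fintype F] in
theorem orderOf_comp (f : K →+* L) (χ : MulChar F K) : orderOf (χ.ringHomComp f) = orderOf χ := by
  rw [orderOf_eq_orderOf_iff]
  intro n
  rw [MulChar.ringHomComp_pow, MulChar.ringHomComp_eq_one_iff f.injective]

omit [Fintype F] in
theorem compAddChar_ne_one (f : K →+* L) {ψ : AddChar F K} (hψ : ψ ≠ 1) :
    (f : K →* L).compAddChar ψ ≠ 1 := by
  intro h
  apply hψ
  ext x
  have := DFunLike.congr_fun h x
  apply f.injective
  rw [AddChar.one_apply, map_one]
  exact this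

/-- conjugation: for an algebraic `K` there is an embedding which acts on the values of `χ` as the
`t`-th power after a given embedding. -/
theorem exists_conj [CharZero K] [CharZero L] [IsAlgClosed L] [Algebra.IsAlgebraic ℚ K]
    (φ : K →+* L)
    (χ : MulChar F K) {t : ℕ} (ht : t.Coprime (orderOf χ)) :
    ∃ φ' : K →+* L, χ.ringHomComp φ' = (χ.ringHomComp φ) ^ t := by
  classical
  obtain ⟨g, hg⟩ := IsCyclic.exists_generator (α := Fˣ)
  have hm0 : 0 < orderOf χ := χ.orderOf_pos
  have hζ : IsPrimitiveRoot (χ g) (orderOf χ) := by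
    rw [IsPrimitiveRoot.iff_orderOf, orderOf_eq_orderOf_iff]
    intro n
    rw [← MulChar.pow_apply_coe]
    constructor
    · intro h
      rw [MulChar.eq_iff hg, h, MulChar.one_apply_coe]
    · intro h
      rw [h, MulChar.one_apply_coe]
  have hζ' : IsPrimitiveRoot (φ (χ g) ^ t) (orderOf χ) :=
    (hζ.map_of_injective φ.injective).pow_of_coprime t ht
  have hroot : Polynomial.aeval (φ (χ g) ^ t) (minpoly ℚ (χ (g : F))) = 0 := by
    rw [← Polynomial.cyclotomic_eq_minpoly_rat hζ hm0]
    have := hζ'.isRoot_cyclotomic hm0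
    rw [Polynomial.IsRoot.def] at this
    rw [Polynomial.aeval_def, Polynomial.eval₂_eq_eval_map, Polynomial.map_cyclotomic]
    exact this
  obtain ⟨φ', hφ'⟩ := IntermediateField.exists_algHom_of_splits_of_aeval (F := ℚ) (E := K) (K := L)
    (fun x => ⟨Algebra.IsIntegral.isIntegral x, IsAlgClosed.splits _⟩) hroot
  refine ⟨φ', ?_⟩
  rw [MulChar.eq_iff hg, MulChar.pow_apply_coe]
  exact hφ'

end general

section main

variable {p : ℕ} [hp : Fact p.Prime] {F : Type*} [Field F] [Fintype F] [Algebra (ZMod p) F]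

/-- A relation between Gauss sums implies that the multiset is balanced. -/
theorem beta_eq_zero {K : Type*} [Field K] [CharZero K] {m : ℕ} [NeZero m] (χ : MulChar F K)
    (hχ : orderOf χ = m) {ψ : AddChar F K} (hψ : ψ ≠ 1) {s : Multiset (ZMod m)} {n N : ℕ}
    (hn : s.card = 2 * n) (hN : 0 < N)
    (h : (s.map fun c => gaussSum (χ ^ c.val) ψ).prod ^ N = (Fintype.card F : K) ^ (n * N))
    {P : (ZMod m)ˣ} (hP : (p : ZMod m) = P) (T' : (ZMod m)ˣ) :
    beta P (Module.finrank (ZMod p) F) T' (toA s) = 0 := by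
  classical
  set f := Module.finrank (ZMod p) F with hf
  have hpL : ‖((p : ℕ) : PadicAlgCl p)‖ = (p : ℝ)⁻¹ := by
    rw [← Padic.norm_p (p := p), ← PadicAlgCl.norm_extends p (p : ℚ_[p]), map_natCast]
  have hpp : (1 : ℝ) < p := by exact_mod_cast hp.out.one_lt
  have hp0 : 0 < ‖((p : ℕ) : PadicAlgCl p)‖ := by
    rw [hpL]; positivity
  have hp1 : ‖((p : ℕ) : PadicAlgCl p)‖ < 1 := by
    rw [hpL]; exact inv_lt_one_of_one_lt₀ hpp
  have hχ₀ : orderOf (resM χ) = m := by
    rw [← hχ, ← orderOf_comp (algebraMap (K0 K) K), resM_comp]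
  have hψ₀ : resA ψ ≠ 1 := by
    intro h1
    apply hψ
    ext x
    have h2 := congrArg (fun y : K0 K => (y : K)) (DFunLike.congr_fun h1 x)
    exact h2
  have h0 : (s.map fun c => gaussSum (resM χ ^ c.val) (resA ψ)).prod ^ N
      = (Fintype.card F : K0 K) ^ (n * N) := by
    apply (algebraMap (K0 K) K).injective
    rw [map_pow, map_pow, map_natCast, map_multiset_prod, Multiset.map_map, ← h]
    congr 3
    ext c
    rw [Function.comp_apply, gaussSum_map, ← MulChar.ringHomComp_pow, resM_comp, resA_comp]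
  let φ : K0 K →ₐ[ℚ] PadicAlgCl p := IsAlgClosed.lift
  obtain ⟨u, hu, hS⟩ := stickelberger' hp1 ((resM χ).ringHomComp (φ : K0 K →+* PadicAlgCl p))
  rw [orderOf_comp, hχ₀] at hu hS
  have key : ∀ t : ℕ, t.Coprime m →
      (s.map fun c => ∑ i ∈ range f, (p ^ i * (u * (t * c.val))) % m).sum = f * n * m := by
    intro t ht
    obtain ⟨φ', hφ'⟩ := exists_conj (φ : K0 K →+* PadicAlgCl p) (resM χ) (hχ₀ ▸ ht)
    have h1 := congrArg φ' h0
    rw [map_pow, map_pow, map_natCast, map_multiset_prod, Multiset.map_map] at h1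
    have h3 := congrArg (fun y => normHom y ^ m) h1
    simp only [map_pow, map_multiset_prod, Multiset.map_map] at h3
    rw [← pow_mul, mul_comm N m, pow_mul, ← Multiset.prod_map_pow] at h3
    have h4 : (s.map fun c => ‖(p : PadicAlgCl p)‖ ^
        (∑ i ∈ range f, (p ^ i * (u * (t * c.val))) % m)).prod ^ N
        = ‖(p : PadicAlgCl p)‖ ^ (f * n * m * N) := by
      rw [card_eq_pow p F, Nat.cast_pow, map_pow] at h3
      have h5 : (normHom ((p : ℕ) : PadicAlgCl p) : ℝ) = ‖((p : ℕ) : PadicAlgCl p)‖ := rfl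
      rw [h5, ← hf, ← pow_mul, ← pow_mul] at h3
      have h6 : f * (n * N * m) = f * n * m * N := by ring
      rw [h6] at h3
      rw [← h3]
      congr 3
      ext c
      rw [Function.comp_apply, Function.comp_apply, gaussSum_map, ← MulChar.ringHomComp_pow, hφ',
        ← pow_mul]
      exact (hS _ (compAddChar_ne_one φ' hψ₀) _).symm
    have h7 : ∀ s' : Multiset (ZMod m), (s'.map fun c => ‖(p : PadicAlgCl p)‖ ^
        (∑ i ∈ range f, (p ^ i * (u * (t * c.val))) % m)).prod
        = ‖(p : PadicAlgCl p)‖ ^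
          (s'.map fun c => ∑ i ∈ range f, (p ^ i * (u * (t * c.val))) % m).sum := by
      intro s'
      induction s' using Multiset.induction_on with
      | empty => simp
      | cons c s' ih => rw [Multiset.map_cons, Multiset.prod_cons, Multiset.map_cons,
          Multiset.sum_cons, ih, pow_add]
    rw [h7, ← pow_mul] at h4
    have h8 := pow_right_injective₀ hp0 hp1.ne h4
    exact Nat.eq_of_mul_eq_mul_right hN h8
  -- the unit
  set U : (ZMod m)ˣ := ZMod.unitOfCoprime u hu with hU
  have hUv : ((U : (ZMod m)ˣ) : ZMod m) = (u : ZMod m) := rfl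
  have h5 := key ((T' * U⁻¹ : (ZMod m)ˣ) : ZMod m).val (ZMod.val_coe_unit_coprime _)
  have h6 : ∀ c : ZMod m, ∀ i : ℕ,
      (p ^ i * (u * (((T' * U⁻¹ : (ZMod m)ˣ) : ZMod m).val * c.val))) % m
        = (((P ^ i * T' : (ZMod m)ˣ) : ZMod m) * c).val := by
    intro c i
    rw [← ZMod.val_natCast]
    congr 1
    push_cast
    rw [hP, ZMod.natCast_zmod_val, ZMod.natCast_zmod_val, ← hUv]
    have h7 : (U : ZMod m) * ((U⁻¹ : (ZMod m)ˣ) : ZMod m) = 1 := Units.mul_inv U
    linear_combination ((P : ZMod m) ^ i * T' * c) * h7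
  simp only [h6] at h5
  have hm0 : (m : ℝ) ≠ 0 := by exact_mod_cast NeZero.ne m
  have h7 : ∀ s' : Multiset (ZMod m), beta P f T' (toA s') = f / 2 * s'.card
      - ((s'.map fun c => ∑ i ∈ range f,
          (((P ^ i * T' : (ZMod m)ˣ) : ZMod m) * c).val).sum : ℕ) / m := by
    intro s'
    induction s' using Multiset.induction_on with
    | empty => simp [toA_zero]
    | cons c s' ih =>
      rw [toA_cons, map_add, ih, beta_e, Multiset.card_cons, Multiset.map_cons, Multiset.sum_cons]
      unfold Pool.Agent.StarkRQ.hh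
      rw [sum_sub_distrib, sum_const, card_range, nsmul_eq_mul, ← sum_div]
      push_cast
      ring
  rw [h7, h5, hn]
  push_cast
  field_simp
  ring

end main

end Pool.Stick
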