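import Pool.Agent.Stick.Embed

/-!
The Tate conjecture for Fermat varieties of degree `l ^ k` or `2 l ^ k` over finite fields: the
arithmetic part.
-/

open Finset

namespace Pool.Stick

theorem alg_of_tate {p : ℕ} (hp : p.Prime) {F : Type*} [Field F] [Fintype F] [CharP F p]
    {K : Type*} [Field K] [CharZero K] {m : ℕ} [NeZero m] (hm3 : 3 ≤ m) {l k : ℕ} (hl : l.Prime)
    (hk : k ≠ 0) (hm : m = l ^ k ∨ m = 2 * l ^ k) (χ : MulChar F K) (hχ : orderOf χ = m)
    {ψ : AddChar F K} (hψ : ψ ≠ 1) {s : Multiset (ZMod m)} (h0 : (0 : ZMod m) ∉ s)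
    (hsum : s.sum = 0) {n N : ℕ} (hn : s.card = 2 * n) (hN : 0 < N)
    (h : (s.map fun c => gaussSum (χ ^ c.val) ψ).prod ^ N = (Fintype.card F : K) ^ (n * N)) :
    Alg p s := by
  have : Fact p.Prime := ⟨hp⟩
  let _ : Algebra (ZMod p) F := ZMod.algebra F p
  set f := Module.finrank (ZMod p) F with hf
  have hf0 : f ≠ 0 := Module.finrank_pos.ne'
  have hcard : Fintype.card F = p ^ f := card_eq_pow p F
  have hdvd : m ∣ p ^ f - 1 := by
    rw [← hcard, ← hχ]
    apply orderOf_dvd_of_pow_eq_one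
    ext x
    rw [MulChar.pow_apply_coe, MulChar.one_apply_coe, ← map_pow,
      FiniteField.pow_card_sub_one_eq_one _ (Units.ne_zero _), map_one]
  have hpf : (p : ZMod m) ^ f = 1 := by
    have h1 : ((p ^ f - 1 : ℕ) : ZMod m) = 0 := (ZMod.natCast_eq_zero_iff _ _).2 hdvd
    have h2 : 1 ≤ p ^ f := Nat.one_le_pow _ _ hp.pos
    rw [Nat.cast_sub h2, Nat.cast_pow, Nat.cast_one, sub_eq_zero] at h1
    exact h1
  obtain ⟨P, hP⟩ : IsUnit (p : ZMod m) := IsUnit.of_pow_eq_one hpf hf0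
  have hPf : P ^ f = 1 := by
    ext
    rw [Units.val_pow_eq_pow_val, hP, hpf, Units.val_one]
  refine alg_of_balanced hm3 hl hk hm hP.symm hPf hf0 h0 hsum (hn ▸ even_two_mul n) ?_
  intro t
  exact beta_eq_zero χ hχ hψ hn hN h hP.symm t

end Pool.Stick
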