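import Pool.Agent.Stick.Bern

/-!
Nonvanishing of `L(χ, 0)` for the odd characters `χ` modulo `m` with `χ(p) = 1`, if `-1` is a power
of `p` modulo the `l`-free part of `m` for all primes `l ∣ m`.
-/

open Finset DirichletCharacter

namespace Pool.Stick

open Pool.Agent.StarkRQ

theorem LFunction_zero_ne_zero_gen {m p : ℕ} [NeZero m]
    (hm : ∀ l : ℕ, l.Prime → l ∣ m → ∃ j k : ℕ, m ∣ l ^ k * (p ^ j + 1)) (hpm : p.Coprime m)
    {χ : DirichletCharacter ℂ m} (hodd : χ.Odd) (hp : χ (p : ZMod m) = 1) :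
    LFunction χ 0 ≠ 0 := by
  have hc0 : χ.conductor ≠ 0 := conductor_ne_zero χ
  have : NeZero χ.conductor := ⟨hc0⟩
  have hdvd : χ.conductor ∣ m := conductor_dvd_level χ
  have hch : χ = changeLevel hdvd χ.primitiveCharacter := (changeLevel_primitiveCharacter χ).symm
  have hodd' : χ.primitiveCharacter.Odd := by
    have h := hodd
    unfold DirichletCharacter.Odd at h ⊢
    have h2 := changeLevel_eq_cast_of_dvd' χ.primitiveCharacter hdvd (a := -1)
      (IsCoprime.neg_left isCoprime_one_left)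
    rw [← hch] at h2
    push_cast at h2
    rw [← h2, h]
  have hp' : χ.primitiveCharacter (p : ZMod χ.conductor) = 1 := by
    have h2 := changeLevel_eq_cast_of_dvd' χ.primitiveCharacter hdvd (a := (p : ℤ))
      (Nat.isCoprime_iff_coprime.2 hpm)
    rw [← hch] at h2
    push_cast at h2
    rw [← h2, hp]
  have hne := LFunction_zero_ne_zero_of_primitive (primitiveCharacter_isPrimitive χ) hodd'
  rw [hch, LFunction_changeLevel hdvd χ.primitiveCharacter (Or.inr zero_ne_one)]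
  refine mul_ne_zero hne (Finset.prod_ne_zero_iff.2 fun l hl => ?_)
  have h2 := Nat.prime_of_mem_primeFactors hl
  have h3 := Nat.dvd_of_mem_primeFactors hl
  have hlc : l ∣ χ.conductor := by
    by_contra hcon
    obtain ⟨j, k, hjk⟩ := hm l h2 h3
    have h4 : χ.conductor ∣ p ^ j + 1 := by
      have h5 : χ.conductor ∣ l ^ k * (p ^ j + 1) := hdvd.trans hjk
      have h6 : Nat.Coprime χ.conductor (l ^ k) :=
        (((Nat.Prime.coprime_iff_not_dvd h2).2 hcon).pow_left k).symm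
      exact h6.dvd_of_dvd_mul_left h5
    have h7 : (p : ZMod χ.conductor) ^ j = -1 := by
      have h8 := (ZMod.natCast_eq_zero_iff (p ^ j + 1) χ.conductor).2 h4
      push_cast at h8
      linear_combination h8
    have h9 := congrArg χ.primitiveCharacter h7
    rw [map_pow, hp', one_pow, hodd'] at h9
    norm_num at h9
  have h4 : χ.primitiveCharacter (l : ZMod χ.conductor) = 0 := by
    rw [MulChar.map_nonunit]
    rw [ZMod.isUnit_iff_coprime]
    intro h5
    exact h2.one_lt.ne' (Nat.dvd_one.1 (h5 ▸ Nat.dvd_gcd dvd_rfl hlc))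
  rw [h4, zero_mul, sub_zero]
  exact one_ne_zero

/-- The kernel of the convolution with `1/2 - a/m` on the functions on the units which are
invariant under `P` consists of the even functions, if
`L(χ, 0) ≠ 0` for all odd `χ` with `χ(P) = 1`. -/
theorem even_of_sum_eq_zero_inv {m : ℕ} [NeZero m] (hm1 : m ≠ 1) (P : (ZMod m)ˣ)
    (hL : ∀ χ : DirichletCharacter ℂ m, χ.Odd → χ (P : ZMod m) = 1 → LFunction χ 0 ≠ 0)
    (W : (ZMod m)ˣ → ℤ) (hWP : ∀ u, W (P * u) = W u)
    (hW : ∀ t : (ZMod m)ˣ, ∑ u, (W u : ℝ) * hh m (t * u : (ZMod m)ˣ) = 0)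
    (u : (ZMod m)ˣ) : W (-u) = W u := by
  classical
  -- character sums of `W`
  have hodd : ∀ χ : DirichletCharacter ℂ m, χ.Odd → ∑ u, (W u : ℂ) * χ (u⁻¹ : (ZMod m)ˣ) = 0 := by
    intro χ hχ
    by_cases hχP : χ (P : ZMod m) = 1
    · have h1 : ∑ t : (ZMod m)ˣ, χ t * ((∑ u, (W u : ℝ) * hh m (t * u : (ZMod m)ˣ) : ℝ) : ℂ)
          = 0 := by
        refine Finset.sum_eq_zero fun t _ => ?_
        rw [hW t]
        simp
      have h2 : ∑ t : (ZMod m)ˣ, χ t * ((∑ u, (W u : ℝ) * hh m (t * u : (ZMod m)ˣ) : ℝ) : ℂ)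
          = (∑ u, (W u : ℂ) * χ (u⁻¹ : (ZMod m)ˣ)) * ∑ y : (ZMod m)ˣ, χ y * (hh m y : ℂ) := by
        push_cast
        rw [Finset.sum_mul, Finset.sum_congr rfl fun t _ => Finset.mul_sum _ _ _, Finset.sum_comm]
        refine Finset.sum_congr rfl fun u _ => ?_
        rw [Finset.mul_sum]
        refine Fintype.sum_equiv (Equiv.mulRight u) _ _ fun t => ?_
        rw [Equiv.coe_mulRight, Units.val_mul, map_mul]
        have h3 : χ (u⁻¹ : (ZMod m)ˣ) * χ (u : ZMod m) = 1 := by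
          rw [← map_mul, ← Units.val_mul, inv_mul_cancel, Units.val_one, map_one]
        linear_combination (-(χ t * (W u : ℂ) * (hh m ((t : ZMod m) * u) : ℂ))) * h3
      rw [h2, sum_units χ (fun a => (hh m a : ℂ)), ← LFunction_zero_eq χ (χ.map_zero' hm1)] at h1
      exact (mul_eq_zero.1 h1).resolve_right (hL χ hχ hχP)
    · have h1 : χ ((P⁻¹ : (ZMod m)ˣ) : ZMod m) * ∑ u, (W u : ℂ) * χ (u⁻¹ : (ZMod m)ˣ)
          = ∑ u, (W u : ℂ) * χ (u⁻¹ : (ZMod m)ˣ) := by
        rw [Finset.mul_sum]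
        refine Fintype.sum_equiv (Equiv.mulLeft P) _ _ fun u => ?_
        rw [Equiv.coe_mulLeft, hWP, mul_inv_rev, Units.val_mul, map_mul]
        ring
      have h2 : χ ((P⁻¹ : (ZMod m)ˣ) : ZMod m) ≠ 1 := by
        intro h3
        apply hχP
        have h4 : χ ((P⁻¹ : (ZMod m)ˣ) : ZMod m) * χ (P : ZMod m) = 1 := by
          rw [← map_mul, ← Units.val_mul, inv_mul_cancel, Units.val_one, map_one]
        rwa [h3, one_mul] at h4
      have h3 : (χ ((P⁻¹ : (ZMod m)ˣ) : ZMod m) - 1) * ∑ u, (W u : ℂ) * χ (u⁻¹ : (ZMod m)ˣ)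
          = 0 := by
        rw [sub_mul, one_mul, h1, sub_self]
      exact (mul_eq_zero.1 h3).resolve_left (sub_ne_zero.2 h2)
  -- the odd part of `W`
  have hall : ∀ χ : DirichletCharacter ℂ m,
      ∑ u, ((W u - W (-u) : ℤ) : ℂ) * χ (u : ZMod m) = 0 := by
    intro χ
    have h1 : ∑ u : (ZMod m)ˣ, (W (-u) : ℂ) * χ (u : ZMod m)
        = χ (-1) * ∑ u : (ZMod m)ˣ, (W u : ℂ) * χ (u : ZMod m) := by
      rw [Finset.mul_sum]
      refine Fintype.sum_equiv (Equiv.neg _) _ _ fun u => ?_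
      rw [Equiv.neg_apply, Units.val_neg, ← neg_one_mul (u : ZMod m), map_mul]
      have h2 : χ (-1) * χ (-1) = 1 := by rw [← map_mul, neg_one_mul, neg_neg, map_one]
      linear_combination (-((W (-u) : ℂ) * χ (u : ZMod m))) * h2
    push_cast
    simp_rw [sub_mul]
    rw [Finset.sum_sub_distrib, h1]
    rcases χ.even_or_odd with h | h
    · rw [h, one_mul, sub_self]
    · have h3 : (χ⁻¹).Odd := by
        have h4 := h
        unfold DirichletCharacter.Odd at h4 ⊢
        rw [MulChar.inv_apply_eq_inv', h4]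
        norm_num
      have h5 := hodd χ⁻¹ h3
      have h6 : ∑ u : (ZMod m)ˣ, (W u : ℂ) * χ (u : ZMod m) = 0 := by
        rw [← h5]
        refine Finset.sum_congr rfl fun u _ => ?_
        congr 1
        have h7 : χ (u⁻¹ : (ZMod m)ˣ) * χ (u : ZMod m) = 1 := by
          rw [← map_mul, ← Units.val_mul, inv_mul_cancel, Units.val_one, map_one]
        rw [MulChar.inv_apply_eq_inv']
        exact (eq_inv_of_mul_eq_one_right h7)
      rw [h6, mul_zero, sub_zero]
  -- orthogonality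
  have h8 : ∑ χ : DirichletCharacter ℂ m, χ ((u⁻¹ : (ZMod m)ˣ) : ZMod m) *
      ∑ v, ((W v - W (-v) : ℤ) : ℂ) * χ (v : ZMod m) = 0 :=
    Finset.sum_eq_zero fun χ _ => by rw [hall χ, mul_zero]
  simp_rw [Finset.mul_sum] at h8
  rw [Finset.sum_comm] at h8
  have h9 : ∀ v : (ZMod m)ˣ, ∑ χ : DirichletCharacter ℂ m, χ ((u⁻¹ : (ZMod m)ˣ) : ZMod m) *
      (((W v - W (-v) : ℤ) : ℂ) * χ (v : ZMod m))
      = ((W v - W (-v) : ℤ) : ℂ) * if u = v then (m.totient : ℂ) else 0 := by
    intro v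
    have h10 := sum_char_inv_mul_char_eq ℂ (n := m) u.isUnit (v : ZMod m)
    have h11 : ((u : ZMod m) = v) ↔ u = v := ⟨fun h => Units.ext h, fun h => by rw [h]⟩
    simp only [h11] at h10
    rw [← h10, Finset.mul_sum]
    refine Finset.sum_congr rfl fun χ _ => ?_
    rw [ZMod.inv_coe_unit]
    ring
  rw [Finset.sum_congr rfl fun v _ => h9 v] at h8
  simp only [mul_ite, mul_zero, Finset.sum_ite_eq, Finset.mem_univ, if_true] at h8
  have h12 : (m.totient : ℂ) ≠ 0 := by
    exact_mod_cast (Nat.totient_pos.2 (NeZero.pos m)).ne'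
  have h13 : ((W u - W (-u) : ℤ) : ℂ) = 0 := (mul_eq_zero.1 h8).resolve_right h12
  have h14 : W u - W (-u) = 0 := by exact_mod_cast h13
  omega

end Pool.Stick
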