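import Pool.Agent.Stick.Lattice6
import Pool.Agent.Stick.Gen1

/-!
The balanced elements are generated by the relations and the supersingular elements.
-/

open Finset

namespace Pool.Stick

open Pool.Agent.StarkRQ

section defs

variable {m : ℕ}

/-- `x` is supersingular: `-x` is in the orbit of `x` under `p` -/
def IsSS (p : ℕ) (x : ZMod m) : Prop := ∃ j : ℕ, (p : ZMod m) ^ j * x = -x

/-- supersingular elements -/
def relS1 (m p : ℕ) : Set (A m) := {v | ∃ x : ZMod m, x ≠ 0 ∧ IsSS p x ∧ v = e x}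

/-- sums of two supersingular elements -/
def relSS (m p : ℕ) : Set (A m) := {v | ∃ x y : ZMod m, x ≠ 0 ∧ y ≠ 0 ∧ IsSS p x ∧ IsSS p y ∧
  v = e x + e y}

/-- all relations and supersingular elements -/
noncomputable def RelL (m p : ℕ) [NeZero m] : AddSubgroup (A m) :=
  RelA m p ⊔ AddSubgroup.closure (relS1 m p)

/-- all relations and sums of two supersingular elements -/
noncomputable def RelG (m p : ℕ) [NeZero m] : AddSubgroup (A m) :=
  RelA m p ⊔ AddSubgroup.closure (relSS m p)

theorem IsSS.neg {p : ℕ} {x : ZMod m} (h : IsSS p x) : IsSS p (-x) := by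
  obtain ⟨j, hj⟩ := h
  exact ⟨j, by rw [mul_neg, hj]⟩

end defs

variable {m : ℕ} [NeZero m] {p f : ℕ} {P : (ZMod m)ˣ}

theorem beta_S1 (hp : (p : ZMod m) = P) (hf : P ^ f = 1) (t : (ZMod m)ˣ) {x : ZMod m}
    (hx : x ≠ 0) (hs : IsSS p x) : beta P f t (e x) = 0 := by
  have hmul : ∀ y : ZMod m, y ≠ 0 → beta P f t (e ((p : ZMod m) * y)) = beta P f t (e y) := by
    intro y hy
    have := beta_relF hp hf t (v := e y - e ((p : ZMod m) * y)) ⟨y, hy, rfl⟩
    rw [map_sub] at this
    linarith
  have hpow : ∀ j : ℕ, beta P f t (e ((p : ZMod m) ^ j * x)) = beta P f t (e x) := by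
    intro j
    induction j with
    | zero => rw [pow_zero, one_mul]
    | succ j ih =>
      rw [pow_succ', mul_assoc, hmul, ih]
      rw [hp, ← Units.val_pow_eq_pow_val]
      exact unit_mul_ne_zero _ hx
  obtain ⟨j, hj⟩ := hs
  have h1 := hpow j
  rw [hj] at h1
  have h2 := beta_relP (P := P) (f := f) t (v := e x + e (-x)) ⟨x, hx, rfl⟩
  rw [map_add, h1] at h2
  linarith

/-- all nonzero elements are generated by the units, the supersingular elements and the
relations -/
theorem e_mem_genL (hn : ∀ l : ℕ, l.Prime → l ∣ m → ∃ j k : ℕ, m ∣ l ^ k * (p ^ j + 1)) (N : ℕ) :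
    ∀ x : ZMod m, x ≠ 0 → Nat.gcd x.val m ≤ N →
    e x ∈ AddSubgroup.closure {v : A m | ∃ u : (ZMod m)ˣ, v = e (u : ZMod m)} ⊔
      AddSubgroup.closure (relS1 m p) ⊔ RelA m p := by
  set G := AddSubgroup.closure {v : A m | ∃ u : (ZMod m)ˣ, v = e (u : ZMod m)} ⊔
      AddSubgroup.closure (relS1 m p) ⊔ RelA m p with hG
  have hss : ∀ x : ZMod m, x ≠ 0 → IsSS p x → e x ∈ G := fun x hx hs =>
    AddSubgroup.mem_sup_left (AddSubgroup.mem_sup_right
      (AddSubgroup.subset_closure ⟨x, hx, hs, rfl⟩))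
  induction N with
  | zero =>
    intro x hx h
    have : 0 < Nat.gcd x.val m := Nat.gcd_pos_of_pos_right _ (NeZero.pos m)
    omega
  | succ N ih =>
    intro x hx h
    set d := Nat.gcd x.val m with hd
    have hd0 : 0 < d := Nat.gcd_pos_of_pos_right _ (NeZero.pos m)
    by_cases hd1 : d = 1
    · -- a unit
      have hcop : x.val.Coprime m := hd1
      refine AddSubgroup.mem_sup_left (AddSubgroup.mem_sup_left
        (AddSubgroup.subset_closure ⟨ZMod.unitOfCoprime x.val hcop, ?_⟩))
      rw [ZMod.coe_unitOfCoprime, ZMod.natCast_zmod_val]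
    obtain ⟨l, hl, hld⟩ := Nat.exists_prime_and_dvd hd1
    have hdm : d ∣ m := Nat.gcd_dvd_right _ _
    have hlm : l ∣ m := hld.trans hdm
    have hdx : d ∣ x.val := Nat.gcd_dvd_left _ _
    by_cases hcase : l * d ∣ m
    · -- use the distribution relation
      obtain ⟨z0, hz0⟩ := hld.trans hdx
      set z : ZMod m := (z0 : ZMod m) with hz
      have hlz : (l : ZMod m) * z = x := by
        rw [hz, ← Nat.cast_mul, ← hz0, ZMod.natCast_zmod_val]
      have hlt : ∀ y : ZMod m, (l : ZMod m) * y = x → Nat.gcd y.val m < d := by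
        intro y hy
        have h1 : ((l * y.val : ℕ) : ZMod m) = ((x.val : ℕ) : ZMod m) := by
          rw [Nat.cast_mul, ZMod.natCast_zmod_val, ZMod.natCast_zmod_val, hy]
        have h2 : l * y.val ≡ x.val [MOD m] := (ZMod.natCast_eq_natCast_iff _ _ _).1 h1
        have h3 : Nat.gcd (l * y.val) m = d := h2.gcd_eq
        have h4 : Nat.gcd y.val m ∣ d := by
          rw [← h3]
          exact Nat.gcd_dvd_gcd_mul_left_left _ _ _
        refine lt_of_le_of_ne (Nat.le_of_dvd hd0 h4) fun h5 => ?_
        have h6 : d ∣ y.val := by rw [← h5]; exact Nat.gcd_dvd_left _ _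
        have h7 : l * d ∣ Nat.gcd (l * y.val) m := Nat.dvd_gcd (Nat.mul_dvd_mul_left l h6) hcase
        rw [h3] at h7
        have h8 := Nat.le_of_dvd hd0 h7
        have h9 := hl.two_le
        nlinarith
      have hrel : (∑ y ∈ univ.filter (fun y : ZMod m => (l : ZMod m) * y = l * z), e y
          + e (-((l : ZMod m) * z)) + if l = 2 then e ((m / 2 : ℕ) : ZMod m) else 0) ∈ G := by
        refine AddSubgroup.mem_sup_right (AddSubgroup.subset_closure (Or.inl (Or.inr
          ⟨l, hl, hlm, z, ?_, rfl⟩)))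
        rw [hlz]; exact hx
      have hhalf : (if l = 2 then e ((m / 2 : ℕ) : ZMod m) else 0) ∈ G := by
        split_ifs with h2
        · subst h2
          refine hss _ (half_ne_zero hlm) ⟨0, ?_⟩
          obtain ⟨r, hr⟩ := hlm
          have hr2 : m / 2 = r := by omega
          rw [pow_zero, one_mul, eq_neg_iff_add_eq_zero, ← Nat.cast_add,
            ZMod.natCast_eq_zero_iff, hr2]
          exact ⟨1, by omega⟩
        · exact zero_mem _
      have hsum : ∑ y ∈ univ.filter (fun y : ZMod m => (l : ZMod m) * y = l * z), e y ∈ G := by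
        refine AddSubgroup.sum_mem _ fun y hy => ?_
        rw [mem_filter, hlz] at hy
        refine ih y ?_ ?_
        · rintro rfl
          rw [mul_zero] at hy
          exact hx hy.2.symm
        · have := hlt y hy.2
          omega
      have hneg : e (-x) ∈ G := by
        have h1 := sub_mem (sub_mem hrel hhalf) hsum
        rw [hlz] at h1
        have h2 : ∑ y ∈ univ.filter (fun y : ZMod m => (l : ZMod m) * y = x), e y + e (-x) +
            (if l = 2 then e ((m / 2 : ℕ) : ZMod m) else 0) -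
            (if l = 2 then e ((m / 2 : ℕ) : ZMod m) else 0) -
            ∑ y ∈ univ.filter (fun y : ZMod m => (l : ZMod m) * y = x), e y = e (-x) := by abel
        rwa [h2] at h1
      have hpair : e x + e (-x) ∈ G :=
        AddSubgroup.mem_sup_right (AddSubgroup.subset_closure (Or.inl (Or.inl ⟨x, hx, rfl⟩)))
      have h3 := sub_mem hpair hneg
      rwa [add_sub_cancel_right] at h3
    · -- supersingular
      apply hss x hx
      obtain ⟨j, k, hjk⟩ := hn l hl hlm
      obtain ⟨r, hr⟩ := hdm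
      have hlr : ¬ l ∣ r := by
        intro h1
        apply hcase
        rw [hr, mul_comm]
        exact Nat.mul_dvd_mul_left d h1
      have hr1 : r ∣ p ^ j + 1 := by
        have h5 : r ∣ l ^ k * (p ^ j + 1) := (Dvd.intro_left d hr.symm).trans hjk
        have h6 : Nat.Coprime r (l ^ k) :=
          (((Nat.Prime.coprime_iff_not_dvd hl).2 hlr).pow_left k).symm
        exact h6.dvd_of_dvd_mul_left h5
      refine ⟨j, ?_⟩
      have h7 : m ∣ (p ^ j + 1) * x.val := by
        have h9 := Nat.mul_dvd_mul hr1 hdx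
        rwa [mul_comm r d, ← hr] at h9
      have h8 := (ZMod.natCast_eq_zero_iff _ m).2 h7
      push_cast at h8
      rw [ZMod.natCast_zmod_val] at h8
      linear_combination h8

theorem mem_genL (hn : ∀ l : ℕ, l.Prime → l ∣ m → ∃ j k : ℕ, m ∣ l ^ k * (p ^ j + 1)) {v : A m}
    (hv : v 0 = 0) :
    v ∈ AddSubgroup.closure {v : A m | ∃ u : (ZMod m)ˣ, v = e (u : ZMod m)} ⊔
      AddSubgroup.closure (relS1 m p) ⊔ RelA m p := by
  have h1 : v = ∑ x : ZMod m, v x • e x := by
    conv_lhs => rw [← Finsupp.sum_single v]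
    rw [Finsupp.sum_fintype]
    · refine sum_congr rfl fun x _ => ?_
      rw [e, Finsupp.smul_single, smul_eq_mul, mul_one]
    · intro i
      exact Finsupp.single_zero i
  rw [h1]
  refine AddSubgroup.sum_mem _ fun x _ => ?_
  by_cases hx : x = 0
  · subst hx
    rw [hv, zero_smul]
    exact zero_mem _
  · exact AddSubgroup.zsmul_mem _ (e_mem_genL hn _ x hx le_rfl) _

theorem beta_relA (hp : (p : ZMod m) = P) (hf : P ^ f = 1) (t : (ZMod m)ˣ) {v : A m}
    (hv : v ∈ RelA m p) : beta P f t v = 0 := by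
  have h : RelA m p ≤ (beta P f t).ker := by
    unfold RelA
    rw [AddSubgroup.closure_le]
    rintro v ((hv | ⟨l, hl, hlm, hv⟩) | hv)
    · exact beta_relP t hv
    · have h2 : l = 2 → 2 ∣ m := by rintro rfl; exact hlm
      obtain ⟨M, hM⟩ := hlm
      exact beta_relD hM hl.pos h2 t hv
    · exact beta_relF hp hf t hv
  exact h hv

theorem even_cnt_relA {v : A m} (hv : v ∈ RelA m p) : Even (cnt v) := by
  have h : RelA m p ≤ (AddSubgroup.zmultiples (2 : ℤ)).comap cnt := by
    unfold RelA
    rw [AddSubgroup.closure_le]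
    rintro v ((hv | ⟨l, hl, ⟨M, hM⟩, hv⟩) | hv)
    · obtain ⟨c, _, rfl⟩ := hv
      change cnt _ ∈ AddSubgroup.zmultiples (2 : ℤ)
      rw [map_add, cnt_e, cnt_e, Int.mem_zmultiples_iff]
      norm_num
    · have h1 := even_cnt (p := p) hM hl (AddSubgroup.subset_closure (Or.inl (Or.inr hv)))
      change cnt _ ∈ AddSubgroup.zmultiples (2 : ℤ)
      rw [Int.mem_zmultiples_iff]
      exact even_iff_two_dvd.1 h1
    · obtain ⟨x, _, rfl⟩ := hv
      change cnt _ ∈ AddSubgroup.zmultiples (2 : ℤ)
      rw [map_sub, cnt_e, cnt_e, Int.mem_zmultiples_iff]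
      norm_num
  have := h hv
  rw [AddSubgroup.mem_comap, Int.mem_zmultiples_iff] at this
  exact even_iff_two_dvd.2 this

/-- an even number of supersingular elements -/
theorem mem_relSS_of_even {S : Set (ZMod m)} {v : A m}
    (hv : v ∈ AddSubgroup.closure {v : A m | ∃ x ∈ S, v = e x}) (hcnt : Even (cnt v)) :
    v ∈ AddSubgroup.closure {v : A m | ∃ x ∈ S, ∃ y ∈ S, v = e x + e y} := by
  classical
  set R := AddSubgroup.closure {v : A m | ∃ x ∈ S, ∃ y ∈ S, v = e x + e y} with hR
  -- every element is in `R` or in `e x + R`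
  have hkey : (Even (cnt v) → v ∈ R) ∧ (¬ Even (cnt v) → ∀ x ∈ S, v + e x ∈ R) := by
    clear hcnt
    induction hv using AddSubgroup.closure_induction with
    | mem v hv =>
      obtain ⟨y, hy, rfl⟩ := hv
      rw [cnt_e]
      refine ⟨fun h => absurd h (by decide), fun _ x hx => ?_⟩
      exact AddSubgroup.subset_closure ⟨y, hy, x, hx, rfl⟩
    | zero =>
      rw [map_zero]
      exact ⟨fun _ => zero_mem _, fun h => absurd Even.zero h⟩
    | add v w _ _ hv hw =>
      rw [map_add]
      by_cases h1 : Even (cnt v)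
      · by_cases h2 : Even (cnt w)
        · exact ⟨fun _ => add_mem (hv.1 h1) (hw.1 h2), fun h => absurd (h1.add h2) h⟩
        · refine ⟨fun h => absurd ((Int.even_add.1 h).1 h1) h2, fun _ x hx => ?_⟩
          rw [add_assoc]
          exact add_mem (hv.1 h1) (hw.2 h2 x hx)
      · by_cases h2 : Even (cnt w)
        · refine ⟨fun h => absurd ((Int.even_add.1 h).2 h2) h1, fun _ x hx => ?_⟩
          rw [add_right_comm]
          exact add_mem (hv.2 h1 x hx) (hw.1 h2)
        · refine ⟨fun _ => ?_, fun h => absurd (Int.even_add.2 ⟨fun h3 => absurd h3 h1,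
            fun h3 => absurd h3 h2⟩) h⟩
          by_cases hS : S.Nonempty
          · obtain ⟨x, hx⟩ := hS
            have h3 := add_mem (hv.2 h1 x hx) (hw.2 h2 x hx)
            have h4 : e x + e x ∈ R := AddSubgroup.subset_closure ⟨x, hx, x, hx, rfl⟩
            have h5 := sub_mem h3 h4
            have h6 : v + e x + (w + e x) - (e x + e x) = v + w := by abel
            rwa [h6] at h5
          · exfalso
            rename_i hvm _
            have h7 : ({v : A m | ∃ x ∈ S, v = e x} : Set (A m)) = ∅ := by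
              ext v
              simp only [Set.mem_ofPred_eq, Set.mem_empty_iff_false, iff_false]
              rintro ⟨x, hx, _⟩
              exact hS ⟨x, hx⟩
            rw [h7, AddSubgroup.closure_empty, AddSubgroup.mem_bot] at hvm
            rw [hvm, map_zero] at h2
            exact h2 Even.zero
    | neg v _ hv =>
      rw [map_neg]
      by_cases h1 : Even (cnt v)
      · exact ⟨fun _ => neg_mem (hv.1 h1), fun h => absurd h1.neg h⟩
      · refine ⟨fun h => absurd (by simpa using h.neg) h1, fun _ x hx => ?_⟩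
        have h2 := neg_mem (hv.2 h1 x hx)
        have h4 : e x + e x ∈ R := AddSubgroup.subset_closure ⟨x, hx, x, hx, rfl⟩
        have h5 := add_mem h2 h4
        have h6 : -(v + e x) + (e x + e x) = -v + e x := by abel
        rwa [h6] at h5
  exact hkey.1 hcnt

theorem mem_closure_relSS {v : A m} (hv : v ∈ AddSubgroup.closure (relS1 m p))
    (hcnt : Even (cnt v)) : v ∈ AddSubgroup.closure (relSS m p) := by
  have h1 : relS1 m p = {v : A m | ∃ x ∈ {x : ZMod m | x ≠ 0 ∧ IsSS p x}, v = e x} := by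
    ext v
    constructor
    · rintro ⟨x, h1, h2, h3⟩
      exact ⟨x, ⟨h1, h2⟩, h3⟩
    · rintro ⟨x, ⟨h1, h2⟩, h3⟩
      exact ⟨x, h1, h2, h3⟩
  rw [h1] at hv
  refine AddSubgroup.closure_mono ?_ (mem_relSS_of_even hv hcnt)
  rintro v ⟨x, ⟨h1, h2⟩, y, ⟨h3, h4⟩, h5⟩
  exact ⟨x, y, h1, h3, h2, h4, h5⟩

theorem mem_relG_of_relL {v : A m} (hv : v ∈ RelL m p) (hcnt : Even (cnt v)) : v ∈ RelG m p := by
  obtain ⟨r, hr, s, hs, rfl⟩ := AddSubgroup.mem_sup.1 hv
  rw [map_add] at hcnt
  have h1 := even_cnt_relA hr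
  exact add_mem (AddSubgroup.mem_sup_left hr)
    (AddSubgroup.mem_sup_right (mem_closure_relSS hs ((Int.even_add.1 hcnt).1 h1)))

/-- Balanced elements. -/
theorem mem_relL (hn : ∀ l : ℕ, l.Prime → l ∣ m → ∃ j k : ℕ, m ∣ l ^ k * (p ^ j + 1))
    (hp : (p : ZMod m) = P) (hf : P ^ f = 1) (hf0 : f ≠ 0) {v : A m}
    (hv0 : v 0 = 0) (hbal : ∀ t, beta P f t v = 0) : v ∈ RelL m p := by
  by_cases hneg : (-1 : (ZMod m)ˣ) ∈ Subgroup.zpowers P
  · -- everything is supersingular
    rw [← mem_powers_iff_mem_zpowers] at hneg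
    obtain ⟨j, hj⟩ := hneg
    have hj' : (p : ZMod m) ^ j = -1 := by
      rw [hp, ← Units.val_pow_eq_pow_val]
      have : P ^ j = -1 := hj
      rw [this, Units.val_neg, Units.val_one]
    refine AddSubgroup.mem_sup_right ?_
    have h1 : v = ∑ x : ZMod m, v x • e x := by
      conv_lhs => rw [← Finsupp.sum_single v]
      rw [Finsupp.sum_fintype]
      · refine sum_congr rfl fun x _ => ?_
        rw [e, Finsupp.smul_single, smul_eq_mul, mul_one]
      · intro i
        exact Finsupp.single_zero i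
    rw [h1]
    refine AddSubgroup.sum_mem _ fun x _ => ?_
    by_cases hx : x = 0
    · subst hx
      rw [hv0, zero_smul]
      exact zero_mem _
    · exact AddSubgroup.zsmul_mem _ (AddSubgroup.subset_closure
        (show e x ∈ relS1 m p from ⟨x, hx, ⟨j, by rw [hj', neg_one_mul]⟩, rfl⟩)) _
  have hm1 : m ≠ 1 := by
    rintro rfl
    exact hneg (by rw [Subsingleton.elim (-1 : (ZMod 1)ˣ) 1]; exact one_mem _)
  obtain ⟨y, hy, r, hr, hyr⟩ := AddSubgroup.mem_sup.1 (mem_genL hn hv0)
  obtain ⟨w, hw, s, hs, hws⟩ := AddSubgroup.mem_sup.1 hy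
  obtain ⟨w', hw'⟩ := exists_coef hw
  have hbs : ∀ t, beta P f t s = 0 := by
    intro t
    have h : AddSubgroup.closure (relS1 m p) ≤ (beta P f t).ker := by
      rw [AddSubgroup.closure_le]
      rintro v ⟨x, hx, hs, rfl⟩
      exact beta_S1 hp hf t hx hs
    exact h hs
  have hveq : v = w + s + r := by rw [← hyr, ← hws]
  have hbw : ∀ t, beta P f t w = 0 := by
    intro t
    have h1 := hbal t
    rw [hveq, map_add, map_add, hbs t, beta_relA hp hf t hr, add_zero, add_zero] at h1
    exact h1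
  have hpm : p.Coprime m := by
    have h1 : IsUnit (p : ZMod m) := ⟨P, hp.symm⟩
    exact (ZMod.isUnit_iff_coprime p m).1 h1
  have hwR : w ∈ RelA m p := by
    -- choose any prime divisor to apply `units_mem_rel`
    obtain ⟨l, hl, hlm⟩ := Nat.exists_prime_and_dvd hm1
    apply Rel_le_RelA hl hlm
    rw [hw']
    have hW := even_of_sum_eq_zero_inv (m := m) hm1 P ?_
      (fun u => ∑ j ∈ range f, w' ((P ^ j)⁻¹ * u)) ?_ ?_
    · exact units_mem_rel hp hf hf0 hneg w' hW hm1
    · intro χ hχ hχP
      refine LFunction_zero_ne_zero_gen hn hpm hχ ?_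
      rw [hp]; exact hχP
    · intro u
      have h1 := sum_range_succ (fun j => w' ((P ^ j)⁻¹ * (P * u))) f
      have h2 := sum_range_succ' (fun j => w' ((P ^ j)⁻¹ * (P * u))) f
      rw [h1] at h2
      have h3 : ∀ j, (P ^ (j + 1))⁻¹ * (P * u) = (P ^ j)⁻¹ * u := by
        intro j
        rw [pow_succ, mul_inv_rev, mul_assoc, mul_comm P⁻¹, mul_assoc, mul_comm (P * u),
          inv_mul_cancel_left]
      simp only [h3, hf, pow_zero] at h2
      exact add_right_cancel h2
    · intro t
      have h1 := hbw t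
      rw [hw', map_sum] at h1
      simp_rw [map_zsmul, beta_e, zsmul_eq_mul, mul_sum] at h1
      rw [← h1]
      push_cast
      simp_rw [sum_mul]
      rw [sum_comm]
      conv_rhs => rw [sum_comm]
      refine sum_congr rfl fun j _ => ?_
      refine Fintype.sum_equiv (Equiv.mulLeft (P ^ j)⁻¹) _ _ fun u => ?_
      rw [Equiv.coe_mulLeft]
      congr 2
      push_cast
      rw [mul_comm ((P : ZMod m) ^ j), mul_assoc, ← mul_assoc ((P : ZMod m) ^ j)]
      congr 1
      have h5 : (P : ZMod m) ^ j * (((P ^ j)⁻¹ : (ZMod m)ˣ) : ZMod m) = 1 := by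
        rw [← Units.val_pow_eq_pow_val, Units.mul_inv]
      rw [← inv_pow, Units.val_pow_eq_pow_val] at h5
      rw [h5, one_mul]
  rw [hveq]
  exact add_mem (add_mem (AddSubgroup.mem_sup_left hwR) (AddSubgroup.mem_sup_right hs))
    (AddSubgroup.mem_sup_left hr)

end Pool.Stick
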