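import Pool.Agent.Stick.Gen2

/-!
Twice an odd modulus.
-/

open Finset

namespace Pool.Stick

open Pool.Agent.StarkRQ

variable {n : ℕ} [NeZero n] [NeZero (2 * n)]

theorem JJ_RelL (hnodd : Odd n) {p : ℕ} {v : A n} (hv : v ∈ RelL n p) :
    JJ n v ∈ RelL (2 * n) p := by
  have h1 : RelA n p ≤ (RelL (2 * n) p).comap (JJ n) := by
    unfold RelA
    rw [AddSubgroup.closure_le]
    rintro v ((⟨x, hx, rfl⟩ | ⟨l, hl, ⟨M, hM⟩, hv⟩) | ⟨x, hx, rfl⟩)
    · change JJ n _ ∈ RelL (2 * n) p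
      rw [map_add, JJ_e, JJ_e, jj_neg]
      exact AddSubgroup.mem_sup_left
        (AddSubgroup.subset_closure (Or.inl (Or.inl ⟨_, jj_ne_zero hx, rfl⟩)))
    · change JJ n _ ∈ RelL (2 * n) p
      have hl2 : l ≠ 2 := by
        rintro rfl
        rw [hM] at hnodd
        exact absurd hnodd (by simp)
      refine AddSubgroup.mem_sup_left
        (AddSubgroup.subset_closure (Or.inl (Or.inr ⟨l, hl, ?_, JJ_relD hl hl2 hM hv⟩)))
      exact ⟨2 * M, by rw [hM]; ring⟩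
    · change JJ n _ ∈ RelL (2 * n) p
      rw [map_sub, JJ_e, JJ_e, jj_mul]
      exact AddSubgroup.mem_sup_left
        (AddSubgroup.subset_closure (Or.inr ⟨_, jj_ne_zero hx, rfl⟩))
  have h2 : AddSubgroup.closure (relS1 n p) ≤ (RelL (2 * n) p).comap (JJ n) := by
    rw [AddSubgroup.closure_le]
    rintro v ⟨x, hx, ⟨j, hj⟩, rfl⟩
    change JJ n _ ∈ RelL (2 * n) p
    rw [JJ_e]
    refine AddSubgroup.mem_sup_right (AddSubgroup.subset_closure
      (show e (jj n x) ∈ relS1 (2 * n) p from ⟨_, jj_ne_zero hx, ⟨j, ?_⟩, rfl⟩))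
    have h3 := jj_mul (n := n) (p ^ j) x
    push_cast at h3
    rw [← h3, hj, jj_neg]
  exact (sup_le h1 h2) hv

/-- twice an odd modulus -/
theorem mem_relL_twice {p f : ℕ} (hnodd : Odd n)
    (hn : ∀ l : ℕ, l.Prime → l ∣ n → ∃ j k : ℕ, n ∣ l ^ k * (p ^ j + 1))
    {P : (ZMod (2 * n))ˣ} (hp : (p : ZMod (2 * n)) = P) (hf : P ^ f = 1) (hf0 : f ≠ 0)
    {v : A (2 * n)} (hv0 : v 0 = 0)
    (hbal : ∀ t, beta P f t v = 0) : v ∈ RelL (2 * n) p := by
  have h22 : (2 : ℕ) = 2 → 2 ∣ 2 * n := fun _ => dvd_mul_right _ _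
  set P' : (ZMod n)ˣ := ZMod.unitsMap (dvd_mul_left n 2) P with hP'
  have hp' : (p : ZMod n) = P' := by
    rw [hP', ZMod.unitsMap_val, ← hp, ZMod.cast_natCast (dvd_mul_left n 2)]
  have hf' : P' ^ f = 1 := by rw [hP', ← map_pow, hf, map_one]
  have hv := mem_genE hnodd hv0
  unfold genE at hv
  obtain ⟨y, hy, r, hr, hyr⟩ := AddSubgroup.mem_sup.1 hv
  obtain ⟨w1, hw1, z, hz, hwz⟩ := AddSubgroup.mem_sup.1 hy
  obtain ⟨w, hw, rfl⟩ := hw1
  obtain ⟨c, hc⟩ := AddSubgroup.mem_zmultiples_iff.1 hz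
  have hw0 : w 0 = 0 := hw
  have hrR : r ∈ Rel (2 * n) 2 p := sub_rel hr
  have hveq : v = JJ n w + c • half (2 * n) 2 + r := by rw [← hyr, ← hwz, ← hc]
  -- the functionals
  have hbJ : ∀ (t : (ZMod (2 * n))ˣ) (u : A n), beta P f t (JJ n u)
      = beta P' f (ZMod.unitsMap (dvd_mul_left n 2) t) u := by
    intro t u
    have h1 : (beta P f t).comp (JJ n) = beta P' f (ZMod.unitsMap (dvd_mul_left n 2) t) := by
      refine Finsupp.addHom_ext fun x b => ?_
      have h2 : (Finsupp.single x b : A n) = b • e x := by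
        rw [e, Finsupp.smul_single, smul_eq_mul, mul_one]
      rw [h2, map_zsmul, map_zsmul, AddMonoidHom.comp_apply, JJ_e, beta_e, beta_e]
      congr 1
      refine sum_congr rfl fun j _ => ?_
      rw [unit_mul_jj, hh_jj, map_mul, map_pow]
    exact DFunLike.congr_fun h1 u
  have hbw : ∀ t, beta P' f t w = 0 := by
    intro t
    obtain ⟨t', rfl⟩ := ZMod.unitsMap_surjective (dvd_mul_left n 2) t
    rw [← hbJ]
    have h1 := hbal t'
    rw [hveq, map_add, map_add, map_zsmul, beta_half h22 t', smul_zero, add_zero,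
      beta_rel (M := n) rfl (by norm_num) h22 hp hf t' hrR, add_zero] at h1
    exact h1
  have hJw := JJ_RelL hnodd (mem_relL hn hp' hf' hf0 hw0 hbw)
  have hle : Rel (2 * n) 2 p ≤ RelA (2 * n) p := Rel_le_RelA Nat.prime_two (dvd_mul_right _ _)
  have hhalf : half (2 * n) 2 ∈ RelL (2 * n) p := by
    have h3 : half (2 * n) 2 = e ((2 * n / 2 : ℕ) : ZMod (2 * n)) := if_pos rfl
    rw [h3]
    refine AddSubgroup.mem_sup_right (AddSubgroup.subset_closure
      (show e _ ∈ relS1 (2 * n) p from ⟨_, half_ne_zero (dvd_mul_right _ _), ⟨0, ?_⟩, rfl⟩))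
    rw [pow_zero, one_mul, eq_neg_iff_add_eq_zero, ← Nat.cast_add, ZMod.natCast_eq_zero_iff]
    exact ⟨1, by omega⟩
  rw [hveq]
  exact add_mem (add_mem hJw (AddSubgroup.zsmul_mem _ hhalf _))
    (AddSubgroup.mem_sup_left (hle hrR))

end Pool.Stick
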