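import Pool.Agent.Stick.AlgDef

/-!
The classes of multisets of elements of `ZMod m` which are given by known algebraic cycles on
products of the curves `y ^ q - y = x ^ m` and on Fermat varieties.
-/

namespace Pool.Stick

/-- `AlgG p s`: the tensor product of the eigenspaces `c ∈ s` of the first cohomology groups of the
curves `y ^ q - y = x ^ m` over the algebraic closure of `𝔽_p` is spanned by the class of an
algebraic cycle, obtained from the polarisations, the graphs of Frobenius, homomorphisms between
supersingular abelian varieties, and Aoki's cycles. -/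
inductive AlgG (p : ℕ) {m : ℕ} [NeZero m] : Multiset (ZMod m) → Prop
  /-- the empty multiset -/
  | zero : AlgG p 0
  /-- products -/
  | add {s t : Multiset (ZMod m)} : AlgG p s → AlgG p t → AlgG p (s + t)
  /-- removal of a pair `c, -c` -/
  | cancel {s : Multiset (ZMod m)} (c : ZMod m) : c ≠ 0 → AlgG p (s + {c, -c}) → AlgG p s
  /-- polarisation -/
  | pair (c : ZMod m) : c ≠ 0 → AlgG p {c, -c}
  /-- Aoki's cycles -/
  | dist (l : ℕ) (x : ZMod m) : l.Prime → l ∣ m → (l : ZMod m) * x ≠ 0 → AlgG p (distSet m l x)
  /-- the graph of the Frobenius morphism -/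
  | frob (x : ZMod m) : x ≠ 0 → AlgG p {x, -((p : ZMod m) * x)}
  /-- the product of two supersingular factors -/
  | super (x y : ZMod m) (i j : ℕ) : x ≠ 0 → y ≠ 0 → (p : ZMod m) ^ i * x = -x →
      (p : ZMod m) ^ j * y = -y → AlgG p {x, y}

/-- `AlgF p s`: the character `s` occurs in the cohomology of the Fermat variety of degree `m` and
dimension `s.card - 2` in characteristic `p` and is spanned by the class of an algebraic cycle which
is obtained from linear subspaces, Aoki's cycles, and homomorphisms between factors of the Jacobian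
of the Fermat curve, by the inductive structure of Shioda and Katsura. -/
inductive AlgF (p : ℕ) {m : ℕ} [NeZero m] : Multiset (ZMod m) → Prop
  /-- the empty multiset -/
  | zero : AlgF p 0
  /-- joins -/
  | add {s t : Multiset (ZMod m)} : AlgF p s → AlgF p t → AlgF p (s + t)
  /-- removal of a pair `c, -c` -/
  | cancel {s : Multiset (ZMod m)} (c : ZMod m) : c ≠ 0 → AlgF p (s + {c, -c}) → AlgF p s
  /-- linear subspaces -/
  | pair (c : ZMod m) : c ≠ 0 → AlgF p {c, -c}
  /-- Aoki's cycles -/
  | dist (l : ℕ) (x : ZMod m) : l.Prime → l ∣ m → (l : ZMod m) * x ≠ 0 → AlgF p (distSet m l x)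
  /-- divisors on the product of the Fermat curve with itself -/
  | curves (x y z x' y' z' : ZMod m) : x ≠ 0 → y ≠ 0 → z ≠ 0 → x' ≠ 0 → y' ≠ 0 → z' ≠ 0 →
      x + y + z = 0 → x' + y' + z' = 0 → AlgG p {x, y, z, x', y', z'} →
      AlgF p {x, y, z, x', y', z'}

end Pool.Stick
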