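import Pool.Agent.Stick.Gen3
import Pool.Agent.Stick.Alg
import Pool.Agent.Stick.GenDef
import Pool.Agent.Stick.Conv

/-!
Closure properties and the elements with sum zero.
-/

open Finset

namespace Pool.Stick

section closure

variable {m : ℕ} [NeZero m] {p : ℕ}

omit [NeZero m] in
/-- A class of multisets which is closed under the operations contains all multisets in the
subgroup which it generates. -/
theorem of_mem_closure {𝒜 : Multiset (ZMod m) → Prop} (h0 : 𝒜 0)
    (hadd : ∀ s t, 𝒜 s → 𝒜 t → 𝒜 (s + t))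
    (hcancel : ∀ s c, c ≠ 0 → 𝒜 (s + {c, -c}) → 𝒜 s)
    (hneg : ∀ s, 𝒜 s → 𝒜 (s.map Neg.neg)) (hz : ∀ s, 𝒜 s → (0 : ZMod m) ∉ s) {S : Set (A m)}
    (hS : ∀ v ∈ S, ∃ s, 𝒜 s ∧ v = toA s) {s : Multiset (ZMod m)}
    (hs : toA s ∈ AddSubgroup.closure S) : 𝒜 s := by
  have h1 : ∀ v ∈ AddSubgroup.closure S, ∃ s t, 𝒜 s ∧ 𝒜 t ∧ v = toA s - toA t := by
    intro v hv
    induction hv using AddSubgroup.closure_induction with
    | mem x hx =>
      obtain ⟨s, hs, rfl⟩ := hS x hx
      exact ⟨s, 0, hs, h0, by rw [toA_zero, sub_zero]⟩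
    | zero => exact ⟨0, 0, h0, h0, by rw [sub_self]⟩
    | add x y _ _ hx hy =>
      obtain ⟨s, t, hs, ht, rfl⟩ := hx
      obtain ⟨s', t', hs', ht', rfl⟩ := hy
      exact ⟨s + s', t + t', hadd _ _ hs hs', hadd _ _ ht ht', by rw [toA_add, toA_add]; abel⟩
    | neg x _ hx =>
      obtain ⟨s, t, hs, ht, rfl⟩ := hx
      exact ⟨t, s, ht, hs, by abel⟩
  obtain ⟨s1, s2, h2, h3, h⟩ := h1 _ hs
  have h4 : s + s2 = s1 := by
    apply toA_inj
    rw [toA_add, h]; abel
  have h5 : ∀ t : Multiset (ZMod m), ∀ s : Multiset (ZMod m), (0 : ZMod m) ∉ t →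
      𝒜 (s + (t + t.map Neg.neg)) → 𝒜 s := by
    intro t
    induction t using Multiset.induction_on with
    | empty => intro s _ h; simpa using h
    | cons c t ih =>
      intro s h0 h
      rw [Multiset.mem_cons, not_or] at h0
      apply ih s h0.2
      apply hcancel _ c (Ne.symm h0.1)
      have h1 : s + (t + t.map Neg.neg) + {c, -c} = s + (c ::ₘ t + (c ::ₘ t).map Neg.neg) := by
        rw [Multiset.map_cons, Multiset.insert_eq_cons, ← Multiset.singleton_add c t,
          ← Multiset.singleton_add (-c), ← Multiset.singleton_add c {-c}]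
        abel
      rw [h1]
      exact h
  apply h5 s2 s (hz _ h3)
  rw [← add_assoc, h4]
  exact hadd _ _ h2 (hneg _ h3)

theorem algG_neg {s : Multiset (ZMod m)} (hs : AlgG p s) : AlgG p (s.map Neg.neg) := by
  induction hs with
  | zero => exact AlgG.zero
  | add _ _ h1 h2 => rw [Multiset.map_add]; exact AlgG.add h1 h2
  | cancel c hc _ h =>
    refine AlgG.cancel (-c) (neg_ne_zero.2 hc) ?_
    rw [Multiset.map_add] at h
    simpa using h
  | pair c hc =>
    have := AlgG.pair (p := p) (-c) (neg_ne_zero.2 hc)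
    simpa using this
  | dist l x hl hlm hx =>
    rw [distSet_neg l x hlm]
    exact AlgG.dist l (-x) hl hlm (by rw [mul_neg]; exact neg_ne_zero.2 hx)
  | frob x hx =>
    have := AlgG.frob (p := p) (-x) (neg_ne_zero.2 hx)
    simpa using this
  | super x y i j hx hy h1 h2 =>
    have := AlgG.super (p := p) (-x) (-y) i j (neg_ne_zero.2 hx) (neg_ne_zero.2 hy)
      (by rw [mul_neg, h1]) (by rw [mul_neg, h2])
    simpa using this

theorem algG_zero_notMem (hp : IsUnit (p : ZMod m)) {s : Multiset (ZMod m)} (hs : AlgG p s) :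
    (0 : ZMod m) ∉ s := by
  obtain ⟨P, hP⟩ := hp
  have hpx : ∀ x : ZMod m, x ≠ 0 → (0 : ZMod m) ≠ -((p : ZMod m) * x) := by
    intro x hx h
    rw [← hP] at h
    exact unit_mul_ne_zero P hx (neg_eq_zero.1 h.symm)
  induction hs with
  | zero => exact Multiset.notMem_zero _
  | add _ _ h1 h2 => rw [Multiset.mem_add, not_or]; exact ⟨h1, h2⟩
  | cancel c hc _ h =>
    rw [Multiset.mem_add, not_or] at h
    exact h.1
  | pair c hc => simp [hc, hc.symm]
  | dist l x hl hlm hx => exact zero_notMem_distSet hlm hx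
  | frob x hx =>
    simp only [Multiset.insert_eq_cons, Multiset.mem_cons, Multiset.mem_singleton, not_or]
    exact ⟨hx.symm, hpx x hx⟩
  | super x y i j hx hy h1 h2 =>
    simp only [Multiset.insert_eq_cons, Multiset.mem_cons, Multiset.mem_singleton, not_or]
    exact ⟨hx.symm, hy.symm⟩

/-- the graph of Frobenius -/
def relF' (m p : ℕ) : Set (A m) := {v | ∃ x : ZMod m, x ≠ 0 ∧ v = e x + e (-((p : ZMod m) * x))}

theorem relG_le (hp : IsUnit (p : ZMod m)) :
    RelG m p ≤ AddSubgroup.closure (relP m ∪ relDD m ∪ relF' m p ∪ relSS m p) := by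
  obtain ⟨P, hP⟩ := hp
  refine sup_le ?_ ?_
  · unfold RelA
    rw [AddSubgroup.closure_le]
    rintro v ((hv | hv) | ⟨x, hx, rfl⟩)
    · exact AddSubgroup.subset_closure (Or.inl (Or.inl (Or.inl hv)))
    · exact AddSubgroup.subset_closure (Or.inl (Or.inl (Or.inr hv)))
    · have hpx : (p : ZMod m) * x ≠ 0 := by
        rw [← hP]
        exact unit_mul_ne_zero P hx
      have h1 : e x + e (-((p : ZMod m) * x)) ∈
          AddSubgroup.closure (relP m ∪ relDD m ∪ relF' m p ∪ relSS m p) :=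
        AddSubgroup.subset_closure (Or.inl (Or.inr ⟨x, hx, rfl⟩))
      have h2 : e ((p : ZMod m) * x) + e (-((p : ZMod m) * x)) ∈
          AddSubgroup.closure (relP m ∪ relDD m ∪ relF' m p ∪ relSS m p) :=
        AddSubgroup.subset_closure (Or.inl (Or.inl (Or.inl ⟨_, hpx, rfl⟩)))
      have h3 := sub_mem h1 h2
      have h4 : e x + e (-((p : ZMod m) * x)) - (e ((p : ZMod m) * x) + e (-((p : ZMod m) * x)))
          = e x - e ((p : ZMod m) * x) := by abel
      rwa [h4] at h3
  · exact AddSubgroup.closure_mono Set.subset_union_right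

theorem algG_of_relG (hp : IsUnit (p : ZMod m)) {s : Multiset (ZMod m)}
    (hs : toA s ∈ RelG m p) : AlgG p s := by
  refine of_mem_closure AlgG.zero (fun _ _ => AlgG.add) (fun _ c => AlgG.cancel c)
    (fun _ => algG_neg) (fun _ => algG_zero_notMem hp) ?_ (relG_le hp hs)
  rintro v (((⟨c, hc, rfl⟩ | ⟨l, hl, hlm, x, hx, rfl⟩) | ⟨x, hx, rfl⟩) |
    ⟨x, y, hx, hy, ⟨i, hi⟩, ⟨j, hj⟩, rfl⟩)
  · refine ⟨{c, -c}, AlgG.pair c hc, ?_⟩
    rw [Multiset.insert_eq_cons, toA_cons, toA_singleton]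
  · refine ⟨distSet m l x, AlgG.dist l x hl hlm hx, ?_⟩
    unfold distSet
    rw [toA_add, toA_add, toA_singleton]
    congr 1
    split_ifs
    · rw [toA_singleton]
    · rw [toA_zero]
  · refine ⟨_, AlgG.frob x hx, ?_⟩
    rw [Multiset.insert_eq_cons, toA_cons, toA_singleton]
  · refine ⟨{x, y}, AlgG.super x y i j hx hy hi hj, ?_⟩
    rw [Multiset.insert_eq_cons, toA_cons, toA_singleton]

theorem algF_neg {s : Multiset (ZMod m)} (hs : AlgF p s) : AlgF p (s.map Neg.neg) := by
  induction hs with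
  | zero => exact AlgF.zero
  | add _ _ h1 h2 => rw [Multiset.map_add]; exact AlgF.add h1 h2
  | cancel c hc _ h =>
    refine AlgF.cancel (-c) (neg_ne_zero.2 hc) ?_
    rw [Multiset.map_add] at h
    simpa using h
  | pair c hc =>
    have := AlgF.pair (p := p) (-c) (neg_ne_zero.2 hc)
    simpa using this
  | dist l x hl hlm hx =>
    rw [distSet_neg l x hlm]
    exact AlgF.dist l (-x) hl hlm (by rw [mul_neg]; exact neg_ne_zero.2 hx)
  | curves x y z x' y' z' hx hy hz hx' hy' hz' h1 h2 h3 =>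
    have h4 := algG_neg h3
    have := AlgF.curves (p := p) (-x) (-y) (-z) (-x') (-y') (-z') (neg_ne_zero.2 hx)
      (neg_ne_zero.2 hy) (neg_ne_zero.2 hz) (neg_ne_zero.2 hx') (neg_ne_zero.2 hy')
      (neg_ne_zero.2 hz') (by linear_combination -h1) (by linear_combination -h2)
      (by simpa using h4)
    simpa using this

theorem algF_algG {s : Multiset (ZMod m)} (hs : AlgF p s) : AlgG p s := by
  induction hs with
  | zero => exact AlgG.zero
  | add _ _ h1 h2 => exact AlgG.add h1 h2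
  | cancel c hc _ h => exact AlgG.cancel c hc h
  | pair c hc => exact AlgG.pair c hc
  | dist l x hl hlm hx => exact AlgG.dist l x hl hlm hx
  | curves x y z x' y' z' hx hy hz hx' hy' hz' h1 h2 h3 => exact h3

theorem algF_sum {s : Multiset (ZMod m)} (hs : AlgF p s) : s.sum = 0 := by
  induction hs with
  | zero => rfl
  | add _ _ h1 h2 => rw [Multiset.sum_add, h1, h2, add_zero]
  | cancel c hc _ h =>
    rw [Multiset.sum_add] at h
    simpa using h
  | pair c hc => simp
  | dist l x hl hlm hx => rw [← sg_toA]; exact sg_relD hl hlm (toA_distSet l x hx)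
  | curves x y z x' y' z' hx hy hz hx' hy' hz' h1 h2 h3 =>
    simp only [Multiset.insert_eq_cons, Multiset.sum_cons, Multiset.sum_singleton]
    linear_combination h1 + h2

/-- two triples -/
def relC (m p : ℕ) [NeZero m] : Set (A m) := {v | ∃ x y z x' y' z' : ZMod m, x ≠ 0 ∧ y ≠ 0 ∧
  z ≠ 0 ∧ x' ≠ 0 ∧ y' ≠ 0 ∧ z' ≠ 0 ∧ x + y + z = 0 ∧ x' + y' + z' = 0 ∧
  AlgG p {x, y, z, x', y', z'} ∧ v = e x + e y + e z + e x' + e y' + e z'}

theorem algF_of_relC (hp : IsUnit (p : ZMod m)) {s : Multiset (ZMod m)}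
    (hs : toA s ∈ AddSubgroup.closure (relP m ∪ relDD m ∪ relC m p)) : AlgF p s := by
  refine of_mem_closure AlgF.zero (fun _ _ => AlgF.add) (fun _ c => AlgF.cancel c)
    (fun _ => algF_neg) (fun _ h => algG_zero_notMem hp (algF_algG h)) ?_ hs
  rintro v ((⟨c, hc, rfl⟩ | ⟨l, hl, hlm, x, hx, rfl⟩) |
    ⟨x, y, z, x', y', z', hx, hy, hz, hx', hy', hz', h1, h2, h3, rfl⟩)
  · refine ⟨{c, -c}, AlgF.pair c hc, ?_⟩
    rw [Multiset.insert_eq_cons, toA_cons, toA_singleton]
  · refine ⟨distSet m l x, AlgF.dist l x hl hlm hx, ?_⟩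
    unfold distSet
    rw [toA_add, toA_add, toA_singleton]
    congr 1
    split_ifs
    · rw [toA_singleton]
    · rw [toA_zero]
  · refine ⟨_, AlgF.curves x y z x' y' z' hx hy hz hx' hy' hz' h1 h2 h3, ?_⟩
    simp only [Multiset.insert_eq_cons, toA_cons, toA_singleton]
    abel

theorem algG_sum_of_balanced_even {s : Multiset (ZMod m)} (hs : AlgG p s) : Even s.card := by
  induction hs with
  | zero => simp
  | add _ _ h1 h2 => rw [Multiset.card_add]; exact h1.add h2
  | cancel c hc _ h =>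
    rw [Multiset.card_add] at h
    have h2 : Multiset.card ({c, -c} : Multiset (ZMod m)) = 2 := rfl
    rw [h2] at h
    exact (Nat.even_add.1 h).2 (by decide)
  | pair c hc => exact ⟨1, rfl⟩
  | dist l x hl hlm hx =>
    obtain ⟨M, hM⟩ := hlm
    have h1 := even_cnt (p := p) hM hl
      (AddSubgroup.subset_closure (Or.inl (Or.inr (toA_distSet l x hx))))
    rw [cnt_toA] at h1
    exact_mod_cast h1
  | frob x hx => exact ⟨1, rfl⟩
  | super x y i j hx hy h1 h2 => exact ⟨1, rfl⟩

variable {P : (ZMod m)ˣ} {f : ℕ}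

theorem algG_balanced (hp : (p : ZMod m) = P) (hf : P ^ f = 1) (t : (ZMod m)ˣ)
    {s : Multiset (ZMod m)} (hs : AlgG p s) : beta P f t (toA s) = 0 := by
  induction hs with
  | zero => rw [toA_zero, map_zero]
  | add _ _ h1 h2 => rw [toA_add, map_add, h1, h2, add_zero]
  | cancel c hc _ h =>
    rw [toA_add, map_add, Multiset.insert_eq_cons, toA_cons, toA_singleton, map_add,
      beta_e_neg t hc] at h
    linarith
  | pair c hc =>
    rw [Multiset.insert_eq_cons, toA_cons, toA_singleton, map_add, beta_e_neg t hc]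
    ring
  | dist l x hl hlm hx =>
    have h2 : l = 2 → 2 ∣ m := by rintro rfl; exact hlm
    obtain ⟨M, hM⟩ := hlm
    exact beta_relD hM hl.pos h2 t (toA_distSet l x hx)
  | frob x hx =>
    have hpx : (p : ZMod m) * x ≠ 0 := by
      rw [hp]
      exact unit_mul_ne_zero _ hx
    rw [Multiset.insert_eq_cons, toA_cons, toA_singleton, map_add, beta_e_neg t hpx,
      beta_e_mul hp hf t hx]
    ring
  | super x y i j hx hy h1 h2 =>
    rw [Multiset.insert_eq_cons, toA_cons, toA_singleton, map_add,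
      beta_S1 hp hf t hx ⟨i, h1⟩, beta_S1 hp hf t hy ⟨j, h2⟩]
    ring

end closure

end Pool.Stick
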