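import Pool.Agent.Stick.Gen4

/-!
The elements with sum zero.
-/

open Finset

namespace Pool.Stick

variable {m : ℕ} [NeZero m] {p : ℕ} {P : (ZMod m)ˣ}

/-- pairs of supersingular elements whose sum is divisible by `1 - p` -/
def relSI (m p : ℕ) : Set (A m) := {v | ∃ x y a : ZMod m, x ≠ 0 ∧ y ≠ 0 ∧ IsSS p x ∧ IsSS p y ∧
  (1 - (p : ZMod m)) * a = x + y ∧ v = e x + e y}

/-- the subgroup generated by the cycles on Fermat varieties -/
noncomputable def RelC (m p : ℕ) [NeZero m] : AddSubgroup (A m) :=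
  AddSubgroup.closure (relP m ∪ relDD m ∪ relC m p)

theorem algG_six_frob {x y z : ZMod m} (hx : x ≠ 0) (hy : y ≠ 0) (hz : z ≠ 0) :
    AlgG p {x, y, z, -((p : ZMod m) * x), -((p : ZMod m) * y), -((p : ZMod m) * z)} := by
  have h := AlgG.add (AlgG.add (AlgG.frob (p := p) x hx) (AlgG.frob (p := p) y hy))
    (AlgG.frob (p := p) z hz)
  convert h using 1
  simp only [Multiset.insert_eq_cons, ← Multiset.singleton_add]
  abel

theorem algG_six_ss {x y a : ZMod m} (hx : x ≠ 0) (hy : y ≠ 0) (ha : a ≠ 0) (hxy : x + y ≠ 0)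
    (h1 : IsSS p x) (h2 : IsSS p y) :
    AlgG p {x, y, -(x + y), x + y, a, -((p : ZMod m) * a)} := by
  obtain ⟨i, hi⟩ := h1
  obtain ⟨j, hj⟩ := h2
  have h := AlgG.add (AlgG.add (AlgG.super (p := p) x y i j hx hy hi hj)
    (AlgG.pair (p := p) (x + y) hxy)) (AlgG.frob (p := p) a ha)
  convert h using 1
  simp only [Multiset.insert_eq_cons, ← Multiset.singleton_add]
  abel

/-- Elements with sum zero. -/
theorem mem_relC (hp : (p : ZMod m) = P) {v : A m}
    (hv : v ∈ RelA m p ⊔ AddSubgroup.closure (relSI m p)) (hv0 : v 0 = 0)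
    (hs : sg v = 0) : v ∈ RelC m p := by
  classical
  set c : ZMod m → A m ⧸ RelC m p := fun x => if x = 0 then 0 else QuotientAddGroup.mk (e x) with hc
  have hc0 : c 0 = 0 := if_pos rfl
  have hcne : ∀ x, x ≠ 0 → c x = QuotientAddGroup.mk (e x) := fun x hx => if_neg hx
  have hp0 : ∀ x : ZMod m, x ≠ 0 → (p : ZMod m) * x ≠ 0 := fun x hx => by
    rw [hp]; exact unit_mul_ne_zero P hx
  have hcneg : ∀ x, c (-x) = - c x := by
    intro x
    by_cases hx : x = 0
    · rw [hx, neg_zero, hc0, neg_zero]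
    · rw [hcne _ (neg_ne_zero.2 hx), hcne _ hx, eq_neg_iff_add_eq_zero, ← QuotientAddGroup.mk_add,
        QuotientAddGroup.eq_zero_iff, add_comm]
      exact AddSubgroup.subset_closure (Or.inl (Or.inl ⟨x, hx, rfl⟩))
  have hC : ∀ x y z x' y' z' : ZMod m, x ≠ 0 → y ≠ 0 → z ≠ 0 → x' ≠ 0 → y' ≠ 0 → z' ≠ 0 →
      x + y + z = 0 → x' + y' + z' = 0 → AlgG p {x, y, z, x', y', z'} →
      c x + c y + c z + c x' + c y' + c z' = 0 := by
    intro x y z x' y' z' hx hy hz hx' hy' hz' h1 h2 h3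
    rw [hcne _ hx, hcne _ hy, hcne _ hz, hcne _ hx', hcne _ hy', hcne _ hz',
      ← QuotientAddGroup.mk_add, ← QuotientAddGroup.mk_add, ← QuotientAddGroup.mk_add,
      ← QuotientAddGroup.mk_add, ← QuotientAddGroup.mk_add, QuotientAddGroup.eq_zero_iff]
    exact AddSubgroup.subset_closure (Or.inr ⟨x, y, z, x', y', z', hx, hy, hz, hx', hy', hz', h1,
      h2, h3, rfl⟩)
  have hT : ∀ x y z : ZMod m, x ≠ 0 → y ≠ 0 → z ≠ 0 → x + y + z = 0 →
      (c x - c (p * x)) + (c y - c (p * y)) + (c z - c (p * z)) = 0 := by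
    intro x y z hx hy hz hxyz
    have h1 := hC x y z (-(p * x)) (-(p * y)) (-(p * z)) hx hy hz (neg_ne_zero.2 (hp0 x hx))
      (neg_ne_zero.2 (hp0 y hy)) (neg_ne_zero.2 (hp0 z hz)) hxyz
      (by linear_combination (-(p : ZMod m)) * hxyz) (algG_six_frob hx hy hz)
    rw [hcneg, hcneg, hcneg] at h1
    rw [← h1]
    abel
  -- the homomorphism `D`
  have hDadd : ∀ x y : ZMod m, c (x + y) - c (p * (x + y)) =
      (c x - c (p * x)) + (c y - c (p * y)) := by
    intro x y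
    by_cases hx : x = 0
    · rw [hx, zero_add, mul_zero, hc0, sub_zero, zero_add]
    by_cases hy : y = 0
    · rw [hy, add_zero, mul_zero, hc0, sub_zero, add_zero]
    by_cases hxy : x + y = 0
    · have : y = -x := by linear_combination hxy
      rw [hxy, mul_zero, hc0, this, mul_neg, hcneg, hcneg]
      abel
    · have h1 := hT x y (-(x + y)) hx hy (neg_ne_zero.2 hxy) (by ring)
      rw [mul_neg, hcneg, hcneg] at h1
      rw [eq_comm, ← sub_eq_zero]
      rw [← h1]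
      abel
  let D : ZMod m →+ A m ⧸ RelC m p :=
    { toFun := fun x => c x - c (p * x)
      map_zero' := by rw [mul_zero, hc0, sub_zero]
      map_add' := hDadd }
  have hD : ∀ x, D x = c x - c (p * x) := fun x => rfl
  have hext : ∀ u : A m, u 0 = 0 → ext c u = QuotientAddGroup.mk u := by
    intro u hu
    rw [ext_apply]
    conv_rhs => rw [← Finsupp.sum_single u, Finsupp.sum_fintype _ _ (fun i =>
      Finsupp.single_zero i), QuotientAddGroup.mk_sum]
    refine sum_congr rfl fun z _ => ?_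
    by_cases hz : z = 0
    · rw [hz, hu, Finsupp.single_zero, QuotientAddGroup.mk_zero, zero_zsmul]
    · rw [hcne z hz, ← QuotientAddGroup.mk_zsmul, e, Finsupp.smul_single, smul_eq_mul,
        mul_one]
  -- the subgroup
  let S : AddSubgroup (A m) :=
    { carrier := {v | ∃ E : ZMod m, ext c v = D E ∧ (1 - (p : ZMod m)) * E = sg v}
      zero_mem' := ⟨0, by rw [map_zero, map_zero], by rw [map_zero, mul_zero]⟩
      add_mem' := by
        rintro a b ⟨E, h1, h2⟩ ⟨E', h3, h4⟩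
        exact ⟨E + E', by rw [map_add, map_add, h1, h3], by rw [map_add, mul_add, h2, h4]⟩
      neg_mem' := by
        rintro a ⟨E, h1, h2⟩
        exact ⟨-E, by rw [map_neg, map_neg, h1], by rw [map_neg, mul_neg, h2]⟩ }
  have hS : RelA m p ≤ S := by
    unfold RelA
    rw [AddSubgroup.closure_le]
    rintro v ((⟨x, hx, rfl⟩ | ⟨l, hl, hlm, hv⟩) | ⟨x, hx, rfl⟩)
    · refine ⟨0, ?_, ?_⟩
      · rw [map_add, ext_e, ext_e, hcneg, add_neg_cancel, map_zero]
      · rw [map_add, sg_e, sg_e, mul_zero, add_neg_cancel]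
    · refine ⟨0, ?_, ?_⟩
      · rw [map_zero, hext v (relD_zero hlm hv), QuotientAddGroup.eq_zero_iff]
        exact AddSubgroup.subset_closure (Or.inl (Or.inr ⟨l, hl, hlm, hv⟩))
      · rw [mul_zero, sg_relD hl hlm hv]
    · refine ⟨x, ?_, ?_⟩
      · rw [map_sub, ext_e, ext_e, hD]
      · rw [map_sub, sg_e, sg_e]; ring
  have hS2 : AddSubgroup.closure (relSI m p) ≤ S := by
    rw [AddSubgroup.closure_le]
    rintro v ⟨x, y, a, hx, hy, h1, h2, h3, rfl⟩
    refine ⟨a, ?_, ?_⟩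
    · rw [map_add, ext_e, ext_e, hD]
      by_cases hxy : x + y = 0
      · rw [hxy] at h3
        have h4 : (p : ZMod m) * a = a := by linear_combination -h3
        have h5 : y = -x := by linear_combination hxy
        rw [h4, h5, hcneg, add_neg_cancel, sub_self]
      · have ha : a ≠ 0 := by
          rintro rfl
          rw [mul_zero] at h3
          exact hxy h3.symm
        have h4 := hC x y (-(x + y)) (x + y) (-a) (-((p : ZMod m) * -a)) hx hy
          (neg_ne_zero.2 hxy) hxy (neg_ne_zero.2 ha)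
          (neg_ne_zero.2 (hp0 _ (neg_ne_zero.2 ha))) (by ring)
          (by linear_combination -h3) (algG_six_ss hx hy (neg_ne_zero.2 ha) hxy h1 h2)
        rw [hcneg, hcneg, hcneg, mul_neg, hcneg] at h4
        have h6 : c x + c y = (c x + c y + -c (x + y) + c (x + y) + -c a + - -c (p * a))
          + (c a - c (p * a)) := by abel
        rw [h6, h4, zero_add]
    · rw [map_add, sg_e, sg_e, h3]
  obtain ⟨E, h1, h2⟩ := (sup_le hS hS2) hv
  rw [hs] at h2
  have h3 : (p : ZMod m) * E = E := by linear_combination -h2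
  rw [hext v hv0, hD, h3, sub_self, QuotientAddGroup.eq_zero_iff] at h1
  exact h1

theorem sg_relA {v : A m} (hv : v ∈ RelA m p) : ∃ a, (1 - (p : ZMod m)) * a = sg v := by
  unfold RelA at hv
  induction hv using AddSubgroup.closure_induction with
  | mem v hv =>
    rcases hv with (⟨x, hx, rfl⟩ | ⟨l, hl, hlm, hv⟩) | ⟨x, hx, rfl⟩
    · exact ⟨0, by rw [map_add, sg_e, sg_e, mul_zero, add_neg_cancel]⟩
    · exact ⟨0, by rw [mul_zero, sg_relD hl hlm hv]⟩
    · exact ⟨x, by rw [map_sub, sg_e, sg_e]; ring⟩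
  | zero => exact ⟨0, by rw [mul_zero, map_zero]⟩
  | add v w _ _ hv hw =>
    obtain ⟨a, ha⟩ := hv
    obtain ⟨b, hb⟩ := hw
    exact ⟨a + b, by rw [map_add, mul_add, ha, hb]⟩
  | neg v _ hv =>
    obtain ⟨a, ha⟩ := hv
    exact ⟨-a, by rw [map_neg, mul_neg, ha]⟩

/-- If all multiples of two are divisible by `1 - p`: the supersingular part. -/
theorem mem_relSI (h2 : ∀ y : ZMod m, ∃ a, (1 - (p : ZMod m)) * a = 2 * y) {v : A m}
    (hv : v ∈ AddSubgroup.closure (relS1 m p)) (hcnt : Even (cnt v))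
    (hsg : ∃ a, (1 - (p : ZMod m)) * a = sg v) : v ∈ AddSubgroup.closure (relSI m p) := by
  classical
  set S0 : Set (ZMod m) := {x | (x ≠ 0 ∧ IsSS p x) ∧ ∃ a, (1 - (p : ZMod m)) * a = x} with hS0
  set S1 : Set (ZMod m) := {x | (x ≠ 0 ∧ IsSS p x) ∧ ¬ ∃ a, (1 - (p : ZMod m)) * a = x} with hS1
  have h1 : relS1 m p = {v : A m | ∃ x ∈ S0, v = e x} ∪ {v : A m | ∃ x ∈ S1, v = e x} := by
    ext v
    constructor
    · rintro ⟨x, h1, h2, h3⟩
      by_cases h4 : ∃ a, (1 - (p : ZMod m)) * a = x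
      · exact Or.inl ⟨x, ⟨⟨h1, h2⟩, h4⟩, h3⟩
      · exact Or.inr ⟨x, ⟨⟨h1, h2⟩, h4⟩, h3⟩
    · rintro (⟨x, ⟨⟨h1, h2⟩, _⟩, h3⟩ | ⟨x, ⟨⟨h1, h2⟩, _⟩, h3⟩)
      · exact ⟨x, h1, h2, h3⟩
      · exact ⟨x, h1, h2, h3⟩
  -- index at most two
  have hodd : ∀ x : ZMod m, (¬ ∃ a, (1 - (p : ZMod m)) * a = x) →
      ∃ b, (1 - (p : ZMod m)) * b = x - 1 := by
    intro x hx
    rcases Nat.even_or_odd' x.val with ⟨k, hk | hk⟩
    · exfalso
      apply hx
      obtain ⟨a, ha⟩ := h2 (k : ZMod m)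
      refine ⟨a, ?_⟩
      rw [ha]
      have : x = ((x.val : ℕ) : ZMod m) := (ZMod.natCast_zmod_val x).symm
      rw [this, hk]
      push_cast
      ring
    · obtain ⟨a, ha⟩ := h2 (k : ZMod m)
      refine ⟨a, ?_⟩
      rw [ha]
      have : x = ((x.val : ℕ) : ZMod m) := (ZMod.natCast_zmod_val x).symm
      rw [this, hk]
      push_cast
      ring
  rw [h1, AddSubgroup.closure_union] at hv
  obtain ⟨s0, hs0, s1, hs1, rfl⟩ := AddSubgroup.mem_sup.1 hv
  -- the sum of the first part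
  have hsg0 : ∃ a, (1 - (p : ZMod m)) * a = sg s0 := by
    clear hcnt hsg hv
    induction hs0 using AddSubgroup.closure_induction with
    | mem v hv =>
      obtain ⟨x, hx, rfl⟩ := hv
      obtain ⟨a, ha⟩ := hx.2
      exact ⟨a, by rw [sg_e, ha]⟩
    | zero => exact ⟨0, by rw [mul_zero, map_zero]⟩
    | add v w _ _ hv hw =>
      obtain ⟨a, ha⟩ := hv
      obtain ⟨b, hb⟩ := hw
      exact ⟨a + b, by rw [map_add, mul_add, ha, hb]⟩
    | neg v _ hv =>
      obtain ⟨a, ha⟩ := hv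
      exact ⟨-a, by rw [map_neg, mul_neg, ha]⟩
  have hsg1 : ∃ a, (1 - (p : ZMod m)) * a = sg s1 - (cnt s1 : ZMod m) := by
    clear hcnt hsg hv
    induction hs1 using AddSubgroup.closure_induction with
    | mem v hv =>
      obtain ⟨x, hx, rfl⟩ := hv
      obtain ⟨a, ha⟩ := hodd x hx.2
      exact ⟨a, by rw [sg_e, cnt_e, ha, Int.cast_one]⟩
    | zero => exact ⟨0, by rw [mul_zero, map_zero, map_zero, Int.cast_zero, sub_zero]⟩
    | add v w _ _ hv hw =>
      obtain ⟨a, ha⟩ := hv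
      obtain ⟨b, hb⟩ := hw
      exact ⟨a + b, by rw [map_add, map_add, mul_add, ha, hb, Int.cast_add]; ring⟩
    | neg v _ hv =>
      obtain ⟨a, ha⟩ := hv
      exact ⟨-a, by rw [map_neg, map_neg, mul_neg, ha, Int.cast_neg]; ring⟩
  have hcnt1 : Even (cnt s1) := by
    by_contra hcon
    rw [Int.not_even_iff_odd] at hcon
    obtain ⟨d, hd⟩ := hcon
    obtain ⟨a, ha⟩ := hsg
    obtain ⟨a0, ha0⟩ := hsg0
    obtain ⟨a1, ha1⟩ := hsg1
    obtain ⟨b, hb⟩ := h2 (d : ZMod m)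
    have h3 : (1 - (p : ZMod m)) * (a - a0 - a1 - b) = 1 := by
      rw [map_add] at ha
      rw [hd] at ha1
      push_cast at ha1
      linear_combination ha - ha0 - ha1 - hb
    have h4 : S1 = ∅ := by
      ext x
      simp only [Set.mem_empty_iff_false, iff_false]
      rintro ⟨_, hx⟩
      apply hx
      exact ⟨(a - a0 - a1 - b) * x, by rw [← mul_assoc, h3, one_mul]⟩
    have h5 : ({v : A m | ∃ x ∈ S1, v = e x} : Set (A m)) = ∅ := by
      ext v
      simp only [h4, Set.mem_ofPred_eq, Set.mem_empty_iff_false, iff_false]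
      rintro ⟨x, hx, _⟩
      exact hx
    rw [h5, AddSubgroup.closure_empty, AddSubgroup.mem_bot] at hs1
    rw [hs1, map_zero] at hd
    omega
  have hcnt0 : Even (cnt s0) := by
    rw [map_add] at hcnt
    exact (Int.even_add.1 hcnt).2 hcnt1
  refine add_mem ?_ ?_
  · refine AddSubgroup.closure_mono ?_ (mem_relSS_of_even hs0 hcnt0)
    rintro v ⟨x, ⟨⟨h1, h2⟩, a, ha⟩, y, ⟨⟨h3, h4⟩, b, hb⟩, h5⟩
    exact ⟨x, y, a + b, h1, h3, h2, h4, by rw [mul_add, ha, hb], h5⟩
  · refine AddSubgroup.closure_mono ?_ (mem_relSS_of_even hs1 hcnt1)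
    rintro v ⟨x, ⟨⟨h1, h3⟩, hx⟩, y, ⟨⟨h4, h5⟩, hy⟩, h6⟩
    obtain ⟨a, ha⟩ := hodd x hx
    obtain ⟨b, hb⟩ := hodd y hy
    obtain ⟨d, hd⟩ := h2 1
    exact ⟨x, y, a + b + d, h1, h4, h3, h5, by rw [mul_add, mul_add, ha, hb, hd]; ring, h6⟩

/-- Elements of `RelL` with sum zero and an even number of terms. -/
theorem mem_relC_of_relL (hp : (p : ZMod m) = P)
    (h2 : ∀ y : ZMod m, ∃ a, (1 - (p : ZMod m)) * a = 2 * y) {v : A m} (hv : v ∈ RelL m p)
    (hv0 : v 0 = 0) (hs : sg v = 0) (hcnt : Even (cnt v)) : v ∈ RelC m p := by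
  apply mem_relC hp ?_ hv0 hs
  obtain ⟨r, hr, s, hs', rfl⟩ := AddSubgroup.mem_sup.1 hv
  refine add_mem (AddSubgroup.mem_sup_left hr) (AddSubgroup.mem_sup_right (mem_relSI h2 hs' ?_ ?_))
  · rw [map_add] at hcnt
    exact (Int.even_add.1 hcnt).1 (even_cnt_relA hr)
  · obtain ⟨a, ha⟩ := sg_relA hr
    refine ⟨-a, ?_⟩
    rw [map_add] at hs
    rw [mul_neg, ha]
    linear_combination -hs

end Pool.Stick
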