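import Pool.Agent.Stick.Bern

/-!
The group of relations between Gauss sums modulo a power of an odd prime.
-/

open Finset

namespace Pool.Stick

open Pool.Agent.StarkRQ

/-- the free abelian group on `ZMod m` -/
abbrev A (m : ℕ) : Type := ZMod m →₀ ℤ

/-- basis elements -/
noncomputable def e {m : ℕ} (x : ZMod m) : A m := Finsupp.single x 1

/-- the pairs -/
def relP (m : ℕ) : Set (A m) := {v | ∃ c : ZMod m, c ≠ 0 ∧ v = e c + e (-c)}

/-- the distribution relations -/
def relD (m l : ℕ) [NeZero m] : Set (A m) := {v | ∃ x : ZMod m, (l : ZMod m) * x ≠ 0 ∧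
  v = ∑ z ∈ univ.filter (fun z : ZMod m => (l : ZMod m) * z = l * x), e z
    + e (-((l : ZMod m) * x)) + if l = 2 then e ((m / 2 : ℕ) : ZMod m) else 0}

/-- Frobenius -/
def relF (m p : ℕ) : Set (A m) := {v | ∃ x : ZMod m, x ≠ 0 ∧ v = e x - e ((p : ZMod m) * x)}

/-- all relations -/
noncomputable def Rel (m l p : ℕ) [NeZero m] : AddSubgroup (A m) :=
  AddSubgroup.closure (relP m ∪ relD m l ∪ relF m p)

/-- the linear extension of a function -/
noncomputable def ext {m : ℕ} {Q : Type*} [AddCommGroup Q] (c : ZMod m → Q) : A m →+ Q :=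
  Finsupp.liftAddHom fun x => (zmultiplesHom Q (c x))

theorem ext_e {m : ℕ} {Q : Type*} [AddCommGroup Q] (c : ZMod m → Q) (x : ZMod m) :
    ext c (e x) = c x := by
  simp [ext, e]

theorem ext_apply {m : ℕ} [NeZero m] {Q : Type*} [AddCommGroup Q] (c : ZMod m → Q) (v : A m) :
    ext c v = ∑ x, v x • c x := by
  rw [ext, Finsupp.liftAddHom_apply, Finsupp.sum_fintype]
  · rfl
  · intro i
    simp

section distribution

variable {m : ℕ} [NeZero m] {l M : ℕ}

/-- the fibres of the multiplication by `l` -/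
theorem fibre_iff (hm : m = l * M) (hl : 0 < l) (x z : ZMod m) :
    (l : ZMod m) * z = l * x ↔ z.val % M = x.val % M := by
  have h1 : (l : ZMod m) * z = ((l * z.val : ℕ) : ZMod m) := by
    push_cast; rw [ZMod.natCast_zmod_val]
  have h2 : (l : ZMod m) * x = ((l * x.val : ℕ) : ZMod m) := by
    push_cast; rw [ZMod.natCast_zmod_val]
  rw [h1, h2, ZMod.natCast_eq_natCast_iff]
  have key : ∀ a b : ℕ, l * a ≡ l * b [MOD m] ↔ a % M = b % M := by
    intro a b
    rw [hm]
    constructor
    · intro h
      exact Nat.ModEq.mul_left_cancel' hl.ne' h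
    · intro h
      exact Nat.ModEq.mul_left' l h
  exact key _ _

theorem val_mul_eq (hm : m = l * M) (x : ZMod m) :
    ((l : ZMod m) * x).val = l * (x.val % M) := by
  have h2 : (l : ZMod m) * x = ((l * x.val : ℕ) : ZMod m) := by
    push_cast; rw [ZMod.natCast_zmod_val]
  rw [h2, ZMod.val_natCast]
  have key : ∀ a : ℕ, l * a % m = l * (a % M) := by
    intro a
    rw [hm, Nat.mul_mod_mul_left]
  exact key _

/-- sums over the fibres -/
theorem sum_fibre (hm : m = l * M) (hl : 0 < l) (x : ZMod m) {Q : Type*} [AddCommMonoid Q]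
    (g : ZMod m → Q) :
    ∑ z ∈ univ.filter (fun z : ZMod m => (l : ZMod m) * z = l * x), g z
      = ∑ a ∈ range l, g ((M * a + x.val % M : ℕ) : ZMod m) := by
  have hm0 : 0 < m := NeZero.pos m
  have hM : 0 < M := Nat.pos_of_ne_zero fun h => by subst h; simp at hm; omega
  set r := x.val % M with hr
  have hrM : r < M := Nat.mod_lt _ hM
  have hlt : ∀ a, a < l → M * a + r < m := by
    intro a ha
    rw [hm]
    calc M * a + r < M * a + M := by omega
      _ = M * (a + 1) := by ring
      _ ≤ M * l := Nat.mul_le_mul_left _ ha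
      _ = l * M := mul_comm _ _
  symm
  refine sum_bij (fun a _ => ((M * a + r : ℕ) : ZMod m)) ?_ ?_ ?_ ?_
  · intro a ha
    rw [mem_range] at ha
    rw [mem_filter, fibre_iff hm hl, ZMod.val_natCast_of_lt (hlt a ha), Nat.mul_add_mod,
      Nat.mod_eq_of_lt hrM]
    exact ⟨mem_univ _, rfl⟩
  · intro a ha b hb hab
    rw [mem_range] at ha hb
    have h := congrArg ZMod.val hab
    rw [ZMod.val_natCast_of_lt (hlt a ha), ZMod.val_natCast_of_lt (hlt b hb)] at h
    exact Nat.eq_of_mul_eq_mul_left hM (by omega)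
  · intro z hz
    rw [mem_filter, fibre_iff hm hl] at hz
    refine ⟨z.val / M, ?_, ?_⟩
    · rw [mem_range, Nat.div_lt_iff_lt_mul hM, ← hm]
      exact ZMod.val_lt z
    · have h3 : M * (z.val / M) + r = z.val := by
        rw [hr, ← hz.2]
        exact Nat.div_add_mod _ _
      rw [h3, ZMod.natCast_zmod_val]
  · intro a _
    rfl

theorem card_fibre (hm : m = l * M) (hl : 0 < l) (x : ZMod m) :
    (univ.filter (fun z : ZMod m => (l : ZMod m) * z = l * x)).card = l := by
  have := sum_fibre hm hl x (fun _ => 1)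
  simpa using this

/-- the distribution relation -/
theorem sum_hh (hm : m = l * M) (hl : 0 < l) (x : ZMod m) :
    ∑ z ∈ univ.filter (fun z : ZMod m => (l : ZMod m) * z = l * x), hh m z = hh m (l * x) := by
  have hm0 : 0 < m := NeZero.pos m
  have hM : 0 < M := Nat.pos_of_ne_zero fun h => by subst h; simp at hm; omega
  rw [sum_fibre hm hl x]
  set r := x.val % M with hr
  have hrM : r < M := Nat.mod_lt _ hM
  have hb : ∑ a ∈ range l, hh m ((M * a + r : ℕ) : ZMod m)
      = ∑ a ∈ range l, (1 / 2 - ((M * a + r : ℕ) : ℝ) / m) := by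
    refine sum_congr rfl fun a ha => ?_
    rw [mem_range] at ha
    have hlt : M * a + r < m := by
      rw [hm]
      calc M * a + r < M * a + M := by omega
        _ = M * (a + 1) := by ring
        _ ≤ M * l := Nat.mul_le_mul_left _ ha
        _ = l * M := mul_comm _ _
    unfold hh
    rw [ZMod.val_natCast_of_lt hlt]
  rw [hb]
  unfold hh
  rw [val_mul_eq hm, ← hr]
  have hgauss : ∑ a ∈ range l, (a : ℝ) = l * (l - 1) / 2 := by
    clear hb hm
    induction l with
    | zero => simp
    | succ n ih =>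
      rcases Nat.eq_zero_or_pos n with h | h
      · subst h; simp
      · rw [sum_range_succ, ih h]
        push_cast
        ring
  have hmr : (m : ℝ) = l * M := by rw [hm]; push_cast; ring
  have hl' : (l : ℝ) ≠ 0 := by exact_mod_cast hl.ne'
  have hM' : (M : ℝ) ≠ 0 := by exact_mod_cast hM.ne'
  have h5 : ∑ a ∈ range l, ((1 : ℝ) / 2 - ((M * a + r : ℕ) : ℝ) / m)
      = l / 2 - (M * (l * (l - 1) / 2) + l * r) / m := by
    rw [sum_sub_distrib, ← sum_div (range l) (fun a => ((M * a + r : ℕ) : ℝ))]
    have h6 : ∑ a ∈ range l, ((M * a + r : ℕ) : ℝ) = M * (l * (l - 1) / 2) + l * r := by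
      rw [← hgauss, mul_sum]
      push_cast
      rw [sum_add_distrib]
      simp
    rw [h6]
    simp
    ring
  rw [h5, hmr]
  push_cast
  field_simp
  ring

/-- the half term of the distribution relations -/
noncomputable def half (m l : ℕ) : A m := if l = 2 then e ((m / 2 : ℕ) : ZMod m) else 0

theorem half_add_half (m l : ℕ) [NeZero m] (hl : l = 2 → 2 ∣ m) :
    half m l + half m l ∈ AddSubgroup.closure (relP m) := by
  unfold half
  split_ifs with h
  · have h2 := hl h
    obtain ⟨r, hr⟩ := h2
    have hr0 : 0 < r := by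
      have := NeZero.pos m
      omega
    have hr2 : m / 2 = r := by omega
    apply AddSubgroup.subset_closure
    refine ⟨((m / 2 : ℕ) : ZMod m), ?_, ?_⟩
    · rw [Ne, ZMod.natCast_eq_zero_iff, hr2]
      intro hd
      have := Nat.le_of_dvd hr0 hd
      omega
    · have h3 : -((m / 2 : ℕ) : ZMod m) = ((m / 2 : ℕ) : ZMod m) := by
        rw [neg_eq_iff_add_eq_zero, ← Nat.cast_add, ZMod.natCast_eq_zero_iff, hr2]
        exact ⟨1, by omega⟩
      rw [h3]
  · rw [add_zero]
    exact zero_mem _

end distribution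

end Pool.Stick
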