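import Pool.Agent.Stick.Lattice

/-!
Prime power modulus: the units generate modulo the distribution relations, and the balanced
elements are generated by the relations.
-/

open Finset

namespace Pool.Stick

open Pool.Agent.StarkRQ

section units

variable {m : ℕ} [NeZero m] {l k : ℕ}

/-- generated by units, the half term and the relations -/
noncomputable def gen (m l : ℕ) [NeZero m] : AddSubgroup (A m) :=
  AddSubgroup.closure {v | ∃ u : (ZMod m)ˣ, v = e (u : ZMod m)} ⊔ AddSubgroup.zmultiples (half m l) ⊔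
    AddSubgroup.closure (relP m ∪ relD m l)

theorem e_mem_gen (hl : l.Prime) (hm : m = l ^ k) (j : ℕ) :
    ∀ y : ZMod m, l ^ j ∣ y.val → ¬ l ^ (j + 1) ∣ y.val → e y ∈ gen m l := by
  induction j with
  | zero =>
    intro y _ h
    rw [zero_add, pow_one] at h
    have hu : IsUnit y := by
      rw [← ZMod.natCast_zmod_val y, ZMod.isUnit_iff_coprime]
      have : ∀ a : ℕ, ¬ l ∣ a → a.Coprime m := by
        intro a ha
        rw [hm]
        exact Nat.Coprime.pow_right _ ((Nat.Prime.coprime_iff_not_dvd hl).2 ha).symm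
      exact this _ h
    obtain ⟨u, rfl⟩ := hu
    exact AddSubgroup.mem_sup_left (AddSubgroup.mem_sup_left
      (AddSubgroup.subset_closure ⟨u, rfl⟩))
  | succ j ih =>
    intro y h1 h2
    have hy0 : y.val ≠ 0 := by
      intro h
      rw [h] at h2
      exact h2 (dvd_zero _)
    have hym : y.val < m := ZMod.val_lt y
    have hjk : j + 1 < k := by
      by_contra hcon
      have h3 : l ^ k ∣ y.val := (pow_dvd_pow l (not_lt.1 hcon)).trans h1
      rw [← hm] at h3
      exact absurd (Nat.le_of_dvd (Nat.pos_of_ne_zero hy0) h3) (not_le.2 hym)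
    obtain ⟨i, hi⟩ : ∃ i, k = i + 1 := ⟨k - 1, by omega⟩
    have hmM : m = l * l ^ i := by rw [hm, hi, pow_succ, mul_comm]
    -- `y = l x`
    obtain ⟨x0, hx0⟩ : l ∣ y.val := (dvd_pow_self l (Nat.succ_ne_zero j)).trans h1
    have hx0M : x0 < l ^ i := by
      have : l * x0 < l * l ^ i := by rw [← hx0, ← hmM]; exact hym
      exact Nat.lt_of_mul_lt_mul_left this
    have hxm : x0 < m := by
      rw [hmM]
      calc x0 < l ^ i := hx0M
        _ ≤ l * l ^ i := Nat.le_mul_of_pos_left _ hl.pos
    set x : ZMod m := (x0 : ZMod m) with hx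
    have hxv : x.val = x0 := ZMod.val_natCast_of_lt hxm
    have hlx : (l : ZMod m) * x = y := by
      rw [hx, ← Nat.cast_mul, ← hx0, ZMod.natCast_zmod_val]
    have hne : (l : ZMod m) * x ≠ 0 := by
      rw [hlx]
      intro h
      apply hy0
      rw [h, ZMod.val_zero]
    have hD : (∑ z ∈ univ.filter (fun z : ZMod m => (l : ZMod m) * z = l * x), e z
        + e (-((l : ZMod m) * x)) + half m l) ∈ gen m l :=
      AddSubgroup.mem_sup_right (AddSubgroup.subset_closure (Or.inr ⟨x, hne, rfl⟩))
    have hP : e ((l : ZMod m) * x) + e (-((l : ZMod m) * x)) ∈ gen m l :=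
      AddSubgroup.mem_sup_right (AddSubgroup.subset_closure (Or.inl ⟨_, hne, rfl⟩))
    have hH : half m l ∈ gen m l :=
      AddSubgroup.mem_sup_left (AddSubgroup.mem_sup_right (AddSubgroup.mem_zmultiples _))
    have hS : (∑ z ∈ univ.filter (fun z : ZMod m => (l : ZMod m) * z = l * x), e z) ∈ gen m l := by
      refine AddSubgroup.sum_mem _ fun z hz => ?_
      rw [mem_filter, fibre_iff hmM hl.pos] at hz
      have hz2 : z.val ≡ x0 [MOD l ^ i] := by rw [← hxv]; exact hz.2
      have hdvd : l ^ (j + 1) ∣ l ^ i := pow_dvd_pow l (by omega)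
      have hz3 : z.val ≡ x0 [MOD l ^ (j + 1)] := hz2.of_dvd hdvd
      have hx1 : l ^ j ∣ x0 := by
        rw [hx0, pow_succ, mul_comm] at h1
        exact Nat.dvd_of_mul_dvd_mul_left hl.pos h1
      have hx2 : ¬ l ^ (j + 1) ∣ x0 := by
        intro h
        apply h2
        rw [hx0, pow_succ, mul_comm]
        exact Nat.mul_dvd_mul_left _ h
      apply ih
      · exact ((hz3.of_dvd (pow_dvd_pow l (Nat.le_succ j))).dvd_iff dvd_rfl).2 hx1
      · intro h
        exact hx2 ((hz3.dvd_iff dvd_rfl).1 h)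
    have hfin : e y = (e ((l : ZMod m) * x) + e (-((l : ZMod m) * x)))
        - (∑ z ∈ univ.filter (fun z : ZMod m => (l : ZMod m) * z = l * x), e z
        + e (-((l : ZMod m) * x)) + half m l)
        + ∑ z ∈ univ.filter (fun z : ZMod m => (l : ZMod m) * z = l * x), e z + half m l := by
      rw [hlx]; abel
    rw [hfin]
    exact add_mem (add_mem (sub_mem hP hD) hS) hH

theorem mem_gen (hl : l.Prime) (hm : m = l ^ k) {v : A m} (hv : v 0 = 0) : v ∈ gen m l := by
  have h1 : v = ∑ x : ZMod m, v x • e x := by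
    conv_lhs => rw [← Finsupp.sum_single v]
    rw [Finsupp.sum_fintype]
    · refine sum_congr rfl fun x _ => ?_
      rw [e, Finsupp.smul_single, smul_eq_mul, mul_one]
    · intro i
      exact Finsupp.single_zero i
  rw [h1]
  refine AddSubgroup.sum_mem _ fun x _ => ?_
  by_cases hx : x = 0
  · subst hx
    rw [hv, zero_smul]
    exact zero_mem _
  · have hx0 : x.val ≠ 0 := fun h => hx ((ZMod.val_eq_zero x).1 h)
    obtain ⟨j, n', hn', hj⟩ := Nat.exists_eq_pow_mul_and_not_dvd hx0 l hl.one_lt.ne'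
    refine AddSubgroup.zsmul_mem _ (e_mem_gen hl hm j x ⟨n', hj⟩ ?_) _
    rintro ⟨c, hc⟩
    apply hn'
    rw [hj, pow_succ, mul_assoc] at hc
    exact ⟨c, Nat.eq_of_mul_eq_mul_left (pow_pos hl.pos j) hc⟩

end units

end Pool.Stick
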