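import Pool.Agent.Stick.Lattice2

/-!
The balanced elements are generated by the relations (prime power modulus).
-/

open Finset

namespace Pool.Stick

open Pool.Agent.StarkRQ

section balanced

variable {m : ℕ} [NeZero m]

/-- the functional `∑_{j<f} (1/2 - ⟨p^j t x / m⟩)` -/
noncomputable def beta (P : (ZMod m)ˣ) (f : ℕ) (t : (ZMod m)ˣ) : A m →+ ℝ :=
  ext fun x => ∑ j ∈ range f, hh m (((P ^ j * t : (ZMod m)ˣ) : ZMod m) * x)

/-- the number of elements -/
noncomputable def cnt : A m →+ ℤ := ext fun _ => 1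

theorem cnt_e (x : ZMod m) : cnt (e x) = 1 := ext_e _ _

theorem unit_mul_ne_zero (s : (ZMod m)ˣ) {x : ZMod m} (hx : x ≠ 0) : (s : ZMod m) * x ≠ 0 := by
  intro h
  exact hx ((Units.mul_right_eq_zero s).1 h)

theorem hh_half {l : ℕ} (hl : l = 2 → 2 ∣ m) (s : (ZMod m)ˣ) (h2 : l = 2) :
    hh m ((s : ZMod m) * ((m / 2 : ℕ) : ZMod m)) = 0 := by
  obtain ⟨r, hr⟩ := hl h2
  have hm0 := NeZero.pos m
  have hr2 : m / 2 = r := by omega
  have hr0 : 0 < r := by omega
  have hodd : ∃ a, (s : ZMod m).val = 2 * a + 1 := by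
    have hc := ZMod.val_coe_unit_coprime s
    have : ¬ 2 ∣ (s : ZMod m).val := by
      intro h
      have h3 : 2 ∣ Nat.gcd (s : ZMod m).val m := Nat.dvd_gcd h (hl h2)
      rw [hc] at h3
      omega
    exact ⟨(s : ZMod m).val / 2, by omega⟩
  obtain ⟨a, ha⟩ := hodd
  have h1 : (s : ZMod m) * ((m / 2 : ℕ) : ZMod m) = ((r : ℕ) : ZMod m) := by
    conv_lhs => rw [← ZMod.natCast_zmod_val (s : ZMod m)]
    rw [ha, hr2, ← Nat.cast_mul, ZMod.natCast_eq_natCast_iff]
    have h4 : (2 * a + 1) * r = a * m + r := by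
      have : a * m = a * (2 * r) := by rw [← hr]
      rw [this]; ring
    rw [h4]
    exact Nat.modEq_iff_dvd.2 ⟨-a, by push_cast; ring⟩
  rw [h1]
  unfold hh
  rw [ZMod.val_natCast_of_lt (by omega)]
  have h5 : (m : ℝ) = 2 * r := by exact_mod_cast hr
  have h6 : (r : ℝ) ≠ 0 := by exact_mod_cast hr0.ne'
  rw [h5]
  field_simp
  ring

variable {P : (ZMod m)ˣ} {f : ℕ}

theorem beta_e (t : (ZMod m)ˣ) (x : ZMod m) :
    beta P f t (e x) = ∑ j ∈ range f, hh m (((P ^ j * t : (ZMod m)ˣ) : ZMod m) * x) := ext_e _ _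

theorem beta_relP (t : (ZMod m)ˣ) {v : A m} (hv : v ∈ relP m) : beta P f t v = 0 := by
  obtain ⟨c, hc, rfl⟩ := hv
  rw [map_add, beta_e, beta_e, ← sum_add_distrib]
  refine sum_eq_zero fun j _ => ?_
  rw [mul_neg, hh_neg (unit_mul_ne_zero _ hc), add_neg_cancel]

theorem beta_half {l : ℕ} (hl : l = 2 → 2 ∣ m) (t : (ZMod m)ˣ) : beta P f t (half m l) = 0 := by
  unfold half
  split_ifs with h
  · rw [beta_e]
    exact sum_eq_zero fun j _ => hh_half hl _ h
  · rw [map_zero]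

theorem sum_fibre_unit {l : ℕ} (s : (ZMod m)ˣ) (x : ZMod m) (g : ZMod m → ℝ) :
    ∑ z ∈ univ.filter (fun z : ZMod m => (l : ZMod m) * z = l * x), g (s * z)
      = ∑ z ∈ univ.filter (fun z : ZMod m => (l : ZMod m) * z = l * (s * x)), g z := by
  refine sum_bij (fun z _ => (s : ZMod m) * z) ?_ ?_ ?_ ?_
  · intro z hz
    rw [mem_filter] at hz ⊢
    refine ⟨mem_univ _, ?_⟩
    rw [mul_left_comm, hz.2, mul_left_comm]
  · intro a _ b _ h
    exact (Units.mul_right_inj s).1 h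
  · intro b hb
    rw [mem_filter] at hb
    refine ⟨((s⁻¹ : (ZMod m)ˣ) : ZMod m) * b, ?_, ?_⟩
    · rw [mem_filter]
      refine ⟨mem_univ _, ?_⟩
      rw [mul_left_comm, hb.2, mul_left_comm (l : ZMod m), ← mul_assoc, Units.inv_mul, one_mul]
    · rw [← mul_assoc, Units.mul_inv, one_mul]
  · intro a _
    rfl

theorem beta_relD {l M : ℕ} (hm : m = l * M) (hl0 : 0 < l) (hl : l = 2 → 2 ∣ m) (t : (ZMod m)ˣ)
    {v : A m} (hv : v ∈ relD m l) : beta P f t v = 0 := by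
  obtain ⟨x, hx, rfl⟩ := hv
  have h1 := beta_half (P := P) (f := f) hl t
  unfold half at h1
  rw [map_add, h1, add_zero, map_add, map_sum, beta_e]
  simp_rw [beta_e]
  rw [sum_comm, ← sum_add_distrib]
  refine sum_eq_zero fun j _ => ?_
  set s := P ^ j * t
  rw [sum_fibre_unit s x (hh m), sum_hh hm hl0]
  have h2 : (s : ZMod m) * -((l : ZMod m) * x) = -((s : ZMod m) * (l * x)) := by ring
  rw [h2, hh_neg (unit_mul_ne_zero s hx), mul_left_comm, add_neg_cancel]

theorem beta_relF {p : ℕ} (hp : (p : ZMod m) = P) (hf : P ^ f = 1) (t : (ZMod m)ˣ)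
    {v : A m} (hv : v ∈ relF m p) : beta P f t v = 0 := by
  obtain ⟨x, hx, rfl⟩ := hv
  rw [map_sub, beta_e, beta_e]
  have h1 : ∀ j, ((P ^ j * t : (ZMod m)ˣ) : ZMod m) * ((p : ZMod m) * x)
      = ((P ^ (j + 1) * t : (ZMod m)ˣ) : ZMod m) * x := by
    intro j
    rw [hp, pow_succ]
    push_cast
    ring
  simp_rw [h1]
  have h2 := sum_range_succ (fun j => hh m (((P ^ j * t : (ZMod m)ˣ) : ZMod m) * x)) f
  have h3 := sum_range_succ' (fun j => hh m (((P ^ j * t : (ZMod m)ˣ) : ZMod m) * x)) f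
  rw [hf] at h2
  rw [pow_zero] at h3
  linarith

theorem beta_rel {l M p : ℕ} (hm : m = l * M) (hl0 : 0 < l) (hl : l = 2 → 2 ∣ m)
    (hp : (p : ZMod m) = P) (hf : P ^ f = 1) (t : (ZMod m)ˣ) {v : A m} (hv : v ∈ Rel m l p) :
    beta P f t v = 0 := by
  have h : Rel m l p ≤ (beta P f t).ker := by
    unfold Rel
    rw [AddSubgroup.closure_le]
    rintro v ((hv | hv) | hv)
    · exact beta_relP t hv
    · exact beta_relD hm hl0 hl t hv
    · exact beta_relF hp hf t hv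
  exact h hv

theorem even_cnt {l M p : ℕ} (hm : m = l * M) (hl0 : l.Prime) {v : A m} (hv : v ∈ Rel m l p) :
    Even (cnt v) := by
  have h : Rel m l p ≤ (AddSubgroup.zmultiples (2 : ℤ)).comap cnt := by
    unfold Rel
    rw [AddSubgroup.closure_le]
    rintro v ((hv | hv) | hv)
    · obtain ⟨c, _, rfl⟩ := hv
      change cnt _ ∈ AddSubgroup.zmultiples (2 : ℤ)
      rw [map_add, cnt_e, cnt_e, Int.mem_zmultiples_iff]
      norm_num
    · obtain ⟨x, _, rfl⟩ := hv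
      change cnt _ ∈ AddSubgroup.zmultiples (2 : ℤ)
      rw [map_add, map_add, map_sum, Int.mem_zmultiples_iff]
      simp_rw [cnt_e]
      rw [sum_const, card_fibre hm hl0.pos, nsmul_eq_mul, mul_one]
      rcases hl0.eq_two_or_odd with h | h
      · subst h
        rw [if_pos rfl, cnt_e]
        norm_num
      · have h2 : l ≠ 2 := by rintro rfl; omega
        rw [if_neg h2, map_zero]
        omega
    · obtain ⟨x, _, rfl⟩ := hv
      change cnt _ ∈ AddSubgroup.zmultiples (2 : ℤ)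
      rw [map_sub, cnt_e, cnt_e, Int.mem_zmultiples_iff]
      norm_num
  have := h hv
  rw [AddSubgroup.mem_comap, Int.mem_zmultiples_iff] at this
  exact even_iff_two_dvd.2 this

/-- elements supported on the units with even averages over the orbits of `P` -/
theorem units_mem_rel {l p : ℕ} (hp : (p : ZMod m) = P) (hf : P ^ f = 1) (hf0 : f ≠ 0)
    (hneg : (-1 : (ZMod m)ˣ) ∉ Subgroup.zpowers P) (w : (ZMod m)ˣ → ℤ)
    (hW : ∀ u : (ZMod m)ˣ, ∑ j ∈ range f, w ((P ^ j)⁻¹ * -u) = ∑ j ∈ range f, w ((P ^ j)⁻¹ * u))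
    (hm1 : m ≠ 1) :
    ∑ u : (ZMod m)ˣ, w u • e (u : ZMod m) ∈ Rel m l p := by
  classical
  have : Fact (1 < m) := ⟨by have := NeZero.pos m; omega⟩
  set H := Subgroup.zpowers P with hH
  set c : (ZMod m)ˣ → A m ⧸ Rel m l p := fun u => QuotientAddGroup.mk (e (u : ZMod m)) with hc
  have hu0 : ∀ u : (ZMod m)ˣ, (u : ZMod m) ≠ 0 := fun u => u.ne_zero
  have hcneg : ∀ u : (ZMod m)ˣ, c (-u) = - c u := by
    intro u
    rw [eq_neg_iff_add_eq_zero, hc]
    simp only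
    rw [← QuotientAddGroup.mk_add, QuotientAddGroup.eq_zero_iff]
    apply AddSubgroup.subset_closure
    left; left
    refine ⟨u, hu0 u, ?_⟩
    rw [add_comm, Units.val_neg]
  have hcP : ∀ u : (ZMod m)ˣ, c (P * u) = c u := by
    intro u
    symm
    rw [hc]
    simp only
    rw [← sub_eq_zero, ← QuotientAddGroup.mk_sub, QuotientAddGroup.eq_zero_iff]
    apply AddSubgroup.subset_closure
    right
    refine ⟨u, hu0 u, ?_⟩
    rw [hp, Units.val_mul]
  have hcPn : ∀ (n : ℕ) (u : (ZMod m)ˣ), c (P ^ n * u) = c u := by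
    intro n
    induction n with
    | zero => intro u; simp
    | succ n ih => intro u; rw [pow_succ, mul_assoc, ih, hcP]
  have hfin : ∀ h ∈ H, ∃ n < orderOf P, P ^ n = h := by
    intro h hh
    obtain ⟨n, hn⟩ := mem_powers_iff_mem_zpowers.2 hh
    refine ⟨n % orderOf P, Nat.mod_lt _ (orderOf_pos P), ?_⟩
    rw [pow_mod_orderOf]
    exact hn
  let cbar : (ZMod m)ˣ ⧸ H → A m ⧸ Rel m l p := fun C => c C.out
  have hcbar : ∀ u : (ZMod m)ˣ, cbar (u : (ZMod m)ˣ ⧸ H) = c u := by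
    intro u
    obtain ⟨h, hh⟩ := QuotientGroup.mk_out_eq_mul H u
    obtain ⟨n, _, hn⟩ := hfin h.1 h.2
    change c _ = c u
    rw [hh, mul_comm, ← hn, hcPn]
  let wbar : (ZMod m)ˣ ⧸ H → ℤ := fun C => ∑ u ∈ univ.filter (fun u : (ZMod m)ˣ => (u : (ZMod m)ˣ ⧸ H) = C), w u
  have hwbar : ∀ u : (ZMod m)ˣ, wbar (u : (ZMod m)ˣ ⧸ H) = ∑ j ∈ range (orderOf P), w ((P ^ j)⁻¹ * u) := by
    intro u
    symm
    refine sum_bij (fun j _ => (P ^ j)⁻¹ * u) ?_ ?_ ?_ ?_
    · intro j _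
      rw [mem_filter]
      refine ⟨mem_univ _, ?_⟩
      rw [QuotientGroup.eq]
      rw [mul_inv_rev, inv_inv, mul_comm u⁻¹, mul_assoc, inv_mul_cancel, mul_one]
      exact Subgroup.npow_mem_zpowers P j
    · intro a ha b hb hab
      rw [mem_range] at ha hb
      have h1 := mul_right_cancel hab
      have h2 := inv_injective h1
      exact pow_injOn_Iio_orderOf ha hb h2
    · intro v hv
      rw [mem_filter, QuotientGroup.eq] at hv
      obtain ⟨n, hn, hn'⟩ := hfin _ hv.2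
      refine ⟨n, mem_range.2 hn, ?_⟩
      rw [hn', mul_inv_rev, inv_inv, mul_comm u⁻¹, mul_assoc, inv_mul_cancel, mul_one]
    · intro j _
      rfl
  obtain ⟨d, hd⟩ := orderOf_dvd_of_pow_eq_one hf
  have hd0 : d ≠ 0 := by rintro rfl; rw [mul_zero] at hd; exact hf0 hd
  have hsum : ∀ u : (ZMod m)ˣ, ∑ j ∈ range f, w ((P ^ j)⁻¹ * u) = d * wbar (u : (ZMod m)ˣ ⧸ H) := by
    intro u
    rw [hwbar, hd]
    clear hd hd0 hW
    induction d with
    | zero => simp
    | succ d ih =>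
      rw [mul_add, mul_one, sum_range_add, ih]
      have h1 : ∀ j, P ^ (orderOf P * d + j) = P ^ j := by
        intro j
        rw [pow_add, pow_mul, pow_orderOf_eq_one, one_pow, one_mul]
      simp_rw [h1]
      push_cast
      ring
  have hwneg : ∀ C : (ZMod m)ˣ ⧸ H, wbar (((-1 : (ZMod m)ˣ) : (ZMod m)ˣ ⧸ H) * C) = wbar C := by
    intro C
    obtain ⟨u, rfl⟩ := QuotientGroup.mk_surjective C
    rw [← QuotientGroup.mk_mul, neg_one_mul]
    have h1 := hW u
    rw [hsum, hsum] at h1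
    exact mul_left_cancel₀ (by exact_mod_cast hd0) h1
  have hcneg' : ∀ C : (ZMod m)ˣ ⧸ H, cbar (((-1 : (ZMod m)ˣ) : (ZMod m)ˣ ⧸ H) * C) = - cbar C := by
    intro C
    obtain ⟨u, rfl⟩ := QuotientGroup.mk_surjective C
    rw [← QuotientGroup.mk_mul, neg_one_mul, hcbar, hcbar, hcneg]
  rw [← QuotientAddGroup.eq_zero_iff]
  have h1 : (QuotientAddGroup.mk (∑ u : (ZMod m)ˣ, w u • e (u : ZMod m)) : A m ⧸ Rel m l p)
      = ∑ u : (ZMod m)ˣ, w u • c u := by
    rw [QuotientAddGroup.mk_sum]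
    rfl
  have h2 : ∑ u : (ZMod m)ˣ, w u • c u = ∑ C : (ZMod m)ˣ ⧸ H, wbar C • cbar C := by
    rw [← sum_fiberwise_of_maps_to (s := univ) (t := univ) (g := fun u : (ZMod m)ˣ => (u : (ZMod m)ˣ ⧸ H))
      (fun _ _ => mem_univ _)]
    refine sum_congr rfl fun C _ => ?_
    change _ = (∑ u ∈ univ.filter (fun u : (ZMod m)ˣ => (u : (ZMod m)ˣ ⧸ H) = C), w u) • cbar C
    have h3 := map_sum (zmultiplesHom _ (cbar C)) w
      (univ.filter (fun u : (ZMod m)ˣ => (u : (ZMod m)ˣ ⧸ H) = C))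
    simp only [zmultiplesHom_apply] at h3
    rw [h3]
    refine sum_congr rfl fun u hu => ?_
    rw [mem_filter] at hu
    rw [← hu.2, hcbar]
  rw [h1, h2]
  refine sum_involution (fun C _ => ((-1 : (ZMod m)ˣ) : (ZMod m)ˣ ⧸ H) * C) ?_ ?_ (fun _ _ => mem_univ _) ?_
  · intro C _
    rw [hwneg, hcneg', zsmul_neg, add_neg_cancel]
  · intro C _ _ h
    apply hneg
    obtain ⟨u, rfl⟩ := QuotientGroup.mk_surjective C
    rw [← QuotientGroup.mk_mul, neg_one_mul, QuotientGroup.eq] at h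
    have h3 : (-u)⁻¹ * u = -1 := by
      rw [inv_neg, neg_mul, inv_mul_cancel]
    rwa [h3] at h
  · intro C _
    obtain ⟨u, rfl⟩ := QuotientGroup.mk_surjective C
    rw [← QuotientGroup.mk_mul, ← QuotientGroup.mk_mul, neg_one_mul, neg_one_mul, neg_neg]

end balanced

end Pool.Stick
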