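import Pool.Agent.Stick.Lattice3

/-!
The balanced elements are generated by the relations: prime power modulus.
-/

open Finset

namespace Pool.Stick

open Pool.Agent.StarkRQ

variable {m : ℕ} [NeZero m] {l k p f : ℕ} {P : (ZMod m)ˣ}

omit [NeZero m] in
theorem exists_coef [Fintype (ZMod m)ˣ] {w : A m}
    (hw : w ∈ AddSubgroup.closure {v : A m | ∃ u : (ZMod m)ˣ, v = e (u : ZMod m)}) :
    ∃ w' : (ZMod m)ˣ → ℤ, w = ∑ u, w' u • e (u : ZMod m) := by
  classical
  induction hw using AddSubgroup.closure_induction with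
  | mem x hx =>
    obtain ⟨u, rfl⟩ := hx
    refine ⟨Pi.single u 1, ?_⟩
    rw [sum_eq_single u]
    · rw [Pi.single_eq_same, one_smul]
    · intro b _ hb
      rw [Pi.single_eq_of_ne hb, zero_smul]
    · intro h
      exact absurd (mem_univ u) h
  | zero => exact ⟨0, by simp⟩
  | add x y _ _ hx hy =>
    obtain ⟨a, rfl⟩ := hx
    obtain ⟨b, rfl⟩ := hy
    refine ⟨a + b, ?_⟩
    rw [← sum_add_distrib]
    exact sum_congr rfl fun u _ => by rw [Pi.add_apply, add_smul]
  | neg x _ hx =>
    obtain ⟨a, rfl⟩ := hx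
    refine ⟨-a, ?_⟩
    rw [← sum_neg_distrib]
    exact sum_congr rfl fun u _ => by rw [Pi.neg_apply, neg_smul]

theorem sub_rel : AddSubgroup.closure (relP m ∪ relD m l) ≤ Rel m l p :=
  AddSubgroup.closure_mono Set.subset_union_left

theorem relP_le : AddSubgroup.closure (relP m) ≤ Rel m l p :=
  AddSubgroup.closure_mono (Set.subset_union_left.trans Set.subset_union_left)

theorem mul_half_mem (hl2 : l = 2 → 2 ∣ m) {c : ℤ} (hc : Even (c * cnt (half m l))) :
    c • half m l ∈ Rel m l p := by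
  by_cases h2 : l = 2
  · have h3 : cnt (half m l) = 1 := by
      unfold half
      rw [if_pos h2, cnt_e]
    rw [h3, mul_one] at hc
    obtain ⟨d, rfl⟩ := hc
    have h4 : (d + d) • half m l = d • (half m l + half m l) := by
      rw [smul_add, add_smul]
    rw [h4]
    exact AddSubgroup.zsmul_mem _ (relP_le (half_add_half m l hl2)) _
  · unfold half
    rw [if_neg h2, smul_zero]
    exact zero_mem _

/-- Balanced elements with an even number of terms are generated by the relations. -/
theorem mem_rel_prime_pow (hl : l.Prime) (hk : k ≠ 0) (hm : m = l ^ k) (hp : (p : ZMod m) = P)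
    (hf : P ^ f = 1) (hf0 : f ≠ 0) (hneg : (-1 : (ZMod m)ˣ) ∉ Subgroup.zpowers P) {v : A m}
    (hv0 : v 0 = 0) (hcnt : Even (cnt v)) (hbal : ∀ t, beta P f t v = 0) : v ∈ Rel m l p := by
  obtain ⟨i, rfl⟩ : ∃ i, k = i + 1 := ⟨k - 1, by omega⟩
  have hmM : m = l * l ^ i := by rw [hm, pow_succ, mul_comm]
  have hl2 : l = 2 → 2 ∣ m := by
    rintro rfl
    rw [hmM]
    exact dvd_mul_right _ _
  have hm1 : m ≠ 1 := by
    rw [hm]
    exact (Nat.one_lt_pow hk hl.one_lt).ne'
  have hv := mem_gen hl hm hv0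
  unfold gen at hv
  obtain ⟨y, hy, r, hr, hyr⟩ := AddSubgroup.mem_sup.1 hv
  obtain ⟨w, hw, z, hz, hwz⟩ := AddSubgroup.mem_sup.1 hy
  obtain ⟨c, hc⟩ := AddSubgroup.mem_zmultiples_iff.1 hz
  obtain ⟨w', hw'⟩ := exists_coef hw
  have hrR : r ∈ Rel m l p := sub_rel hr
  have hveq : v = w + c • half m l + r := by rw [← hyr, ← hwz, ← hc]
  have hbw : ∀ t, beta P f t w = 0 := by
    intro t
    have h1 := hbal t
    rw [hveq, map_add, map_add, map_zsmul, beta_half hl2 t, smul_zero, add_zero,
      beta_rel hmM hl.pos hl2 hp hf t hrR, add_zero] at h1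
    exact h1
  have hwR : w ∈ Rel m l p := by
    rw [hw']
    have hW := even_of_sum_eq_zero' (m := m) hm1 ?_ (fun u => ∑ j ∈ range f, w' ((P ^ j)⁻¹ * u)) ?_
    · exact units_mem_rel hp hf hf0 hneg w' hW hm1
    · subst hm
      exact fun χ hχ => LFunction_zero_ne_zero hl hχ
    · intro t
      have h1 := hbw t
      rw [hw', map_sum] at h1
      simp_rw [map_zsmul, beta_e, zsmul_eq_mul, mul_sum] at h1
      rw [← h1]
      push_cast
      simp_rw [sum_mul]
      rw [sum_comm]
      conv_rhs => rw [sum_comm]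
      refine sum_congr rfl fun j _ => ?_
      refine Fintype.sum_equiv (Equiv.mulLeft (P ^ j)⁻¹) _ _ fun u => ?_
      rw [Equiv.coe_mulLeft]
      congr 2
      push_cast
      rw [mul_comm ((P : ZMod m) ^ j), mul_assoc, ← mul_assoc ((P : ZMod m) ^ j)]
      congr 1
      have h5 : (P : ZMod m) ^ j * (((P ^ j)⁻¹ : (ZMod m)ˣ) : ZMod m) = 1 := by
        rw [← Units.val_pow_eq_pow_val, Units.mul_inv]
      rw [← inv_pow, Units.val_pow_eq_pow_val] at h5
      rw [h5, one_mul]
  have hc2 : Even (c * cnt (half m l)) := by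
    have h1 := even_cnt hmM hl hwR
    have h2 := even_cnt hmM hl hrR
    have h3 : c * cnt (half m l) = cnt v - cnt w - cnt r := by
      rw [hveq, map_add, map_add, map_zsmul, smul_eq_mul]
      ring
    rw [h3]
    exact (hcnt.sub h1).sub h2
  rw [hveq]
  exact add_mem (add_mem hwR (mul_half_mem hl2 hc2)) hrR

end Pool.Stick
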