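import Pool.Agent.Stick.Lattice4

/-!
From `[x] - [p x]` to Frobenius triples, and the supersingular case.
-/

open Finset

namespace Pool.Stick

variable {m : ℕ} [NeZero m] {p : ℕ} {P : (ZMod m)ˣ}

/-- distribution relations for all primes which divide `m` -/
def relDD (m : ℕ) [NeZero m] : Set (A m) := {v | ∃ l : ℕ, l.Prime ∧ l ∣ m ∧ v ∈ relD m l}

/-- all relations -/
noncomputable def RelA (m p : ℕ) [NeZero m] : AddSubgroup (A m) :=
  AddSubgroup.closure (relP m ∪ relDD m ∪ relF m p)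

/-- Frobenius triples -/
def relT (m p : ℕ) : Set (A m) := {v | ∃ x y z : ZMod m, x ≠ 0 ∧ y ≠ 0 ∧ z ≠ 0 ∧ x + y + z = 0 ∧
  v = e x + e y + e z + e (-((p : ZMod m) * x)) + e (-((p : ZMod m) * y)) +
    e (-((p : ZMod m) * z))}

/-- the relations given by algebraic cycles -/
noncomputable def RelT (m p : ℕ) [NeZero m] : AddSubgroup (A m) :=
  AddSubgroup.closure (relP m ∪ relDD m ∪ relT m p)

/-- the sum of the elements -/
noncomputable def sg : A m →+ ZMod m := ext fun x => x

theorem sg_e (x : ZMod m) : sg (e x) = x := ext_e _ _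

theorem sg_relD {l : ℕ} (hl : l.Prime) (hlm : l ∣ m) {v : A m} (hv : v ∈ relD m l) :
    sg v = 0 := by
  obtain ⟨M, hm⟩ := hlm
  obtain ⟨x, hx, rfl⟩ := hv
  rw [map_add, map_add, map_sum, sg_e]
  simp_rw [sg_e]
  rw [sum_fibre hm hl.pos]
  have h1 : ∑ a ∈ range l, ((M * a + x.val % M : ℕ) : ZMod m)
      = ((M * (l * (l - 1) / 2) : ℕ) : ZMod m) + (l : ZMod m) * x := by
    have h2 : ∑ a ∈ range l, (M * a + x.val % M) = M * (l * (l - 1) / 2) + l * (x.val % M) := by
      rw [sum_add_distrib, ← mul_sum, sum_range_id]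
      simp
    rw [← Nat.cast_sum, h2, Nat.cast_add]
    congr 1
    rw [← val_mul_eq hm, ZMod.natCast_zmod_val]
  rw [h1]
  rcases hl.eq_two_or_odd with h | h
  · subst h
    rw [if_pos rfl, sg_e]
    have h3 : m / 2 = M := by omega
    rw [h3]
    have h4 : ((M : ℕ) : ZMod m) + (M : ZMod m) = 0 := by
      rw [← Nat.cast_add, ZMod.natCast_eq_zero_iff, hm]
      exact ⟨1, by omega⟩
    norm_num
    linear_combination h4
  · have h2 : l ≠ 2 := by rintro rfl; omega
    rw [if_neg h2, map_zero, add_zero]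
    obtain ⟨r, hr⟩ : ∃ r, l = 2 * r + 1 := ⟨l / 2, by omega⟩
    have h5 : M * (l * (l - 1) / 2) = m * r := by
      have : l * (l - 1) / 2 = l * r := by
        rw [hr, Nat.add_sub_cancel]
        rw [show (2 * r + 1) * (2 * r) = 2 * ((2 * r + 1) * r) by ring]
        exact Nat.mul_div_cancel_left _ (by norm_num)
      rw [this, hm]; ring
    rw [h5]
    push_cast
    rw [ZMod.natCast_self]
    ring

omit [NeZero m] in
theorem e_zero {x : ZMod m} (hx : x ≠ 0) : (e x : A m) 0 = 0 := by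
  rw [e, Finsupp.single_apply, if_neg hx]

theorem half_ne_zero (h2 : 2 ∣ m) : ((m / 2 : ℕ) : ZMod m) ≠ 0 := by
  obtain ⟨r, hr⟩ := h2
  have hm0 := NeZero.pos m
  have hr2 : m / 2 = r := by omega
  rw [Ne, ZMod.natCast_eq_zero_iff, hr2]
  intro hd
  have := Nat.le_of_dvd (by omega) hd
  omega

theorem relD_zero {l : ℕ} (hlm : l ∣ m) {v : A m} (hv : v ∈ relD m l) : v 0 = 0 := by
  obtain ⟨x, hx, rfl⟩ := hv
  rw [Finsupp.add_apply, Finsupp.add_apply, e_zero (neg_ne_zero.2 hx), Finsupp.finsetSum_apply,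
    sum_eq_zero]
  · rw [zero_add, zero_add]
    split_ifs with h
    · subst h
      exact e_zero (half_ne_zero hlm)
    · rfl
  · intro z hz
    rw [mem_filter] at hz
    apply e_zero
    rintro rfl
    rw [mul_zero] at hz
    exact hx hz.2.symm

/-- Elements of `RelA` with sum zero are in `RelT`. -/
theorem mem_relT (hp : (p : ZMod m) = P) {v : A m} (hv : v ∈ RelA m p) (hv0 : v 0 = 0)
    (hs : sg v = 0) : v ∈ RelT m p := by
  classical
  set c : ZMod m → A m ⧸ RelT m p := fun x => if x = 0 then 0 else QuotientAddGroup.mk (e x) with hc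
  have hc0 : c 0 = 0 := if_pos rfl
  have hcne : ∀ x, x ≠ 0 → c x = QuotientAddGroup.mk (e x) := fun x hx => if_neg hx
  have hp0 : ∀ x : ZMod m, x ≠ 0 → (p : ZMod m) * x ≠ 0 := fun x hx => by
    rw [hp]; exact unit_mul_ne_zero P hx
  have hcneg : ∀ x, c (-x) = - c x := by
    intro x
    by_cases hx : x = 0
    · rw [hx, neg_zero, hc0, neg_zero]
    · rw [hcne _ (neg_ne_zero.2 hx), hcne _ hx, eq_neg_iff_add_eq_zero, ← QuotientAddGroup.mk_add,
        QuotientAddGroup.eq_zero_iff, add_comm]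
      exact AddSubgroup.subset_closure (Or.inl (Or.inl ⟨x, hx, rfl⟩))
  have hT : ∀ x y z : ZMod m, x ≠ 0 → y ≠ 0 → z ≠ 0 → x + y + z = 0 →
      (c x - c (p * x)) + (c y - c (p * y)) + (c z - c (p * z)) = 0 := by
    intro x y z hx hy hz hxyz
    have h1 : (QuotientAddGroup.mk (e x + e y + e z + e (-((p : ZMod m) * x)) +
        e (-((p : ZMod m) * y)) + e (-((p : ZMod m) * z))) : A m ⧸ RelT m p) = 0 := by
      rw [QuotientAddGroup.eq_zero_iff]
      exact AddSubgroup.subset_closure (Or.inr ⟨x, y, z, hx, hy, hz, hxyz, rfl⟩)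
    rw [QuotientAddGroup.mk_add, QuotientAddGroup.mk_add, QuotientAddGroup.mk_add,
      QuotientAddGroup.mk_add, QuotientAddGroup.mk_add, ← hcne _ hx, ← hcne _ hy, ← hcne _ hz,
      ← hcne _ (neg_ne_zero.2 (hp0 x hx)), ← hcne _ (neg_ne_zero.2 (hp0 y hy)),
      ← hcne _ (neg_ne_zero.2 (hp0 z hz)), hcneg, hcneg, hcneg] at h1
    rw [← h1]
    abel
  -- the homomorphism `D`
  have hDadd : ∀ x y : ZMod m, c (x + y) - c (p * (x + y)) =
      (c x - c (p * x)) + (c y - c (p * y)) := by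
    intro x y
    by_cases hx : x = 0
    · rw [hx, zero_add, mul_zero, hc0, sub_zero, zero_add]
    by_cases hy : y = 0
    · rw [hy, add_zero, mul_zero, hc0, sub_zero, add_zero]
    by_cases hxy : x + y = 0
    · have : y = -x := by linear_combination hxy
      rw [hxy, mul_zero, hc0, this, mul_neg, hcneg, hcneg]
      abel
    · have h1 := hT x y (-(x + y)) hx hy (neg_ne_zero.2 hxy) (by ring)
      rw [mul_neg, hcneg, hcneg] at h1
      rw [eq_comm, ← sub_eq_zero]
      rw [← h1]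
      abel
  let D : ZMod m →+ A m ⧸ RelT m p :=
    { toFun := fun x => c x - c (p * x)
      map_zero' := by rw [mul_zero, hc0, sub_zero]
      map_add' := hDadd }
  have hD : ∀ x, D x = c x - c (p * x) := fun x => rfl
  have hext : ∀ u : A m, u 0 = 0 → ext c u = QuotientAddGroup.mk u := by
    intro u hu
    rw [ext_apply]
    conv_rhs => rw [← Finsupp.sum_single u, Finsupp.sum_fintype _ _ (fun i =>
      Finsupp.single_zero i), QuotientAddGroup.mk_sum]
    refine sum_congr rfl fun z _ => ?_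
    by_cases hz : z = 0
    · rw [hz, hu, Finsupp.single_zero, QuotientAddGroup.mk_zero, zero_zsmul]
    · rw [hcne z hz, ← QuotientAddGroup.mk_zsmul, e, Finsupp.smul_single, smul_eq_mul,
        mul_one]
  -- the subgroup
  let S : AddSubgroup (A m) :=
    { carrier := {v | ∃ E : ZMod m, ext c v = D E ∧ (1 - (p : ZMod m)) * E = sg v}
      zero_mem' := ⟨0, by rw [map_zero, map_zero], by rw [map_zero, mul_zero]⟩
      add_mem' := by
        rintro a b ⟨E, h1, h2⟩ ⟨E', h3, h4⟩
        exact ⟨E + E', by rw [map_add, map_add, h1, h3], by rw [map_add, mul_add, h2, h4]⟩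
      neg_mem' := by
        rintro a ⟨E, h1, h2⟩
        exact ⟨-E, by rw [map_neg, map_neg, h1], by rw [map_neg, mul_neg, h2]⟩ }
  have hS : RelA m p ≤ S := by
    unfold RelA
    rw [AddSubgroup.closure_le]
    rintro v ((⟨x, hx, rfl⟩ | ⟨l, hl, hlm, hv⟩) | ⟨x, hx, rfl⟩)
    · refine ⟨0, ?_, ?_⟩
      · rw [map_add, ext_e, ext_e, hcneg, add_neg_cancel, map_zero]
      · rw [map_add, sg_e, sg_e, mul_zero, add_neg_cancel]
    · refine ⟨0, ?_, ?_⟩
      · rw [map_zero, hext v (relD_zero hlm hv), QuotientAddGroup.eq_zero_iff]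
        exact AddSubgroup.subset_closure (Or.inl (Or.inr ⟨l, hl, hlm, hv⟩))
      · rw [mul_zero, sg_relD hl hlm hv]
    · refine ⟨x, ?_, ?_⟩
      · rw [map_sub, ext_e, ext_e, hD]
      · rw [map_sub, sg_e, sg_e]; ring
  obtain ⟨E, h1, h2⟩ := hS hv
  rw [hs] at h2
  have h3 : (p : ZMod m) * E = E := by linear_combination -h2
  rw [hext v hv0, hD, h3, sub_self, QuotientAddGroup.eq_zero_iff] at h1
  exact h1

/-- triples with sum zero -/
def relS (m : ℕ) : Set (A m) := {v | ∃ x y z x' y' z' : ZMod m, x ≠ 0 ∧ y ≠ 0 ∧ z ≠ 0 ∧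
  x' ≠ 0 ∧ y' ≠ 0 ∧ z' ≠ 0 ∧ x + y + z = 0 ∧ x' + y' + z' = 0 ∧
  v = e x + e y + e z + e x' + e y' + e z'}

/-- The supersingular case. -/
theorem mem_relS (hm : 3 ≤ m) {v : A m} (hv0 : v 0 = 0) (hs : sg v = 0) (hcnt : Even (cnt v)) :
    v ∈ AddSubgroup.closure (relP m ∪ relS m) := by
  classical
  set R := AddSubgroup.closure (relP m ∪ relS m) with hR
  have h10 : (1 : ZMod m) ≠ 0 := by
    have : Fact (1 < m) := ⟨by omega⟩
    exact one_ne_zero
  have h20 : (-2 : ZMod m) ≠ 0 := by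
    rw [neg_ne_zero]
    intro h
    have h2 : ((2 : ℕ) : ZMod m) = 0 := by exact_mod_cast h
    rw [ZMod.natCast_eq_zero_iff] at h2
    exact absurd (Nat.le_of_dvd (by norm_num) h2) (by omega)
  have h112 : (1 : ZMod m) + 1 + -2 = 0 := by ring
  set c : ZMod m → A m ⧸ R := fun x => QuotientAddGroup.mk (e x) with hc
  set ε : A m ⧸ R := c 1 + c 1 + c (-2) with hε
  have hcneg : ∀ x, x ≠ 0 → c (-x) = - c x := by
    intro x hx
    rw [eq_neg_iff_add_eq_zero, hc]
    simp only
    rw [← QuotientAddGroup.mk_add, QuotientAddGroup.eq_zero_iff, add_comm]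
    exact AddSubgroup.subset_closure (Or.inl ⟨x, hx, rfl⟩)
  have hS : ∀ x y z : ZMod m, x ≠ 0 → y ≠ 0 → z ≠ 0 → x + y + z = 0 →
      c x + c y + c z + ε = 0 := by
    intro x y z hx hy hz hxyz
    have h1 : (QuotientAddGroup.mk (e x + e y + e z + e 1 + e 1 + e (-2)) : A m ⧸ R) = 0 := by
      rw [QuotientAddGroup.eq_zero_iff]
      exact AddSubgroup.subset_closure (Or.inr ⟨x, y, z, 1, 1, -2, hx, hy, hz, h10, h10, h20,
        hxyz, h112, rfl⟩)
    rw [← h1, hε]
    simp only [hc, QuotientAddGroup.mk_add]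
    abel
  have hεε : ε + ε = 0 := hS 1 1 (-2) h10 h10 h20 h112
  let φf : ZMod m → A m ⧸ R := fun x => if x = 0 then 0 else c x - ε
  have hφ0 : φf 0 = 0 := if_pos rfl
  have hφ : ∀ x, x ≠ 0 → φf x = c x - ε := fun x hx => if_neg hx
  have hadd : ∀ x y, φf (x + y) = φf x + φf y := by
    intro x y
    by_cases hx : x = 0
    · rw [hx, zero_add, hφ0, zero_add]
    by_cases hy : y = 0
    · rw [hy, add_zero, hφ0, add_zero]
    by_cases hxy : x + y = 0
    · have : y = -x := by linear_combination hxy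
      rw [hxy, hφ0, this, hφ x hx, hφ _ (neg_ne_zero.2 hx), hcneg x hx]
      have : (0 : A m ⧸ R) = -(ε + ε) := by rw [hεε, neg_zero]
      rw [this]
      abel
    · have h1 := hS x y (-(x + y)) hx hy (neg_ne_zero.2 hxy) (by ring)
      rw [hcneg _ hxy] at h1
      rw [hφ _ hxy, hφ x hx, hφ y hy, ← sub_eq_zero]
      have h2 : c (x + y) - ε - (c x - ε + (c y - ε))
          = -(c x + c y + -c (x + y) + ε) + (ε + ε) := by abel
      rw [h2, h1, hεε, neg_zero, zero_add]
  let φ : ZMod m →+ A m ⧸ R :=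
    { toFun := φf
      map_zero' := hφ0
      map_add' := hadd }
  have h1 : ext φf v = QuotientAddGroup.mk v - cnt v • ε := by
    have h3 : (QuotientAddGroup.mk v : A m ⧸ R) = ∑ x, v x • c x := by
      conv_lhs => rw [← Finsupp.sum_single v, Finsupp.sum_fintype _ _ (fun i =>
        Finsupp.single_zero i), QuotientAddGroup.mk_sum]
      refine sum_congr rfl fun z _ => ?_
      rw [hc]
      simp only
      rw [← QuotientAddGroup.mk_zsmul, e, Finsupp.smul_single, smul_eq_mul, mul_one]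
    have h4 : cnt v • ε = ∑ x, v x • ε := by
      have h5 := map_sum (zmultiplesHom _ ε) (fun x => v x • (1 : ℤ)) univ
      rw [cnt, ext_apply]
      simp only [zmultiplesHom_apply, smul_eq_mul, mul_one] at h5 ⊢
      exact h5
    rw [h3, h4, ext_apply, ← sum_sub_distrib]
    refine sum_congr rfl fun z _ => ?_
    by_cases hz : z = 0
    · rw [hz, hv0, zero_zsmul, zero_zsmul, zero_zsmul, sub_zero]
    · rw [hφ z hz, zsmul_sub]
  have h2 : ext φf v = φ (sg v) := by
    rw [sg, ext_apply, ext_apply, map_sum]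
    refine sum_congr rfl fun z _ => ?_
    rw [map_zsmul]
    rfl
  rw [h2, hs, map_zero] at h1
  obtain ⟨d, hd⟩ := hcnt
  have h6 : cnt v • ε = 0 := by
    rw [hd, add_zsmul, ← zsmul_add, hεε, zsmul_zero]
  rw [h6, sub_zero] at h1
  exact (QuotientAddGroup.eq_zero_iff _).1 h1.symm

end Pool.Stick
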