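import Pool.Agent.Stick.Lattice5

/-!
Modulus twice an odd prime power.
-/

open Finset

namespace Pool.Stick

open Pool.Agent.StarkRQ

section primepow

variable {m : ℕ} [NeZero m] {l k p f : ℕ} {P : (ZMod m)ˣ}

theorem Rel_le_RelA (hl : l.Prime) (hlm : l ∣ m) : Rel m l p ≤ RelA m p := by
  unfold Rel RelA
  refine AddSubgroup.closure_mono ?_
  rintro v ((hv | hv) | hv)
  · exact Or.inl (Or.inl hv)
  · exact Or.inl (Or.inr ⟨l, hl, hlm, hv⟩)
  · exact Or.inr hv

/-- odd primes: the number of terms need not be even -/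
theorem mem_rel_prime_pow_odd (hl : l.Prime) (hl2 : l ≠ 2) (hk : k ≠ 0) (hm : m = l ^ k)
    (hp : (p : ZMod m) = P) (hf : P ^ f = 1) (hf0 : f ≠ 0)
    (hneg : (-1 : (ZMod m)ˣ) ∉ Subgroup.zpowers P) {v : A m}
    (hv0 : v 0 = 0) (hbal : ∀ t, beta P f t v = 0) : v ∈ Rel m l p := by
  -- `2 v` would have an even number of terms; we use the same argument as for `mem_rel_prime_pow`
  obtain ⟨i, rfl⟩ : ∃ i, k = i + 1 := ⟨k - 1, by omega⟩
  have hmM : m = l * l ^ i := by rw [hm, pow_succ, mul_comm]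
  have hl2' : l = 2 → 2 ∣ m := fun h => absurd h hl2
  have hm1 : m ≠ 1 := by
    rw [hm]
    exact (Nat.one_lt_pow hk hl.one_lt).ne'
  have hv := mem_gen hl hm hv0
  unfold gen at hv
  obtain ⟨y, hy, r, hr, hyr⟩ := AddSubgroup.mem_sup.1 hv
  obtain ⟨w, hw, z, hz, hwz⟩ := AddSubgroup.mem_sup.1 hy
  have hz0 : z = 0 := by
    have : half m l = 0 := if_neg hl2
    rw [this, AddSubgroup.zmultiples_zero_eq_bot, AddSubgroup.mem_bot] at hz
    exact hz
  obtain ⟨w', hw'⟩ := exists_coef hw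
  have hrR : r ∈ Rel m l p := sub_rel hr
  have hveq : v = w + r := by rw [← hyr, ← hwz, hz0, add_zero]
  have hbw : ∀ t, beta P f t w = 0 := by
    intro t
    have h1 := hbal t
    rw [hveq, map_add, beta_rel hmM hl.pos hl2' hp hf t hrR, add_zero] at h1
    exact h1
  -- the sum of the coefficients may be made even by adding `w - w = 0`: use `e u + e (-u)`
  have hwR : w ∈ Rel m l p := by
    -- add or not the unit `1` twice is not needed: apply the general theorem to `w` or `w + w`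
    rw [hw']
    have hW := even_of_sum_eq_zero' (m := m) hm1 ?_ (fun u => ∑ j ∈ range f, w' ((P ^ j)⁻¹ * u)) ?_
    · exact units_mem_rel hp hf hf0 hneg w' hW hm1
    · subst hm
      exact fun χ hχ => LFunction_zero_ne_zero hl hχ
    · intro t
      have h1 := hbw t
      rw [hw', map_sum] at h1
      simp_rw [map_zsmul, beta_e, zsmul_eq_mul, mul_sum] at h1
      rw [← h1]
      push_cast
      simp_rw [sum_mul]
      rw [sum_comm]
      conv_rhs => rw [sum_comm]
      refine sum_congr rfl fun j _ => ?_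
      refine Fintype.sum_equiv (Equiv.mulLeft (P ^ j)⁻¹) _ _ fun u => ?_
      rw [Equiv.coe_mulLeft]
      congr 2
      push_cast
      rw [mul_comm ((P : ZMod m) ^ j), mul_assoc, ← mul_assoc ((P : ZMod m) ^ j)]
      congr 1
      have h5 : (P : ZMod m) ^ j * (((P ^ j)⁻¹ : (ZMod m)ˣ) : ZMod m) = 1 := by
        rw [← Units.val_pow_eq_pow_val, Units.mul_inv]
      rw [← inv_pow, Units.val_pow_eq_pow_val] at h5
      rw [h5, one_mul]
  rw [hveq]
  exact add_mem hwR hrR

end primepow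

section twice

variable {n : ℕ} [NeZero n] [NeZero (2 * n)]

/-- the embedding `x ↦ 2 x` of `ZMod n` into `ZMod (2 n)` -/
def jj (n : ℕ) (x : ZMod n) : ZMod (2 * n) := ((2 * x.val : ℕ) : ZMod (2 * n))

omit [NeZero (2 * n)] in
theorem jj_val (x : ZMod n) : (jj n x).val = 2 * x.val := by
  unfold jj
  rw [ZMod.val_natCast_of_lt]
  have := ZMod.val_lt x
  omega

omit [NeZero n] [NeZero (2 * n)] in
theorem jj_cast (a : ℕ) : jj n (a : ZMod n) = ((2 * a : ℕ) : ZMod (2 * n)) := by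
  unfold jj
  rw [ZMod.val_natCast, ← Nat.mul_mod_mul_left, ZMod.natCast_mod]

omit [NeZero (2 * n)] in
theorem jj_add (x y : ZMod n) : jj n (x + y) = jj n x + jj n y := by
  have h := jj_cast (n := n) (x.val + y.val)
  rw [Nat.cast_add, ZMod.natCast_zmod_val, ZMod.natCast_zmod_val] at h
  rw [h]
  unfold jj
  push_cast
  ring

omit [NeZero (2 * n)] in
theorem jj_zero : jj n 0 = 0 := by
  unfold jj
  simp

omit [NeZero (2 * n)] in
theorem jj_neg (x : ZMod n) : jj n (-x) = - jj n x := by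
  rw [eq_neg_iff_add_eq_zero, ← jj_add, neg_add_cancel, jj_zero]

omit [NeZero (2 * n)] in
theorem jj_mul (a : ℕ) (x : ZMod n) : jj n ((a : ZMod n) * x) = (a : ZMod (2 * n)) * jj n x := by
  have h := jj_cast (n := n) (a * x.val)
  rw [Nat.cast_mul, ZMod.natCast_zmod_val] at h
  rw [h]
  unfold jj
  push_cast
  ring

omit [NeZero (2 * n)] in
theorem jj_inj {x y : ZMod n} (h : jj n x = jj n y) : x = y := by
  have h1 := congrArg ZMod.val h
  rw [jj_val, jj_val] at h1
  exact ZMod.val_injective n (by omega)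

omit [NeZero (2 * n)] in
theorem jj_ne_zero {x : ZMod n} (h : x ≠ 0) : jj n x ≠ 0 := fun h1 =>
  h (jj_inj (h1.trans jj_zero.symm))

omit [NeZero (2 * n)] in
theorem hh_jj (x : ZMod n) : hh (2 * n) (jj n x) = hh n x := by
  unfold hh
  rw [jj_val]
  have : (n : ℝ) ≠ 0 := by exact_mod_cast NeZero.ne n
  push_cast
  field_simp

/-- the extension of `jj` -/
noncomputable def JJ (n : ℕ) : A n →+ A (2 * n) := ext fun x => e (jj n x)

omit [NeZero n] [NeZero (2 * n)] in
theorem JJ_e (x : ZMod n) : JJ n (e x) = e (jj n x) := ext_e _ _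

/-- the distribution relations for an odd prime -/
theorem JJ_relD {l M : ℕ} (hl : l.Prime) (hl2 : l ≠ 2) (hn : n = l * M) {v : A n}
    (hv : v ∈ relD n l) : JJ n v ∈ relD (2 * n) l := by
  obtain ⟨x, hx, rfl⟩ := hv
  refine ⟨jj n x, ?_, ?_⟩
  · rw [← jj_mul]
    exact jj_ne_zero hx
  · rw [if_neg hl2, if_neg hl2, add_zero, add_zero, map_add, map_sum, JJ_e, jj_neg, jj_mul]
    simp_rw [JJ_e]
    congr 1
    rw [sum_fibre hn hl.pos x (fun z => e (jj n z))]
    rw [sum_fibre (m := 2 * n) (M := 2 * M) (by rw [hn]; ring) hl.pos (jj n x) e]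
    refine sum_congr rfl fun a _ => ?_
    rw [jj_cast, jj_val, Nat.mul_mod_mul_left]
    congr 2
    ring

theorem JJ_Rel {l M p : ℕ} (hl : l.Prime) (hl2 : l ≠ 2) (hn : n = l * M) {v : A n}
    (hv : v ∈ Rel n l p) : JJ n v ∈ RelA (2 * n) p := by
  have h : Rel n l p ≤ (RelA (2 * n) p).comap (JJ n) := by
    unfold Rel
    rw [AddSubgroup.closure_le]
    rintro v ((⟨x, hx, rfl⟩ | hv) | ⟨x, hx, rfl⟩)
    · change JJ n _ ∈ RelA (2 * n) p
      rw [map_add, JJ_e, JJ_e, jj_neg]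
      exact AddSubgroup.subset_closure (Or.inl (Or.inl ⟨_, jj_ne_zero hx, rfl⟩))
    · change JJ n _ ∈ RelA (2 * n) p
      refine AddSubgroup.subset_closure (Or.inl (Or.inr ⟨l, hl, ?_, JJ_relD hl hl2 hn hv⟩))
      exact ⟨2 * M, by rw [hn]; ring⟩
    · change JJ n _ ∈ RelA (2 * n) p
      rw [map_sub, JJ_e, JJ_e, jj_mul]
      exact AddSubgroup.subset_closure (Or.inr ⟨_, jj_ne_zero hx, rfl⟩)
  exact h hv

/-- generated by the even elements, the half and the relations -/
noncomputable def genE (n : ℕ) [NeZero n] [NeZero (2 * n)] : AddSubgroup (A (2 * n)) :=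
  ((Finsupp.applyAddHom (0 : ZMod n) : A n →+ ℤ).ker).map (JJ n) ⊔
    AddSubgroup.zmultiples (half (2 * n) 2) ⊔
    AddSubgroup.closure (relP (2 * n) ∪ relD (2 * n) 2)

theorem even_mem_genE {x : ZMod n} (hx : x ≠ 0) : e (jj n x) ∈ genE n := by
  refine AddSubgroup.mem_sup_left (AddSubgroup.mem_sup_left ⟨e x, ?_, JJ_e x⟩)
  exact e_zero hx

omit [NeZero (2 * n)] in
theorem natCast_two_mul (a : ℕ) : ((2 * a : ℕ) : ZMod (2 * n)) = jj n (a : ZMod n) :=
  (jj_cast a).symm

theorem e_mem_genE (hn : Odd n) (y : ZMod (2 * n)) (hy : y ≠ 0) : e y ∈ genE n := by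
  have hn0 : 0 < n := NeZero.pos n
  have hyv : y.val < 2 * n := ZMod.val_lt y
  have hy0 : y.val ≠ 0 := fun h => hy ((ZMod.val_eq_zero y).1 h)
  obtain ⟨b, hb⟩ := hn
  -- even elements
  have hev : ∀ z : ℕ, z ≠ 0 → z < n → e ((2 * z : ℕ) : ZMod (2 * n)) ∈ genE n := by
    intro z hz hzn
    rw [natCast_two_mul]
    apply even_mem_genE
    rw [Ne, ZMod.natCast_eq_zero_iff]
    intro h
    exact absurd (Nat.le_of_dvd (Nat.pos_of_ne_zero hz) h) (by omega)
  have hhalf : half (2 * n) 2 = e ((n : ℕ) : ZMod (2 * n)) := by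
    unfold half
    rw [if_pos rfl]
    congr 2
    omega
  have hH : e ((n : ℕ) : ZMod (2 * n)) ∈ genE n := by
    rw [← hhalf]
    exact AddSubgroup.mem_sup_left (AddSubgroup.mem_sup_right (AddSubgroup.mem_zmultiples _))
  rcases Nat.even_or_odd' y.val with ⟨a, ha | ha⟩
  · have h1 : y = ((2 * a : ℕ) : ZMod (2 * n)) := by rw [← ha, ZMod.natCast_zmod_val]
    rw [h1]
    exact hev a (by omega) (by omega)
  · by_cases hyn : y.val = n
    · have h1 : y = ((n : ℕ) : ZMod (2 * n)) := by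
        have h2 : ((y.val : ℕ) : ZMod (2 * n)) = ((n : ℕ) : ZMod (2 * n)) := congrArg _ hyn
        rwa [ZMod.natCast_zmod_val] at h2
      rw [h1]
      exact hH
    -- the distribution relation
    have h2y : ((2 : ℕ) : ZMod (2 * n)) * y = jj n (y.val : ZMod n) := by
      rw [jj_cast]
      push_cast
      rw [ZMod.natCast_zmod_val]
    have hyn0 : ((y.val : ℕ) : ZMod n) ≠ 0 := by
      rw [Ne, ZMod.natCast_eq_zero_iff]
      rintro ⟨c, hc⟩
      have hc2 : c < 2 := by
        by_contra hcon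
        have : n * 2 ≤ n * c := Nat.mul_le_mul_left _ (by omega)
        omega
      interval_cases c
      · omega
      · omega
    have hne : ((2 : ℕ) : ZMod (2 * n)) * y ≠ 0 := by
      rw [h2y]
      exact jj_ne_zero hyn0
    have hD : (∑ z ∈ univ.filter (fun z : ZMod (2 * n) => ((2 : ℕ) : ZMod (2 * n)) * z = (2 : ℕ) * y),
        e z + e (-(((2 : ℕ) : ZMod (2 * n)) * y)) + half (2 * n) 2) ∈ genE n :=
      AddSubgroup.mem_sup_right (AddSubgroup.subset_closure (Or.inr ⟨y, hne, rfl⟩))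
    have hm2 : e (-(((2 : ℕ) : ZMod (2 * n)) * y)) ∈ genE n := by
      rw [h2y, ← jj_neg]
      exact even_mem_genE (neg_ne_zero.2 hyn0)
    rw [sum_fibre (m := 2 * n) (M := n) rfl (by norm_num) y e, sum_range_succ, sum_range_one,
      mul_zero, zero_add, mul_one] at hD
    rw [hhalf] at hD
    rcases Nat.lt_or_ge y.val n with hlt | hge
    · rw [Nat.mod_eq_of_lt hlt, ZMod.natCast_zmod_val] at hD
      have h3 : e ((n + y.val : ℕ) : ZMod (2 * n)) ∈ genE n := by
        have h4 : n + y.val = 2 * (b + a + 1) := by omega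
        rw [h4]
        exact hev _ (by omega) (by omega)
      have h5 : e y = (e y + e ((n + y.val : ℕ) : ZMod (2 * n)) +
          e (-(((2 : ℕ) : ZMod (2 * n)) * y)) + e ((n : ℕ) : ZMod (2 * n)))
          - e ((n + y.val : ℕ) : ZMod (2 * n)) - e (-(((2 : ℕ) : ZMod (2 * n)) * y))
          - e ((n : ℕ) : ZMod (2 * n)) := by abel
      rw [h5]
      exact sub_mem (sub_mem (sub_mem hD h3) hm2) hH
    · have hmod : y.val % n = y.val - n := by
        rw [Nat.mod_eq_sub_mod hge, Nat.mod_eq_of_lt (by omega)]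
      rw [hmod, Nat.add_sub_cancel' hge, ZMod.natCast_zmod_val] at hD
      have h3 : e ((y.val - n : ℕ) : ZMod (2 * n)) ∈ genE n := by
        have h4 : y.val - n = 2 * (a - b) := by omega
        rw [h4]
        exact hev _ (by omega) (by omega)
      have h5 : e y = (e ((y.val - n : ℕ) : ZMod (2 * n)) + e y +
          e (-(((2 : ℕ) : ZMod (2 * n)) * y)) + e ((n : ℕ) : ZMod (2 * n)))
          - e ((y.val - n : ℕ) : ZMod (2 * n)) - e (-(((2 : ℕ) : ZMod (2 * n)) * y))
          - e ((n : ℕ) : ZMod (2 * n)) := by abel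
      rw [h5]
      exact sub_mem (sub_mem (sub_mem hD h3) hm2) hH

theorem mem_genE (hn : Odd n) {v : A (2 * n)} (hv : v 0 = 0) : v ∈ genE n := by
  have h1 : v = ∑ x : ZMod (2 * n), v x • e x := by
    conv_lhs => rw [← Finsupp.sum_single v]
    rw [Finsupp.sum_fintype]
    · refine sum_congr rfl fun x _ => ?_
      rw [e, Finsupp.smul_single, smul_eq_mul, mul_one]
    · intro i
      exact Finsupp.single_zero i
  rw [h1]
  refine AddSubgroup.sum_mem _ fun x _ => ?_
  by_cases hx : x = 0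
  · subst hx
    rw [hv, zero_smul]
    exact zero_mem _
  · exact AddSubgroup.zsmul_mem _ (e_mem_genE hn x hx) _

omit [NeZero (2 * n)] in
theorem unit_mul_jj (s : (ZMod (2 * n))ˣ) (x : ZMod n) : (s : ZMod (2 * n)) * jj n x =
    jj n ((ZMod.unitsMap (dvd_mul_left n 2) s : ZMod n) * x) := by
  have h0 : NeZero (2 * n) := ⟨by have := NeZero.ne n; omega⟩
  have h1 : (s : ZMod (2 * n)) = (((s : ZMod (2 * n)).val : ℕ) : ZMod (2 * n)) :=
    (ZMod.natCast_zmod_val _).symm
  have h2 : ((ZMod.unitsMap (dvd_mul_left n 2) s : (ZMod n)ˣ) : ZMod n)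
      = (((s : ZMod (2 * n)).val : ℕ) : ZMod n) := by
    rw [ZMod.unitsMap_val, ZMod.natCast_val]
  rw [h2, jj_mul, ← h1]

theorem unitsMap_inj (hn : Odd n) {s t : (ZMod (2 * n))ˣ}
    (h : ZMod.unitsMap (dvd_mul_left n 2) s = ZMod.unitsMap (dvd_mul_left n 2) t) : s = t := by
  have h2 : ∀ u : (ZMod (2 * n))ˣ, ((ZMod.unitsMap (dvd_mul_left n 2) u : (ZMod n)ˣ) : ZMod n)
      = (((u : ZMod (2 * n)).val : ℕ) : ZMod n) := by
    intro u
    rw [ZMod.unitsMap_val, ZMod.natCast_val]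
  have h3 : (((s : ZMod (2 * n)).val : ℕ) : ZMod n) = (((t : ZMod (2 * n)).val : ℕ) : ZMod n) := by
    rw [← h2, ← h2, h]
  rw [ZMod.natCast_eq_natCast_iff] at h3
  have hodd : ∀ u : (ZMod (2 * n))ˣ, (u : ZMod (2 * n)).val % 2 = 1 := by
    intro u
    have hc := ZMod.val_coe_unit_coprime u
    by_contra hcon
    have h4 : 2 ∣ Nat.gcd (u : ZMod (2 * n)).val (2 * n) :=
      Nat.dvd_gcd (by omega) (dvd_mul_right _ _)
    rw [hc] at h4
    omega
  have h5 : (s : ZMod (2 * n)).val ≡ (t : ZMod (2 * n)).val [MOD 2] := by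
    rw [Nat.ModEq, hodd, hodd]
  have hcop : Nat.Coprime 2 n := by
    rw [Nat.coprime_two_left]
    exact hn
  have h6 := (Nat.modEq_and_modEq_iff_modEq_mul hcop).1 ⟨h5, h3⟩
  apply Units.ext
  have h7 := (ZMod.natCast_eq_natCast_iff _ _ _).2 h6
  rwa [ZMod.natCast_zmod_val, ZMod.natCast_zmod_val] at h7

/-- modulus twice an odd prime power -/
theorem mem_relA_twice {l k p f : ℕ} (hl : l.Prime) (hl2 : l ≠ 2) (hk : k ≠ 0) (hnk : n = l ^ k)
    {P : (ZMod (2 * n))ˣ} (hp : (p : ZMod (2 * n)) = P) (hf : P ^ f = 1) (hf0 : f ≠ 0)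
    (hneg : (-1 : (ZMod (2 * n))ˣ) ∉ Subgroup.zpowers P) {v : A (2 * n)} (hv0 : v 0 = 0)
    (hcnt : Even (cnt v)) (hbal : ∀ t, beta P f t v = 0) : v ∈ RelA (2 * n) p := by
  have hnodd : Odd n := by
    rw [hnk]
    exact (hl.odd_of_ne_two hl2).pow
  obtain ⟨i, hi⟩ : ∃ i, k = i + 1 := ⟨k - 1, by omega⟩
  have hnM : n = l * l ^ i := by rw [hnk, hi, pow_succ, mul_comm]
  have h22 : (2 : ℕ) = 2 → 2 ∣ 2 * n := fun _ => dvd_mul_right _ _
  set P' : (ZMod n)ˣ := ZMod.unitsMap (dvd_mul_left n 2) P with hP'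
  have hp' : (p : ZMod n) = P' := by
    rw [hP', ZMod.unitsMap_val, ← hp, ZMod.cast_natCast (dvd_mul_left n 2)]
  have hf' : P' ^ f = 1 := by rw [hP', ← map_pow, hf, map_one]
  have hneg' : (-1 : (ZMod n)ˣ) ∉ Subgroup.zpowers P' := by
    intro h
    rw [← mem_powers_iff_mem_zpowers] at h
    obtain ⟨j, hj⟩ := h
    apply hneg
    have h1 : P ^ j = -1 := by
      apply unitsMap_inj hnodd
      rw [map_pow, ← hP']
      have h2 : ZMod.unitsMap (dvd_mul_left n 2) (-1 : (ZMod (2 * n))ˣ) = -1 := by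
        apply Units.ext
        rw [ZMod.unitsMap_val, Units.val_neg, Units.val_neg, Units.val_one, Units.val_one]
        exact (map_neg (ZMod.castHom (dvd_mul_left n 2) (ZMod n)) 1).trans (by rw [map_one])
      rw [h2]
      exact hj
    rw [← h1]
    exact Subgroup.npow_mem_zpowers P j
  have hv := mem_genE hnodd hv0
  unfold genE at hv
  obtain ⟨y, hy, r, hr, hyr⟩ := AddSubgroup.mem_sup.1 hv
  obtain ⟨w1, hw1, z, hz, hwz⟩ := AddSubgroup.mem_sup.1 hy
  obtain ⟨w, hw, rfl⟩ := hw1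
  obtain ⟨c, hc⟩ := AddSubgroup.mem_zmultiples_iff.1 hz
  have hw0 : w 0 = 0 := hw
  have hrR : r ∈ Rel (2 * n) 2 p := sub_rel hr
  have hveq : v = JJ n w + c • half (2 * n) 2 + r := by rw [← hyr, ← hwz, ← hc]
  -- the functionals
  have hbJ : ∀ (t : (ZMod (2 * n))ˣ) (u : A n), beta P f t (JJ n u)
      = beta P' f (ZMod.unitsMap (dvd_mul_left n 2) t) u := by
    intro t u
    have h1 : (beta P f t).comp (JJ n) = beta P' f (ZMod.unitsMap (dvd_mul_left n 2) t) := by
      refine Finsupp.addHom_ext fun x b => ?_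
      have h2 : (Finsupp.single x b : A n) = b • e x := by
        rw [e, Finsupp.smul_single, smul_eq_mul, mul_one]
      rw [h2, map_zsmul, map_zsmul, AddMonoidHom.comp_apply, JJ_e, beta_e, beta_e]
      congr 1
      refine sum_congr rfl fun j _ => ?_
      rw [unit_mul_jj, hh_jj, map_mul, map_pow]
    exact DFunLike.congr_fun h1 u
  have hbw : ∀ t, beta P' f t w = 0 := by
    intro t
    obtain ⟨t', rfl⟩ := ZMod.unitsMap_surjective (dvd_mul_left n 2) t
    rw [← hbJ]
    have h1 := hbal t'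
    rw [hveq, map_add, map_add, map_zsmul, beta_half h22 t', smul_zero, add_zero,
      beta_rel (M := n) rfl (by norm_num) h22 hp hf t' hrR, add_zero] at h1
    exact h1
  have hwR : w ∈ Rel n l p := mem_rel_prime_pow_odd hl hl2 hk hnk hp' hf' hf0 hneg' hw0 hbw
  have hJw := JJ_Rel hl hl2 hnM hwR
  have hcJ : cnt (JJ n w) = cnt w := by
    have h1 : (cnt : A (2 * n) →+ ℤ).comp (JJ n) = cnt := by
      refine Finsupp.addHom_ext fun x b => ?_
      have h2 : (Finsupp.single x b : A n) = b • e x := by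
        rw [e, Finsupp.smul_single, smul_eq_mul, mul_one]
      rw [h2, map_zsmul, map_zsmul, AddMonoidHom.comp_apply, JJ_e, cnt_e, cnt_e]
    exact DFunLike.congr_fun h1 w
  have hc2 : Even (c * cnt (half (2 * n) 2)) := by
    have h1 := even_cnt hnM hl hwR
    have h2 := even_cnt (m := 2 * n) (M := n) rfl Nat.prime_two hrR
    have h3 : c * cnt (half (2 * n) 2) = cnt v - cnt w - cnt r := by
      rw [hveq, map_add, map_add, map_zsmul, smul_eq_mul, hcJ]
      ring
    rw [h3]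
    exact (hcnt.sub h1).sub h2
  have hle : Rel (2 * n) 2 p ≤ RelA (2 * n) p := Rel_le_RelA Nat.prime_two (dvd_mul_right _ _)
  rw [hveq]
  exact add_mem (add_mem hJw (hle (mul_half_mem h22 hc2))) (hle hrR)

end twice

end Pool.Stick
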