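import Pool.Agent.Stick.One
import Pool.Agent.Stick.Arith

/-!
Stickelberger's theorem on the valuations of Gauss sums, for a field `K` which is algebraically
closed, of characteristic zero and complete or not with respect to an ultrametric norm with
`‖p‖ < 1`.
-/

namespace Pool.Stick

open Finset

variable {K : Type*} [NormedField K] [IsUltrametricDist K] [CharZero K] {p : ℕ}
  [hp : Fact p.Prime] {F : Type*} [Field F] [Fintype F] [Algebra (ZMod p) F]

omit [IsUltrametricDist K] in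
lemma gaussSum_ne_zero {ζ : K} (hζ : IsPrimitiveRoot ζ p) (χ : MulChar F K) :
    gaussSum χ (psi F hζ.pow_eq_one) ≠ 0 := by
  by_cases hχ : χ = 1
  · subst hχ
    rw [gaussSum_one_left (psi_ne_one hζ)]
    exact neg_ne_zero.2 one_ne_zero
  · exact gaussSum_ne_zero_of_nontrivial (Nat.cast_ne_zero.2 Fintype.card_ne_zero) hχ (psi_prim hζ)

theorem norm_gaussSum_teich_pow (h : ‖(p : K)‖ < 1) {ζ : K} (hζ : IsPrimitiveRoot ζ p)
    {ω : MulChar F K} {ι : F →+* κ K}
    (hω : ∀ x : F, red K ⟨ω x, norm_mulChar_le ω x⟩ = ι x)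
    (hord : orderOf ω = Fintype.card F - 1) (hN : 1 < Fintype.card F - 1) {a : ℕ}
    (ha : a < Fintype.card F - 1) :
    ‖gaussSum (ω⁻¹ ^ a) (psi F hζ.pow_eq_one)‖ ^ (Fintype.card F - 1)
      = ‖(p : K)‖ ^ T p (Module.finrank (ZMod p) F) a := by
  have hcard := card_eq_pow p F
  have hf0 : Module.finrank (ZMod p) F ≠ 0 := Module.finrank_pos.ne'
  rw [hcard] at ha hord hN ⊢
  set f := Module.finrank (ZMod p) F with hf
  have hord' : orderOf ω⁻¹ = p ^ f - 1 := by rw [orderOf_inv, hord]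
  have hω1 : ω ≠ 1 := by
    intro h1
    rw [h1, orderOf_one] at hord
    omega
  have hne : ∀ n, 0 < n → n < p ^ f - 1 → ω⁻¹ ^ n ≠ 1 := by
    intro n h0 h1 h2
    have := orderOf_dvd_of_pow_eq_one h2
    rw [hord'] at this
    exact absurd (Nat.le_of_dvd h0 this) (by omega)
  refine recursion hp.out hf0 hN
    (fun a => ‖gaussSum (ω⁻¹ ^ a) (psi F hζ.pow_eq_one)‖) ?_ ?_ ?_ ?_ ?_ ?_ ha
  · simp only [pow_zero]
    rw [gaussSum_one_left (psi_ne_one hζ), norm_neg, norm_one]
  · intro b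
    exact norm_pos_iff.2 (gaussSum_ne_zero hζ _)
  · intro b c h0 h1
    have h2 : ω⁻¹ ^ b * ω⁻¹ ^ c ≠ 1 := by rw [← pow_add]; exact hne _ h0 h1
    have := norm_gaussSum_mul_le h2 (psi F hζ.pow_eq_one)
    rwa [← pow_add] at this
  · intro b h0 h1
    have h2 := norm_gaussSum_mul_inv (hne b h0 h1) (psi_prim hζ)
    have h3 : (ω⁻¹ ^ b)⁻¹ = ω⁻¹ ^ (p ^ f - 1 - b) := by
      rw [inv_eq_iff_mul_eq_one, ← pow_add, Nat.add_sub_cancel' h1.le, ← hord',
        pow_orderOf_eq_one]
    rw [h3] at h2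
    rw [h2, hcard, Nat.cast_pow, norm_pow]
  · intro b
    rw [mul_comm, pow_mul, gaussSum_pow]
  · simp only [pow_one]
    rw [norm_gaussSum_teich h hζ hω hω1, norm_zeta_sub_one_pow hζ]

/-- **Stickelberger's theorem** (valuations). Let `χ` be a multiplicative character of order `m`
of a finite field with `q = p^f` elements. There is a unit `u` modulo `m` such that for all `a`:
`‖g(χ^a)‖^m = ‖p‖^(∑_{i<f} (p^i u a mod m))`. -/
theorem stickelberger [IsAlgClosed K] (h : ‖(p : K)‖ < 1) {ζ : K} (hζ : IsPrimitiveRoot ζ p)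
    (χ : MulChar F K) :
    ∃ u : ℕ, u.Coprime (orderOf χ) ∧ ∀ a : ℕ,
      ‖gaussSum (χ ^ a) (psi F hζ.pow_eq_one)‖ ^ orderOf χ
        = ‖(p : K)‖ ^ (∑ i ∈ range (Module.finrank (ZMod p) F),
          (p ^ i * (u * a)) % orderOf χ) := by
  have : CharP F p := (Algebra.charP_iff (ZMod p) F p).1 inferInstance
  obtain ⟨ω, ι, hω, hord, hgen⟩ := exists_teich K p F h
  obtain ⟨c, hc⟩ := hgen χ
  set N := Fintype.card F - 1 with hNd
  have hN0 : 0 < N := by
    have : 1 < Fintype.card F := Fintype.one_lt_card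
    omega
  have hord' : orderOf ω⁻¹ = N := by rw [orderOf_inv, hord]
  have hm : orderOf χ = N / Nat.gcd N c := by
    rw [hc, orderOf_pow, hord']
  set m := orderOf χ with hmd
  set d := Nat.gcd N c with hd
  have hd0 : 0 < d := Nat.gcd_pos_of_pos_left c hN0
  have hNmd : N = m * d := by
    rw [hm, Nat.div_mul_cancel (Nat.gcd_dvd_left N c)]
  have hcd : c = c / d * d := (Nat.div_mul_cancel (Nat.gcd_dvd_right N c)).symm
  set u := c / d with hu
  have hcop : Nat.Coprime u m := by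
    rw [hm, hu, Nat.coprime_comm]
    exact Nat.coprime_div_gcd_div_gcd hd0
  refine ⟨u, hcop, fun a => ?_⟩
  have hm0 : 0 < m := χ.orderOf_pos
  rcases Nat.lt_or_ge 1 N with hN | hN
  swap
  · -- N = 1
    have hN1 : N = 1 := by omega
    have hm1 : m = 1 := Nat.eq_one_of_mul_eq_one_right (hNmd.symm.trans hN1)
    have hχ1 : χ = 1 := orderOf_eq_one_iff.1 hm1
    rw [hm1, hχ1, one_pow, gaussSum_one_left (psi_ne_one hζ)]
    simp [Nat.mod_one]
  have hb : (c * a) % N < N := Nat.mod_lt _ hN0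
  have key := norm_gaussSum_teich_pow h hζ hω hord hN hb
  have e1 : ω⁻¹ ^ ((c * a) % N) = χ ^ a := by
    rw [hc, ← pow_mul, ← hord', pow_mod_orderOf]
  rw [e1] at key
  set f := Module.finrank (ZMod p) F with hf
  have hNf : N = p ^ f - 1 := by rw [hNd, card_eq_pow p F]
  have e2 : T p f ((c * a) % N) = d * ∑ i ∈ range f, (p ^ i * (u * a)) % m := by
    have : T p f ((c * a) % N) = T p f (c * a) := T_congr (by rw [← hNf]; exact Nat.mod_modEq _ _)
    rw [this]
    unfold T
    rw [← hNf, mul_sum]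
    refine sum_congr rfl fun i _ => ?_
    rw [hNmd, hcd]
    have e3 : p ^ i * (u * d * a) = d * (p ^ i * (u * a)) := by ring
    rw [e3, mul_comm m d, Nat.mul_mod_mul_left]
  rw [e2, ← hNd, hNmd, pow_mul, mul_comm d, pow_mul] at key
  exact (pow_left_inj₀ (pow_nonneg (norm_nonneg _) _) (pow_nonneg (norm_nonneg _) _)
    hd0.ne').1 key

omit [IsUltrametricDist K] in
/-- every nontrivial additive character is a twist of the standard one -/
lemma exists_mulShift [IsAlgClosed K] {ζ : K} (hζ : IsPrimitiveRoot ζ p) {ψ : AddChar F K}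
    (hψ : ψ ≠ 1) : ∃ a : Fˣ, ψ = (psi F hζ.pow_eq_one).mulShift a := by
  classical
  have hinj := AddChar.to_mulShift_inj_of_isPrimitive (psi_prim (F := F) hζ)
  have hexp : Monoid.exponent (Multiplicative F) ≠ 0 := Monoid.exponent_ne_zero_of_finite
  have : NeZero (Monoid.exponent (Multiplicative F) : K) := ⟨Nat.cast_ne_zero.2 hexp⟩
  have : NeZero (Monoid.exponent (Multiplicative F)) := ⟨hexp⟩
  have hc : Nat.card (Multiplicative F →* Kˣ) = Nat.card (Multiplicative F) :=
    CommGroup.card_monoidHom_of_hasEnoughRootsOfUnity (Multiplicative F) K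
  have e : AddChar F K ≃ (Multiplicative F →* Kˣ) :=
    (AddChar.toMonoidHomEquiv).trans
      { toFun := fun f => f.toHomUnits
        invFun := fun f => (Units.coeHom K).comp f
        left_inv := fun f => by ext x; simp
        right_inv := fun f => by ext x; simp }
  have hc2 : Nat.card (AddChar F K) = Nat.card F := by
    rw [Nat.card_congr e, hc]; rfl
  have hfin : Finite (AddChar F K) := Nat.finite_of_card_ne_zero (by
    rw [hc2]; exact Nat.card_pos.ne')
  have hbij : Function.Bijective ((psi F hζ.pow_eq_one).mulShift) :=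
    (Nat.bijective_iff_injective_and_card _).2 ⟨hinj, hc2.symm⟩
  obtain ⟨a, ha⟩ := hbij.2 ψ
  have ha0 : a ≠ 0 := by
    rintro rfl
    rw [AddChar.mulShift_zero] at ha
    exact hψ ha.symm
  exact ⟨Units.mk0 a ha0, ha.symm⟩

/-- **Stickelberger's theorem** (valuations), for any nontrivial additive character. -/
theorem stickelberger' [IsAlgClosed K] (h : ‖(p : K)‖ < 1) (χ : MulChar F K) :
    ∃ u : ℕ, u.Coprime (orderOf χ) ∧ ∀ ψ : AddChar F K, ψ ≠ 1 → ∀ a : ℕ,
      ‖gaussSum (χ ^ a) ψ‖ ^ orderOf χ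
        = ‖(p : K)‖ ^ (∑ i ∈ range (Module.finrank (ZMod p) F),
          (p ^ i * (u * a)) % orderOf χ) := by
  have : NeZero (p : K) := ⟨Nat.cast_ne_zero.2 hp.out.ne_zero⟩
  have : NeZero p := ⟨hp.out.ne_zero⟩
  obtain ⟨ζ, hζ⟩ := HasEnoughRootsOfUnity.exists_primitiveRoot K p
  obtain ⟨u, hu, hall⟩ := stickelberger h hζ χ
  refine ⟨u, hu, fun ψ hψ a => ?_⟩
  obtain ⟨b, rfl⟩ := exists_mulShift hζ hψ
  rw [norm_gaussSum_mulShift, hall a]

end Pool.Stick
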