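import Pool.Agent.Stick.Teich

/-!
The standard additive character, its Frobenius invariance and the Gauss sum of the inverse of the
Teichmueller character.
-/

namespace Pool.Stick

open Finset

section zeta

variable {K : Type*} [NormedField K] [IsUltrametricDist K] {p : ℕ} [hp : Fact p.Prime]

lemma norm_pow_sub_one_le {ζ : K} (h1 : ‖ζ‖ = 1) (k : ℕ) : ‖ζ ^ k - 1‖ ≤ ‖ζ - 1‖ := by
  rw [← geom_sum_mul, norm_mul]
  refine mul_le_of_le_one_left (norm_nonneg _) ?_
  refine IsUltrametricDist.norm_sum_le_of_forall_le_of_nonneg zero_le_one fun j _ => ?_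
  rw [norm_pow, h1, one_pow]

lemma norm_zeta_sub_one_pow {ζ : K} (hζ : IsPrimitiveRoot ζ p) :
    ‖ζ - 1‖ ^ (p - 1) = ‖(p : K)‖ := by
  classical
  have h1 := Polynomial.eval_one_cyclotomic_prime (R := K) (p := p)
  rw [Polynomial.cyclotomic_eq_prod_X_sub_primitiveRoots hζ, Polynomial.eval_prod] at h1
  simp only [Polynomial.eval_sub, Polynomial.eval_X, Polynomial.eval_C] at h1
  rw [← h1, norm_prod]
  have h2 : ∀ μ ∈ primitiveRoots p K, ‖1 - μ‖ = ‖ζ - 1‖ := by
    intro μ hμ
    rw [mem_primitiveRoots hp.out.pos] at hμ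
    have n1 : ‖ζ‖ = 1 := norm_eq_one_of_pow hp.out.ne_zero hζ.pow_eq_one
    have n2 : ‖μ‖ = 1 := norm_eq_one_of_pow hp.out.ne_zero hμ.pow_eq_one
    obtain ⟨k, _, hk⟩ := hζ.eq_pow_of_pow_eq_one hμ.pow_eq_one
    obtain ⟨l, _, hl⟩ := hμ.eq_pow_of_pow_eq_one hζ.pow_eq_one
    rw [norm_sub_rev]
    apply le_antisymm
    · rw [← hk]; exact norm_pow_sub_one_le n1 k
    · conv_lhs => rw [← hl]
      exact norm_pow_sub_one_le n2 l
  rw [prod_congr rfl h2, prod_const, hζ.card_primitiveRoots, Nat.totient_prime hp.out]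

end zeta

section psi

variable {K : Type*} [NormedField K] {p : ℕ} [hp : Fact p.Prime] (F : Type*) [Field F] [Fintype F]
  [Algebra (ZMod p) F]

/-- the standard additive character `ζ ^ Tr x` -/
noncomputable def psi {ζ : K} (hζ : ζ ^ p = 1) : AddChar F K :=
  (AddChar.zmodChar p hζ).compAddMonoidHom (Algebra.trace (ZMod p) F).toAddMonoidHom

variable {F}

lemma psi_apply {ζ : K} (hζ : ζ ^ p = 1) (x : F) :
    psi F hζ x = ζ ^ (Algebra.trace (ZMod p) F x).val := rfl

lemma trace_pow (x : F) : Algebra.trace (ZMod p) F (x ^ p) = Algebra.trace (ZMod p) F x := by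
  have h := Algebra.trace_eq_of_algEquiv (FiniteField.frobeniusAlgEquivOfAlgebraic (ZMod p) F) x
  rw [FiniteField.coe_frobeniusAlgEquivOfAlgebraic] at h
  simpa [ZMod.card] using h

lemma psi_pow {ζ : K} (hζ : ζ ^ p = 1) (x : F) : psi F hζ (x ^ p) = psi F hζ x := by
  rw [psi_apply, psi_apply, trace_pow]

/-- Frobenius invariance -/
lemma gaussSum_pow {ζ : K} (hζ : ζ ^ p = 1) (χ : MulChar F K) :
    gaussSum (χ ^ p) (psi F hζ) = gaussSum χ (psi F hζ) := by
  unfold gaussSum
  have hb : Function.Bijective (fun x : F => x ^ p) := by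
    have h := (FiniteField.frobeniusAlgEquivOfAlgebraic (ZMod p) F).bijective
    rw [FiniteField.coe_frobeniusAlgEquivOfAlgebraic] at h
    simpa [ZMod.card] using h
  refine Fintype.sum_bijective _ hb _ _ fun x => ?_
  rw [psi_pow, MulChar.pow_apply' χ hp.out.ne_zero, map_pow]

lemma psi_ne_one {ζ : K} (hζ : IsPrimitiveRoot ζ p) : psi F hζ.pow_eq_one ≠ 1 := by
  intro h
  obtain ⟨x, hx⟩ := Algebra.trace_surjective (ZMod p) F 1
  have h1 : psi F hζ.pow_eq_one x = 1 := by rw [h]; rfl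
  rw [psi_apply, hx, ZMod.val_one, pow_one] at h1
  exact hζ.ne_one hp.out.one_lt h1

lemma psi_prim {ζ : K} (hζ : IsPrimitiveRoot ζ p) : (psi F hζ.pow_eq_one).IsPrimitive :=
  AddChar.IsPrimitive.of_ne_one (psi_ne_one hζ)

end psi

section traceSum

variable (p : ℕ) [hp : Fact p.Prime] (F : Type*) [Field F] [Fintype F] [Algebra (ZMod p) F]

lemma card_eq_pow : Fintype.card F = p ^ Module.finrank (ZMod p) F := by
  have := Module.card_eq_pow_finrank (K := ZMod p) (V := F)
  rwa [ZMod.card] at this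

lemma sum_inv_mul_trace :
    ∑ x : F, x⁻¹ * algebraMap (ZMod p) F (Algebra.trace (ZMod p) F x) = -1 := by
  classical
  have hcard := card_eq_pow p F
  set n := Module.finrank (ZMod p) F with hn
  have hn0 : 0 < n := Module.finrank_pos
  have h1 : ∀ x : F, x⁻¹ * algebraMap (ZMod p) F (Algebra.trace (ZMod p) F x)
      = ∑ i ∈ range n, x⁻¹ * x ^ (p ^ i) := by
    intro x
    rw [FiniteField.algebraMap_trace_eq_sum_pow, mul_sum, Nat.card_eq_fintype_card, ZMod.card]
  simp_rw [h1]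
  rw [sum_comm]
  obtain ⟨m, hm⟩ : ∃ m, n = m + 1 := ⟨n - 1, by omega⟩
  rw [hm, sum_range_succ']
  have h2 : ∀ i ∈ range m, ∑ x : F, x⁻¹ * x ^ (p ^ (i + 1)) = 0 := by
    intro i hi
    rw [mem_range] at hi
    have e : 2 ≤ p ^ (i + 1) := le_trans hp.out.two_le (Nat.le_self_pow (by omega) p)
    have h3 : ∀ x : F, x⁻¹ * x ^ (p ^ (i + 1)) = x ^ (p ^ (i + 1) - 1) := by
      intro x
      by_cases hx : x = 0
      · subst hx
        rw [inv_zero, zero_mul, zero_pow (by omega)]
      · obtain ⟨r, hr⟩ : ∃ r, p ^ (i + 1) = r + 1 := ⟨p ^ (i + 1) - 1, by omega⟩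
        rw [hr, Nat.add_sub_cancel, pow_succ, mul_comm, mul_assoc, mul_inv_cancel₀ hx, mul_one]
    simp_rw [h3]
    apply FiniteField.sum_pow_lt_card_sub_one
    rw [hcard]
    have : p ^ (i + 1) < p ^ n := Nat.pow_lt_pow_right hp.out.one_lt (by omega)
    omega
  rw [sum_congr rfl h2, sum_const_zero, zero_add]
  have h4 : ∀ x : F, x⁻¹ * x ^ (p ^ 0) = if x = 0 then 0 else 1 := by
    intro x
    by_cases hx : x = 0
    · simp [hx]
    · simp [hx]
  simp_rw [h4]
  rw [sum_ite]
  simp only [sum_const_zero, zero_add, sum_const, nsmul_eq_mul, mul_one]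
  have h5 : (univ.filter (fun x : F => ¬ x = 0)).card = Fintype.card F - 1 := by
    rw [filter_not, filter_eq' univ (0 : F), if_pos (mem_univ _), card_univ_sdiff]
    simp
  rw [h5, Nat.cast_sub Fintype.card_pos, Nat.cast_one, FiniteField.cast_card_eq_zero, zero_sub]

end traceSum

section main

variable {K : Type*} [NormedField K] [IsUltrametricDist K] {p : ℕ} [hp : Fact p.Prime]
  {F : Type*} [Field F] [Fintype F] [Algebra (ZMod p) F]

/-- the Gauss sum of the inverse of the Teichmueller character -/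
theorem norm_gaussSum_teich (h : ‖(p : K)‖ < 1) {ζ : K} (hζ : IsPrimitiveRoot ζ p)
    {ω : MulChar F K} {ι : F →+* κ K}
    (hω : ∀ x : F, red K ⟨ω x, norm_mulChar_le ω x⟩ = ι x) (hω1 : ω ≠ 1) :
    ‖gaussSum ω⁻¹ (psi F hζ.pow_eq_one)‖ = ‖ζ - 1‖ := by
  classical
  have n1 : ‖ζ‖ = 1 := norm_eq_one_of_pow hp.out.ne_zero hζ.pow_eq_one
  have hlt : ‖ζ - 1‖ < 1 := by
    have h1 := norm_zeta_sub_one_pow hζ
    by_contra hcon
    rw [not_lt] at hcon
    have := one_le_pow₀ (n := p - 1) hcon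
    rw [h1] at this
    exact absurd h (not_lt.2 this)
  let t : F → ℕ := fun x => (Algebra.trace (ZMod p) F x).val
  let z : O K := ⟨ζ, n1.le⟩
  let w : F → O K := fun x => ⟨ω x, norm_mulChar_le ω x⟩
  let S : O K := ∑ x : F, w x⁻¹ * ∑ j ∈ range (t x), z ^ j
  have hS : gaussSum ω⁻¹ (psi F hζ.pow_eq_one) = (S : K) * (ζ - 1) := by
    have h1 : gaussSum ω⁻¹ (psi F hζ.pow_eq_one)
        = ∑ x : F, ω⁻¹ x * (ζ ^ (t x) - 1) := by
      have h2 : ∑ x : F, ω⁻¹ x = 0 := MulChar.sum_eq_zero_of_ne_one (inv_ne_one.2 hω1)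
      simp_rw [mul_sub, mul_one]
      rw [sum_sub_distrib, h2, sub_zero]
      rfl
    rw [h1]
    simp only [S, w, z, AddSubmonoidClass.coe_finsetSum, Subring.coe_mul, Subring.coe_pow]
    rw [sum_mul]
    refine sum_congr rfl fun x _ => ?_
    rw [mul_assoc, geom_sum_mul, MulChar.inv_apply']
  have hred : red K S = -1 := by
    have hz : red K z = 1 := by
      rw [← sub_eq_zero, ← map_one (red K), ← map_sub, red_eq_zero]
      simpa [z] using hlt
    have h1 : red K S = ∑ x : F, ι x⁻¹ * (t x : κ K) := by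
      simp only [S]
      rw [map_sum]
      refine sum_congr rfl fun x _ => ?_
      rw [map_mul, map_sum]
      simp_rw [map_pow, hz, one_pow]
      rw [sum_const, card_range, nsmul_eq_mul, mul_one]
      congr 1
      exact hω x⁻¹
    rw [h1]
    have h2 : ∀ x : F, ι x⁻¹ * (t x : κ K)
        = ι (x⁻¹ * algebraMap (ZMod p) F (Algebra.trace (ZMod p) F x)) := by
      intro x
      rw [map_mul]
      congr 1
      have h3 : algebraMap (ZMod p) F (Algebra.trace (ZMod p) F x) = ((t x : ℕ) : F) := by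
        conv_lhs => rw [← ZMod.natCast_zmod_val (Algebra.trace (ZMod p) F x)]
        rw [map_natCast]
      rw [h3, map_natCast]
    simp_rw [h2]
    rw [← map_sum, sum_inv_mul_trace, map_neg, map_one]
  have hSn : ‖(S : K)‖ = 1 := by
    refine le_antisymm S.2 (not_lt.1 fun hcon => ?_)
    rw [← red_eq_zero, hred] at hcon
    exact neg_ne_zero.2 one_ne_zero hcon
  rw [hS, norm_mul, hSn, one_mul]

end main

end Pool.Stick
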