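import Pool.Agent.Stick.Basic

/-!
The Teichmueller character and the Gauss sum of its inverse.
-/

namespace Pool.Stick

open Finset

section ring

variable (K : Type*) [NormedField K] [IsUltrametricDist K]

/-- the valuation ring -/
def O : Subring K where
  carrier := {x | ‖x‖ ≤ 1}
  mul_mem' := fun {a b} ha hb => by
    simp only [Set.mem_ofPred_eq, norm_mul] at *
    exact mul_le_one₀ ha (norm_nonneg _) hb
  one_mem' := by simp
  add_mem' := fun {a b} ha hb => (IsUltrametricDist.norm_add_le_max a b).trans (max_le ha hb)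
  zero_mem' := by simp
  neg_mem' := fun {a} ha => by simpa using ha

variable {K} in
lemma mem_O {x : K} : x ∈ O K ↔ ‖x‖ ≤ 1 := Iff.rfl

/-- the maximal ideal -/
def M : Ideal (O K) where
  carrier := {x | ‖(x : K)‖ < 1}
  add_mem' := fun {a b} ha hb =>
    (IsUltrametricDist.norm_add_le_max (a : K) b).trans_lt (max_lt ha hb)
  zero_mem' := by simp
  smul_mem' := fun c x hx => by
    simp only [Set.mem_ofPred_eq, smul_eq_mul, Subring.coe_mul, norm_mul] at *
    exact mul_lt_one_of_nonneg_of_lt_one_right c.2 (norm_nonneg _) hx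

variable {K} in
lemma mem_M {x : O K} : x ∈ M K ↔ ‖(x : K)‖ < 1 := Iff.rfl

instance : (M K).IsPrime where
  ne_top' := by
    rw [Ideal.ne_top_iff_one, mem_M]
    simp
  mem_or_mem' := by
    intro x y hxy
    rw [mem_M, Subring.coe_mul, norm_mul] at hxy
    by_contra hcon
    rw [not_or, mem_M, mem_M, not_lt, not_lt] at hcon
    exact absurd hxy (not_lt.2 (one_le_mul_of_one_le_of_one_le hcon.1 hcon.2))

/-- an algebraically closed field containing the residue field -/
abbrev κ := AlgebraicClosure (FractionRing (O K ⧸ M K))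

/-- reduction -/
noncomputable def red : O K →+* κ K :=
  (algebraMap (FractionRing (O K ⧸ M K)) (κ K)).comp
    ((algebraMap (O K ⧸ M K) (FractionRing (O K ⧸ M K))).comp (Ideal.Quotient.mk (M K)))

variable {K}

lemma red_eq_zero {x : O K} : red K x = 0 ↔ ‖(x : K)‖ < 1 := by
  rw [red, RingHom.comp_apply, RingHom.comp_apply,
    map_eq_zero_iff _ (FaithfulSMul.algebraMap_injective _ _),
    map_eq_zero_iff _ (IsFractionRing.injective (O K ⧸ M K) (FractionRing (O K ⧸ M K))),
    Ideal.Quotient.eq_zero_iff_mem, mem_M]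

lemma charP_κ {p : ℕ} (hp : p.Prime) (h : ‖(p : K)‖ < 1) : CharP (κ K) p := by
  rw [CharP.charP_iff_prime_eq_zero hp]
  have h1 : red K (p : O K) = 0 := by rw [red_eq_zero]; simpa using h
  rwa [map_natCast] at h1

/-- roots of unity of order prime to the residue characteristic inject under reduction -/
lemma eq_one_of_norm_lt {N : ℕ} (hN : ‖(N : K)‖ = 1) {x : K} (hx : x ^ N = 1)
    (h : ‖x - 1‖ < 1) : x = 1 := by
  by_contra hne
  have hgeom : ∑ i ∈ range N, x ^ i = 0 := by
    have := geom_sum_mul x N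
    rw [hx, sub_self] at this
    exact (mul_eq_zero.1 this).resolve_right (sub_ne_zero.2 hne)
  have hN0 : N ≠ 0 := by rintro rfl; simp at hN
  have hx1 : ‖x‖ = 1 := norm_eq_one_of_pow hN0 hx
  have h2 : (N : K) = ∑ i ∈ range N, (1 - x ^ i) := by
    rw [sum_sub_distrib, hgeom]; simp
  have h3 : ‖(N : K)‖ ≤ ‖x - 1‖ := by
    rw [h2]
    refine IsUltrametricDist.norm_sum_le_of_forall_le_of_nonneg (norm_nonneg _) fun i _ => ?_
    have h4 : 1 - x ^ i = - ((∑ j ∈ range i, x ^ j) * (x - 1)) := by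
      rw [geom_sum_mul]; ring
    rw [h4, norm_neg, norm_mul]
    refine mul_le_of_le_one_left (norm_nonneg _) ?_
    refine IsUltrametricDist.norm_sum_le_of_forall_le_of_nonneg zero_le_one fun j _ => ?_
    rw [norm_pow, hx1, one_pow]
  rw [hN] at h3
  exact absurd h (not_lt.2 h3)

end ring

section teich

variable (K : Type*) [NormedField K] [IsUltrametricDist K] [IsAlgClosed K] [CharZero K]
  (p : ℕ) [hp : Fact p.Prime] (F : Type*) [Field F] [Fintype F] [CharP F p]

omit [CharZero K] in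
lemma norm_card_sub_one (h : ‖(p : K)‖ < 1) : ‖((Fintype.card F - 1 : ℕ) : K)‖ = 1 := by
  obtain ⟨n, _, hn⟩ := FiniteField.card F p
  have h1 : 1 ≤ Fintype.card F := Fintype.card_pos
  rw [Nat.cast_sub h1, Nat.cast_one, norm_sub_rev]
  have h2 : ‖((Fintype.card F : ℕ) : K)‖ < 1 := by
    rw [hn, Nat.cast_pow, norm_pow]
    exact pow_lt_one₀ (norm_nonneg _) h n.pos.ne'
  have h3 : ‖(1 : K)‖ ≠ ‖(-((Fintype.card F : ℕ) : K))‖ := by rw [norm_one, norm_neg]; exact h2.ne'
  rw [sub_eq_add_neg, IsUltrametricDist.norm_add_eq_max_of_norm_ne_norm h3, norm_one, norm_neg]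
  exact max_eq_left h2.le

theorem exists_teich (h : ‖(p : K)‖ < 1) :
    ∃ (ω : MulChar F K) (ι : F →+* κ K),
      (∀ x : F, red K ⟨ω x, norm_mulChar_le ω x⟩ = ι x) ∧
      orderOf ω = Fintype.card F - 1 ∧ ∀ χ : MulChar F K, ∃ c : ℕ, χ = (ω⁻¹) ^ c := by
  classical
  have := charP_κ (K := K) hp.out h
  let : Algebra (ZMod p) F := ZMod.algebra F p
  let : Algebra (ZMod p) (κ K) := ZMod.algebra (κ K) p
  let ι : F →+* κ K := (IsAlgClosed.lift (R := ZMod p) (S := F) (M := κ K)).toRingHom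
  set N := Fintype.card F - 1 with hN
  have hN0 : N ≠ 0 := by
    have : 1 < Fintype.card F := Fintype.one_lt_card
    omega
  have : NeZero N := ⟨hN0⟩
  have hNn : ‖(N : K)‖ = 1 := norm_card_sub_one K p F h
  have : NeZero (N : K) := ⟨Nat.cast_ne_zero.2 hN0⟩
  obtain ⟨μ, hμ⟩ := HasEnoughRootsOfUnity.exists_primitiveRoot K N
  have hμn : ‖μ‖ = 1 := norm_eq_one_of_pow hN0 hμ.pow_eq_one
  -- the reduction of `μ`
  set μ' : κ K := red K ⟨μ, hμn.le⟩ with hμ'
  have hprim : IsPrimitiveRoot μ' N := by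
    refine ⟨?_, fun k hk => ?_⟩
    · rw [hμ', ← map_pow]
      have : (⟨μ, hμn.le⟩ : O K) ^ N = 1 := Subtype.ext (by simpa using hμ.pow_eq_one)
      rw [this, map_one]
    · rw [hμ', ← map_pow, ← sub_eq_zero, ← map_one (red K), ← map_sub, red_eq_zero] at hk
      have hk' : ‖μ ^ k - 1‖ < 1 := by simpa using hk
      have : μ ^ k = 1 := eq_one_of_norm_lt hNn (by rw [← pow_mul, mul_comm, pow_mul,
        hμ.pow_eq_one, one_pow]) hk'
      exact hμ.dvd_of_pow_eq_one k this
  obtain ⟨γ, hγ⟩ := IsCyclic.exists_generator (α := Fˣ)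
  have hcard : Fintype.card Fˣ = N := by rw [hN, Fintype.card_units]
  have hγo : orderOf γ = N := by
    rw [orderOf_eq_card_of_forall_mem_zpowers hγ, Nat.card_eq_fintype_card, hcard]
  have hιγ : ι (γ : F) ^ N = 1 := by
    rw [← map_pow, ← Units.val_pow_eq_pow_val, ← hγo, pow_orderOf_eq_one, Units.val_one, map_one]
  obtain ⟨k, _, hk⟩ := hprim.eq_pow_of_pow_eq_one hιγ
  -- `ν = μ ^ k`
  have hνN : (μ ^ k) ^ N = 1 := by rw [← pow_mul, mul_comm, pow_mul, hμ.pow_eq_one, one_pow]
  have hν0 : μ ^ k ≠ 0 := pow_ne_zero _ (hμ.ne_zero hN0)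
  let ν : Kˣ := Units.mk0 (μ ^ k) hν0
  have hν : ν ∈ rootsOfUnity (Fintype.card Fˣ) K := by
    rw [hcard, mem_rootsOfUnity]
    ext
    simpa [ν] using hνN
  let ω : MulChar F K := MulChar.ofRootOfUnity hν hγ
  have hωγ : ω γ = μ ^ k := MulChar.ofRootOfUnity_spec hν hγ
  have hred : ∀ x : F, red K ⟨ω x, norm_mulChar_le ω x⟩ = ι x := by
    intro x
    by_cases hx : x = 0
    · subst hx
      have : (⟨ω 0, norm_mulChar_le ω 0⟩ : O K) = 0 := Subtype.ext ω.map_zero
      rw [this, map_zero, map_zero]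
    · obtain ⟨j, hj⟩ : ∃ j : ℕ, γ ^ j = Units.mk0 x hx := by
        have := hγ (Units.mk0 x hx)
        rw [← mem_powers_iff_mem_zpowers] at this
        exact this
      have hxj : x = (γ : F) ^ j := by
        have := congrArg Units.val hj
        simpa using this.symm
      have h1 : (⟨ω x, norm_mulChar_le ω x⟩ : O K) = ⟨μ, hμn.le⟩ ^ (k * j) := by
        apply Subtype.ext
        rw [hxj]
        change ω ((γ : F) ^ j) = μ ^ (k * j)
        rw [map_pow, hωγ, ← pow_mul]
      rw [h1, map_pow, ← hμ', pow_mul, hk, hxj, map_pow]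
  have hunit : ∀ x : Fˣ, ∃ j : ℕ, x = γ ^ j := by
    intro x
    have := hγ x
    rw [← mem_powers_iff_mem_zpowers] at this
    obtain ⟨j, hj⟩ := this
    exact ⟨j, hj.symm⟩
  -- `ν` is a primitive root
  have hνprim : IsPrimitiveRoot (μ ^ k) N := by
    refine ⟨hνN, fun l hl => ?_⟩
    have h1 : ι ((γ : F) ^ l) = 1 := by
      rw [map_pow, ← hk, ← pow_mul, hμ', ← map_pow]
      have : (⟨μ, hμn.le⟩ : O K) ^ (k * l) = 1 :=
        Subtype.ext (by simpa [pow_mul] using hl)
      rw [this, map_one]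
    have h2 : (γ : F) ^ l = 1 := ι.injective (by rw [h1, map_one])
    rw [← hγo]
    exact orderOf_dvd_of_pow_eq_one (Units.ext (by simpa using h2))
  refine ⟨ω, ι, hred, ?_, ?_⟩
  · apply Nat.dvd_antisymm
    · exact MulChar.orderOf_dvd_card_sub_one F ω
    · apply hνprim.dvd_of_pow_eq_one
      rw [← hωγ, ← MulChar.pow_apply_coe, pow_orderOf_eq_one, MulChar.one_apply_coe]
  · intro χ
    have hχN : χ γ ^ N = 1 := by
      rw [← MulChar.pow_apply_coe, ← hcard, χ.pow_card_eq_one, MulChar.one_apply_coe]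
    have hinv : IsPrimitiveRoot (μ ^ k)⁻¹ N := hνprim.inv
    obtain ⟨c, _, hc⟩ := hinv.eq_pow_of_pow_eq_one hχN
    refine ⟨c, ?_⟩
    apply MulChar.ext
    intro a
    obtain ⟨j, rfl⟩ := hunit a
    rw [MulChar.pow_apply_coe, MulChar.inv_apply_eq_inv', Units.val_pow_eq_pow_val, map_pow,
      map_pow, hωγ, ← hc]
    rw [← pow_mul, ← inv_pow (μ ^ k) j, ← pow_mul, mul_comm c j]

end teich

end Pool.Stick
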